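import Mathlib

/-!
Definitions for MP_70d4d1_co (regular graphs with the largest smallest eigenvalue).
-/

namespace Pool.Agent.H37.RE0

open Classical in
/-- the smallest eigenvalue of the adjacency matrix of a finite graph -/
noncomputable def lamMin {V : Type} [Fintype V] [DecidableEq V] (G : SimpleGraph V) : ℝ :=
  sInf (spectrum ℝ (G.adjMatrix ℝ))

/-- every vertex has exactly `D` neighbours -/
def Reg {V : Type} (G : SimpleGraph V) (D : ℕ) : Prop := ∀ v, (G.neighborSet v).ncard = D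

/-- `m` such that `a ∣ m`, `b ∣ m`, `a * b ≤ m` for some positive `a + b = D + 2`; and `D + 2` if
`D` is even -/
def sizes2 (D : ℕ) : Set ℕ :=
  {m | ∃ a b : ℕ, 1 ≤ a ∧ 1 ≤ b ∧ a + b = D + 2 ∧ a ∣ m ∧ b ∣ m ∧ a * b ≤ m} ∪
    {m | Even D ∧ m = D + 2}

end Pool.Agent.H37.RE0
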