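import Pool.Agent.H37.RE0

/-!
Integral positive definite matrices with dual minimum at least one.
-/

namespace Pool.Agent.H37.RE1

open Matrix Finset

/-- positivity of the quadratic form -/
def Pos {ι : Type*} [Fintype ι] (P : Matrix ι ι ℝ) : Prop :=
  ∀ z : ι → ℝ, z ≠ 0 → 0 < z ⬝ᵥ (P *ᵥ z)

/-- the nonzero vectors of the dual lattice have norm at least one -/
def Lat {ι : Type*} [Fintype ι] (P : Matrix ι ι ℝ) : Prop :=
  ∀ z : ι → ℝ, (∀ i, ∃ k : ℤ, (P *ᵥ z) i = k) → z ≠ 0 → 1 ≤ z ⬝ᵥ (P *ᵥ z)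

lemma posDef_of_pos {ι : Type*} [Fintype ι] {P : Matrix ι ι ℝ} (hs : P.IsHermitian)
    (h : Pos P) : P.PosDef :=
  Matrix.PosDef.of_dotProduct_mulVec_pos hs (by
    intro x hx
    simpa using h x hx)

theorem step {ι : Type*} [Fintype ι] [DecidableEq ι] (P : Matrix ι ι ℝ) (hs : P.IsHermitian)
    (hP : Pos P) (hL : Lat P) (b : ι → ℝ) (hb : ∀ i, ∃ k : ℤ, b i = k) (hb0 : b ≠ 0)
    (hP' : Pos (Matrix.fromBlocks P (Matrix.of fun i (_ : Unit) => b i)
      (Matrix.of fun (_ : Unit) i => b i) (Matrix.of fun (_ _ : Unit) => (2 : ℝ)))) :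
    Lat (Matrix.fromBlocks P (Matrix.of fun i (_ : Unit) => b i)
      (Matrix.of fun (_ : Unit) i => b i) (Matrix.of fun (_ _ : Unit) => (2 : ℝ))) ∧
    (Matrix.fromBlocks P (Matrix.of fun i (_ : Unit) => b i)
      (Matrix.of fun (_ : Unit) i => b i) (Matrix.of fun (_ _ : Unit) => (2 : ℝ))).det
      ≤ P.det := by
  set P' := (Matrix.fromBlocks P (Matrix.of fun i (_ : Unit) => b i)
      (Matrix.of fun (_ : Unit) i => b i) (Matrix.of fun (_ _ : Unit) => (2 : ℝ))) with hP'def
  have hpd := posDef_of_pos hs hP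
  have hdet : 0 < P.det := hpd.det_pos
  have hunit : IsUnit P.det := hdet.ne'.isUnit
  have : Invertible P := Matrix.invertibleOfIsUnitDet P hunit
  set u : ι → ℝ := P⁻¹ *ᵥ b with hu
  have hPu : P *ᵥ u = b := by
    rw [hu, Matrix.mulVec_mulVec, Matrix.mul_nonsing_inv _ hunit, Matrix.one_mulVec]
  have hu0 : u ≠ 0 := by
    intro h
    rw [h, Matrix.mulVec_zero] at hPu
    exact hb0 hPu.symm
  have hub : 1 ≤ u ⬝ᵥ b := by
    have := hL u (by rw [hPu]; exact hb) hu0
    rwa [hPu] at this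
  -- symmetric bilinear form
  have hsym : ∀ x y : ι → ℝ, x ⬝ᵥ (P *ᵥ y) = y ⬝ᵥ (P *ᵥ x) := by
    intro x y
    have ht : Pᵀ = P := by
      have := hs
      rw [Matrix.IsHermitian, Matrix.conjTranspose_eq_transpose_of_trivial] at this
      exact this
    rw [Matrix.dotProduct_mulVec, ← Matrix.mulVec_transpose, ht, dotProduct_comm]
  -- the form of P'
  have hmv : ∀ (y : ι → ℝ) (t : ℝ), P' *ᵥ (Sum.elim y (fun _ => t)) =
      Sum.elim (P *ᵥ y + t • b) (fun _ => b ⬝ᵥ y + 2 * t) := by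
    intro y t
    rw [hP'def, Matrix.fromBlocks_mulVec]
    congr 1
    · funext i
      simp [Matrix.mulVec, dotProduct, mul_comm]
    · funext i
      simp [Matrix.mulVec, dotProduct]
  have hform : ∀ (y : ι → ℝ) (t : ℝ),
      (Sum.elim y (fun _ : Unit => t)) ⬝ᵥ (P' *ᵥ (Sum.elim y (fun _ => t))) =
      (y + t • u) ⬝ᵥ (P *ᵥ (y + t • u)) + t ^ 2 * (2 - u ⬝ᵥ b) := by
    intro y t
    rw [hmv]
    have e1 : (Sum.elim y (fun _ : Unit => t)) ⬝ᵥ
        (Sum.elim (P *ᵥ y + t • b) (fun _ => b ⬝ᵥ y + 2 * t)) =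
        y ⬝ᵥ (P *ᵥ y + t • b) + t * (b ⬝ᵥ y + 2 * t) := by
      simp [dotProduct, Fintype.sum_sum_type]
    rw [e1]
    have e2 : P *ᵥ (y + t • u) = P *ᵥ y + t • b := by
      rw [Matrix.mulVec_add, Matrix.mulVec_smul, hPu]
    rw [e2, add_dotProduct, dotProduct_add, dotProduct_add, smul_dotProduct, smul_dotProduct]
    have e3 : u ⬝ᵥ (P *ᵥ y) = b ⬝ᵥ y := by
      rw [hsym, hPu, dotProduct_comm]
    rw [e3, dotProduct_smul, dotProduct_smul, smul_eq_mul, smul_eq_mul, smul_eq_mul,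
      smul_eq_mul, dotProduct_comm b y]
    ring
  -- q > 0
  have hq : 0 < 2 - u ⬝ᵥ b := by
    have h1 := hP' (Sum.elim (-u) (fun _ => 1)) (by
      intro h
      have := congrFun h (Sum.inr ())
      simp at this)
    rw [hform] at h1
    simpa using h1
  set q := 2 - u ⬝ᵥ b with hqdef
  have hq1 : q ≤ 1 := by rw [hqdef]; linarith
  constructor
  · intro z hz hz0
    obtain ⟨y, t, rfl⟩ : ∃ (y : ι → ℝ) (t : ℝ), z = Sum.elim y (fun _ => t) := by
      refine ⟨fun i => z (Sum.inl i), z (Sum.inr ()), ?_⟩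
      funext i
      rcases i with i | i <;> rfl
    rw [hmv] at hz
    rw [hform]
    by_cases hc : y + t • u = 0
    · rw [hc]
      have hy : y = -(t • u) := eq_neg_of_add_eq_zero_left hc
      have ht0 : t ≠ 0 := by
        intro ht
        apply hz0
        rw [hy, ht]
        funext i
        rcases i with i | i <;> simp
      obtain ⟨k, hk⟩ := hz (Sum.inr ())
      have hk' : t * q = k := by
        rw [← hk]
        simp only [Sum.elim_inr]
        rw [hy, dotProduct_neg, dotProduct_smul, dotProduct_comm b u, smul_eq_mul, hqdef]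
        ring
      have hk0 : k ≠ 0 := by
        intro h
        rw [h] at hk'
        have : t * q ≠ 0 := mul_ne_zero ht0 hq.ne'
        exact this (by simpa using hk')
      have hk1 : (1 : ℝ) ≤ (k : ℝ) ^ 2 := by
        have h2 : (1 : ℤ) ≤ k ^ 2 := by
          have := Int.one_le_abs hk0
          nlinarith [sq_abs k, abs_nonneg k]
        exact_mod_cast h2
      have h3 : t ^ 2 * q * q = (k : ℝ) ^ 2 := by rw [← hk']; ring
      have h4 : 0 ≤ t ^ 2 * q := by positivity
      have h5 : t ^ 2 * q * q ≤ t ^ 2 * q * 1 := mul_le_mul_of_nonneg_left hq1 h4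
      simp only [Matrix.mulVec_zero, dotProduct_zero, zero_add]
      linarith
    · have h1 := hL (y + t • u) (by
        intro i
        obtain ⟨k, hk⟩ := hz (Sum.inl i)
        refine ⟨k, ?_⟩
        rw [Matrix.mulVec_add, Matrix.mulVec_smul, hPu]
        simpa using hk) hc
      have h2 : 0 ≤ t ^ 2 * q := by positivity
      linarith
  · rw [hP'def, Matrix.det_fromBlocks₁₁]
    have e : ((Matrix.of fun (_ _ : Unit) => (2 : ℝ)) -
        (Matrix.of fun (_ : Unit) i => b i) * ⅟P * (Matrix.of fun i (_ : Unit) => b i)).det = q := by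
      rw [Matrix.det_unique, Matrix.sub_apply, Matrix.mul_assoc, hqdef]
      congr 1
      rw [Matrix.mul_apply, Matrix.invOf_eq_nonsing_inv, dotProduct_comm, hu]
      simp only [dotProduct, Matrix.of_apply]
      apply Finset.sum_congr rfl
      intro i _
      congr 1
    rw [e]
    nlinarith

end Pool.Agent.H37.RE1
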