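import Pool.Agent.H37.RE9

/-!
Sharp gaps for every degree `D ≥ 400`.
-/

namespace Pool.Agent.H37.RE10

open Pool.Agent.H37.RE0

open Matrix Finset Pool.Agent.H37.RE2 Pool.Agent.H37.RE3 Pool.Agent.H37.RE4 Pool.Agent.H37.RE6
  Pool.Agent.H37.RE7 Pool.Agent.H37.RE8 Pool.Agent.H37.RE9

section
variable {V : Type} [Fintype V] [DecidableEq V] {G : SimpleGraph V} [DecidableRel G.Adj]
variable {κ : Type} [Fintype κ] {X : V → (κ → ℝ)} (hX : ∀ v w, X v ⬝ᵥ X w = MM G v w)
include hX

lemma big_diff {D : ℕ} (hD : 45 ≤ D) (hreg : ∀ v, (G.neighborFinset v).card = D) {u v w : V}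
    (huv : u ≠ v) (nuv : ¬ G.Adj u v) (huw : G.Adj u w) (nvw : ¬ G.Adj v w) :
    33 ≤ (G.neighborFinset u \ G.neighborFinset v).card := by
  have h12 := common_le hX huv nuv huw nvw
  have := Finset.card_sdiff_add_card_inter (G.neighborFinset u) (G.neighborFinset v)
  rw [hreg] at this
  omega

/-- a triangle of triangle type forces many vertices -/
theorem tri_big {D : ℕ} (hD : 45 ≤ D) (hreg : ∀ v, (G.neighborFinset v).card = D) {u x y : V}
    (hux : G.Adj u x) (huy : G.Adj u y) (hxy : G.Adj x y)
    (htri : ∀ g, (¬ (G.Adj x g ↔ G.Adj y g)) ↔ G.Adj u g) (k : ℕ) (hk : 4 * k ≤ D) :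
    k * D ≤ 2 * Fintype.card V + 2 * (k * (k - 1)) + 20 * k := by
  set P := G.neighborFinset x ∩ G.neighborFinset y with hP
  set M := G.neighborFinset x ∪ G.neighborFinset y with hM
  have memP : ∀ g, g ∈ P ↔ G.Adj x g ∧ G.Adj y g := by intro g; simp [hP]
  have memM : ∀ g, g ∈ M ↔ G.Adj x g ∨ G.Adj y g := by intro g; simp [hM]
  have hPu : ∀ p ∈ P, ¬ G.Adj u p := by
    intro p hp h
    have h1 := (memP p).1 hp
    exact ((htri p).2 h) ⟨fun _ => h1.2, fun _ => h1.1⟩
  have hMP : M = P ∪ G.neighborFinset u := by
    ext g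
    rw [memM, Finset.mem_union, memP, SimpleGraph.mem_neighborFinset, ← htri g]
    tauto
  have hdisj : Disjoint P (G.neighborFinset u) := by
    rw [Finset.disjoint_left]
    intro g hg hg2
    exact hPu g hg (by simpa using hg2)
  have c1 : M.card + P.card = D + D := by
    have := Finset.card_union_add_card_inter (G.neighborFinset x) (G.neighborFinset y)
    rw [hreg, hreg] at this
    exact this
  have c2 : M.card = P.card + D := by
    rw [hMP, Finset.card_union_of_disjoint hdisj, hreg]
  have hcP : 2 * P.card = D := by omega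
  have huP : u ∈ P := (memP u).2 ⟨hux.symm, huy.symm⟩
  -- no twins of u in P
  have hnt : ∀ p ∈ P, p ≠ u → G.neighborFinset u ≠ G.neighborFinset p := by
    intro p hp hpu hEq
    have hup : ∀ d, G.Adj u d → G.Adj p d := by
      intro d hd
      have : d ∈ G.neighborFinset p := by rw [← hEq]; simpa using hd
      simpa using this
    set B := (G.neighborFinset u).filter (fun d => d ≠ x ∧ ¬ G.Adj x d) with hB
    have hB1 : B.card ≤ 1 := by
      rw [Finset.card_le_one]
      intro d hd d' hd'
      rw [hB, Finset.mem_filter, SimpleGraph.mem_neighborFinset] at hd hd'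
      exact opp_unique hX (Ne.symm hpu) (hPu p hp) hux (hup x hux) hd.1 (hup d hd.1) hd.2.1
        hd.2.2 hd'.1 (hup d' hd'.1) hd'.2.1 hd'.2.2
    have hsplit : G.neighborFinset u ⊆ insert x (B ∪ (G.neighborFinset x \ P)) := by
      intro d hd
      have hud : G.Adj u d := by simpa using hd
      by_cases h1 : d = x
      · rw [h1]; exact Finset.mem_insert_self _ _
      · apply Finset.mem_insert_of_mem
        rw [Finset.mem_union]
        by_cases h2 : G.Adj x d
        · right
          rw [Finset.mem_sdiff]
          exact ⟨by simpa using h2, fun h3 => hPu d h3 hud⟩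
        · left
          rw [hB, Finset.mem_filter]
          exact ⟨hd, h1, h2⟩
    have h1 := Finset.card_le_card hsplit
    have h2 := Finset.card_insert_le x (B ∪ (G.neighborFinset x \ P))
    have h3 := Finset.card_union_le B (G.neighborFinset x \ P)
    have h4 : (G.neighborFinset x \ P).card = D - P.card := by
      rw [Finset.card_sdiff_of_subset (by rw [hP]; exact Finset.inter_subset_left), hreg]
    rw [hreg] at h1
    omega
  -- lower bound for N(p) \ M
  have hlow : ∀ p ∈ P, p ≠ u → P.card - 10 ≤ (G.neighborFinset p \ M).card := by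
    intro p hp hpu
    obtain ⟨w, hw1, hw2⟩ := exists_diff hreg (hnt p hp hpu)
    have h12 := common_le hX (Ne.symm hpu) (hPu p hp) hw1 hw2
    have h1 : (G.neighborFinset p ∩ P).card ≤ P.card - 2 := by
      have hsub : G.neighborFinset p ∩ P ⊆ (P.erase p).erase u := by
        intro g hg
        rw [Finset.mem_inter, SimpleGraph.mem_neighborFinset] at hg
        rw [Finset.mem_erase, Finset.mem_erase]
        refine ⟨?_, hg.1.ne.symm, hg.2⟩
        rintro rfl
        exact hPu p hp hg.1.symm
      have h2 := Finset.card_le_card hsub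
      rw [Finset.card_erase_of_mem, Finset.card_erase_of_mem hp] at h2
      · omega
      · rw [Finset.mem_erase]; exact ⟨Ne.symm hpu, huP⟩
    have h2 : (G.neighborFinset p ∩ M).card ≤ (P.card - 2) + 12 := by
      rw [hMP, Finset.inter_union_distrib_left]
      refine (Finset.card_union_le _ _).trans ?_
      rw [Finset.inter_comm (G.neighborFinset p) (G.neighborFinset u)]
      omega
    have h3 := Finset.card_sdiff_add_card_inter (G.neighborFinset p) M
    rw [hreg] at h3
    have h4 : 1 < P.card := Finset.one_lt_card.2 ⟨u, huP, p, hp, Ne.symm hpu⟩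
    omega
  -- overlaps
  have hover : ∀ p ∈ P, ∀ q ∈ P, G.Adj p q →
      ((G.neighborFinset p ∩ G.neighborFinset q) \ M).card ≤ 2 := by
    intro p hp q hq hpq
    by_contra hlt
    push Not at hlt
    obtain ⟨a, ha, b, hb, c, hc, hab, hac, hbc⟩ := Finset.two_lt_card.1 hlt
    have key : ∀ g ∈ (G.neighborFinset p ∩ G.neighborFinset q) \ M,
        ∀ h, (¬ (G.Adj p h ↔ G.Adj q h)) ↔ G.Adj g h := by
      intro g hg
      rw [Finset.mem_sdiff, Finset.mem_inter, SimpleGraph.mem_neighborFinset,
        SimpleGraph.mem_neighborFinset, memM] at hg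
      obtain ⟨⟨hg1, hg2⟩, hg3⟩ := hg
      push Not at hg3
      have hxg : x ≠ g := by
        rintro rfl
        exact hg3.2 hxy.symm
      have hp' := (memP p).1 hp
      have hq' := (memP q).1 hq
      have hbig := big_diff hX hD hreg hxg hg3.1 hxy (fun hh => hg3.2 hh.symm)
      rcases diamond_class hX hxg hg3.1 hp'.1 hq'.1 hg1.symm hg2.symm hpq hbig with h | h
      · exact absurd ⟨fun _ => hq'.2.symm, fun _ => hp'.2.symm⟩ ((h y).2 hxy)
      · exact h
    have ka := key a ha
    have kb := key b hb
    have kc := key c hc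
    have e1 : G.neighborFinset b = G.neighborFinset a := by
      ext g
      rw [SimpleGraph.mem_neighborFinset, SimpleGraph.mem_neighborFinset, ← ka g, ← kb g]
    have e2 : G.neighborFinset c = G.neighborFinset a := by
      ext g
      rw [SimpleGraph.mem_neighborFinset, SimpleGraph.mem_neighborFinset, ← ka g, ← kc g]
    exact hbc (twins hX (by omega) hreg hab hac e1 e2).symm
  -- opposite vertices
  have hopp : ∀ p ∈ P, p ≠ u → (P.filter (fun q => q ≠ u ∧ q ≠ p ∧ ¬ G.Adj p q)).card ≤ 1 := by
    intro p hp hpu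
    rw [Finset.card_le_one]
    have hval : ∀ q ∈ P.filter (fun q => q ≠ u ∧ q ≠ p ∧ ¬ G.Adj p q),
        X q = X x + X y - X u - X p := by
      intro q hq
      rw [Finset.mem_filter] at hq
      obtain ⟨hq, hqu, hqp, npq⟩ := hq
      have hp' := (memP p).1 hp
      have hq' := (memP q).1 hq
      have nup := hPu p hp
      have nuq := hPu q hq
      have hzero : (X q + X p + X u - X x - X y) ⬝ᵥ (X q + X p + X u - X x - X y) = 0 := by
        simp only [sub_dotProduct, dotProduct_sub, add_dotProduct, dotProduct_add]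
        rw [x_self hX q, x_self hX p, x_self hX u, x_self hX x, x_self hX y,
          x_nadj hX npq (Ne.symm hqp), x_nadj hX (fun hh => npq hh.symm) hqp,
          x_nadj hX nup (Ne.symm hpu), x_nadj hX (fun hh => nup hh.symm) hpu,
          x_nadj hX nuq (Ne.symm hqu), x_nadj hX (fun hh => nuq hh.symm) hqu,
          x_adj hX hp'.1, x_adj hX hp'.1.symm, x_adj hX hp'.2, x_adj hX hp'.2.symm,
          x_adj hX hq'.1, x_adj hX hq'.1.symm, x_adj hX hq'.2, x_adj hX hq'.2.symm,
          x_adj hX hux, x_adj hX hux.symm, x_adj hX huy, x_adj hX huy.symm, x_adj hX hxy,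
          x_adj hX hxy.symm]
        norm_num
      have h1 := dotProduct_self_eq_zero.1 hzero
      have h2 : X q = X q - (X q + X p + X u - X x - X y) := by rw [h1, sub_zero]
      rw [h2]
      abel
    intro a ha b hb
    exact x_inj hX ((hval a ha).trans (hval b hb).symm)
  -- the family
  have fam : ∀ k : ℕ, (∀ i < k, 2 * i + 1 < P.card) → ∃ I : Finset V, I ⊆ P ∧ I.card = k ∧
      u ∉ I ∧ k * (P.card - 10) ≤
        (I.biUnion (fun p => G.neighborFinset p \ M)).card + k * (k - 1) := by
    intro k
    induction k with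
    | zero => intro _; exact ⟨∅, by simp⟩
    | succ k ih =>
      intro hk'
      obtain ⟨I, hIP, hI, huI, hle⟩ := ih (fun i hi => hk' i (by omega))
      obtain ⟨p, hpP, hpb⟩ : ∃ p ∈ P, p ∉ insert u (I ∪ I.biUnion (fun i =>
          P.filter (fun q => q ≠ u ∧ q ≠ i ∧ ¬ G.Adj i q))) := by
        by_contra hcon
        push Not at hcon
        have h1 : P ⊆ insert u (I ∪ I.biUnion (fun i =>
          P.filter (fun q => q ≠ u ∧ q ≠ i ∧ ¬ G.Adj i q))) := fun p hp => hcon p hp
        have h2 := Finset.card_le_card h1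
        have h3 := Finset.card_insert_le u (I ∪ I.biUnion (fun i =>
          P.filter (fun q => q ≠ u ∧ q ≠ i ∧ ¬ G.Adj i q)))
        have h4 := Finset.card_union_le I (I.biUnion (fun i =>
          P.filter (fun q => q ≠ u ∧ q ≠ i ∧ ¬ G.Adj i q)))
        have h5 : (I.biUnion (fun i =>
          P.filter (fun q => q ≠ u ∧ q ≠ i ∧ ¬ G.Adj i q))).card ≤ I.card * 1 := by
          apply Finset.card_biUnion_le_card_mul
          intro i hi
          exact hopp i (hIP hi) (fun hh => huI (hh ▸ hi))
        have h6 := hk' k (by omega)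
        omega
      rw [Finset.mem_insert, Finset.mem_union, Finset.mem_biUnion] at hpb
      push Not at hpb
      obtain ⟨hpu, hpI, hpadj⟩ := hpb
      have hadj : ∀ i ∈ I, G.Adj i p := by
        intro i hi
        by_contra hn
        exact hpadj i hi (Finset.mem_filter.2 ⟨hpP, hpu, fun hh => hpI (hh ▸ hi), hn⟩)
      refine ⟨insert p I, ?_, by rw [Finset.card_insert_of_notMem hpI, hI], ?_, ?_⟩
      · intro z hz
        rcases Finset.mem_insert.1 hz with rfl | hz
        · exact hpP
        · exact hIP hz
      · rw [Finset.mem_insert]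
        rintro (h | h)
        · exact hpu h.symm
        · exact huI h
      · rw [Finset.biUnion_insert]
        have h1 := Finset.card_union_add_card_inter (G.neighborFinset p \ M)
          (I.biUnion (fun p => G.neighborFinset p \ M))
        have h2 := hlow p hpP hpu
        have h3 : ((G.neighborFinset p \ M) ∩
            I.biUnion (fun p => G.neighborFinset p \ M)).card ≤ k * 2 := by
          rw [Finset.inter_biUnion, ← hI]
          apply Finset.card_biUnion_le_card_mul
          intro i hi
          refine le_trans (Finset.card_le_card ?_) (hover p hpP i (hIP hi) (hadj i hi).symm)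
          intro c hc
          simp only [Finset.mem_inter, Finset.mem_sdiff] at hc ⊢
          exact ⟨⟨hc.1.1, hc.2.1⟩, hc.1.2⟩
        have h7 : (k + 1) * (k + 1 - 1) = k * (k - 1) + k * 2 := by
          rcases Nat.eq_zero_or_pos k with h0 | h0
          · subst h0; rfl
          · obtain ⟨k', rfl⟩ : ∃ k', k = k' + 1 := ⟨k - 1, by omega⟩
            simp only [Nat.add_sub_cancel]
            ring
        have h8 : (k + 1) * (P.card - 10) = k * (P.card - 10) + (P.card - 10) := by ring
        rw [h7, h8]
        omega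
  obtain ⟨I, _, _, _, hle⟩ := fam k (fun i hi => by omega)
  have h1 := Finset.card_le_univ (I.biUnion (fun p => G.neighborFinset p \ M))
  have h2 : k * D = 2 * (k * (P.card - 10)) + 20 * k := by
    obtain ⟨a, ha⟩ : ∃ a, P.card = a + 10 := ⟨P.card - 10, by omega⟩
    rw [ha, Nat.add_sub_cancel, ← hcP, ha]
    ring
  omega

/-- common neighbours in small graphs -/
lemma common_two' {D : ℕ} (hD : 45 ≤ D) (hreg : ∀ v, (G.neighborFinset v).card = D)
    (hn : 16 * Fintype.card V + 36 * D < D * D) {u v w : V} (huv : u ≠ v)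
    (nuv : ¬ G.Adj u v) (huw : G.Adj u w) (nvw : ¬ G.Adj v w) :
    (G.neighborFinset u ∩ G.neighborFinset v).card ≤ 2 := by
  by_contra hlt
  push Not at hlt
  have nodia : ∀ x y, G.Adj u x → G.Adj u y → G.Adj v x → G.Adj v y → ¬ G.Adj x y := by
    intro x y h1 h2 h3 h4 h5
    have hbig := big_diff hX hD hreg huv nuv huw nvw
    have hfin : ∀ a, G.Adj a x → G.Adj a y →
        (∀ g, (¬ (G.Adj x g ↔ G.Adj y g)) ↔ G.Adj a g) → False := by
      intro a ha1 ha2 ha3
      have h6 := tri_big hX hD hreg ha1 ha2 h5 ha3 (D / 4) (by omega)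
      obtain ⟨q, r, hq, hr⟩ : ∃ q r, D = 4 * q + r ∧ r < 4 := ⟨D / 4, D % 4, by omega, by omega⟩
      have hq4 : D / 4 = q := by omega
      rw [hq4] at h6
      obtain ⟨q', rfl⟩ : ∃ q', q = q' + 1 := ⟨q - 1, by omega⟩
      simp only [Nat.add_sub_cancel] at h6
      subst hq
      nlinarith
    rcases diamond_class hX huv nuv h1 h2 h3 h4 h5 hbig with h | h
    · exact hfin u h1 h2 h
    · exact hfin v h3 h4 h
  obtain ⟨c, hc, d, hd, d', hd', h1, h2, h3⟩ := Finset.two_lt_card.1 hlt
  simp only [Finset.mem_inter, SimpleGraph.mem_neighborFinset] at hc hd hd'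
  exact h3 (opp_unique hX huv nuv hc.1 hc.2 hd.1 hd.2 (Ne.symm h1)
    (nodia c d hc.1 hd.1 hc.2 hd.2) hd'.1 hd'.2 (Ne.symm h2)
    (nodia c d' hc.1 hd'.1 hc.2 hd'.2))

theorem family3 {D : ℕ} (hD : 45 ≤ D) (hreg : ∀ v, (G.neighborFinset v).card = D)
    (hn' : 16 * Fintype.card V + 36 * D < D * D) (k : ℕ)
    (hk : ∀ i < k, i * (D + 2) < Fintype.card V) :
    ∃ I : Finset V, I.card = k ∧ k * (D + 1) ≤
      (I.biUnion (fun u => insert u (G.neighborFinset u))).card + (k * (k - 1)) := by
  induction k with
  | zero => exact ⟨∅, by simp⟩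
  | succ k ih =>
    obtain ⟨I, hI, hle⟩ := ih (fun i hi => hk i (by omega))
    have hn := hk k (by omega)
    -- a new vertex
    obtain ⟨w, hw⟩ : ∃ w, w ∉ I.biUnion (fun u => G.neighborFinset u ∪
        Finset.univ.filter (fun v => G.neighborFinset v = G.neighborFinset u)) := by
      by_contra hcon
      push Not at hcon
      have h1 : Fintype.card V ≤ (I.biUnion (fun u => G.neighborFinset u ∪
          Finset.univ.filter (fun v => G.neighborFinset v = G.neighborFinset u))).card := by
        rw [← Finset.card_univ]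
        exact Finset.card_le_card (fun w _ => hcon w)
      have h2 : (I.biUnion (fun u => G.neighborFinset u ∪
          Finset.univ.filter (fun v => G.neighborFinset v = G.neighborFinset u))).card ≤
          I.card * (D + 2) := by
        apply Finset.card_biUnion_le_card_mul
        intro u _
        refine (Finset.card_union_le _ _).trans ?_
        rw [hreg]
        have : (Finset.univ.filter
            (fun v => G.neighborFinset v = G.neighborFinset u)).card ≤ 2 := by
          by_contra hlt
          push Not at hlt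
          have h3 : 1 < ((Finset.univ.filter
            (fun v => G.neighborFinset v = G.neighborFinset u)).erase u).card := by
            rw [Finset.card_erase_of_mem (by simp)]
            omega
          obtain ⟨v, hv, v', hv', hne⟩ := Finset.one_lt_card.1 h3
          simp only [Finset.mem_erase, Finset.mem_filter, Finset.mem_univ, true_and] at hv hv'
          exact hne (twins hX (by omega) hreg (Ne.symm hv.1) (Ne.symm hv'.1) hv.2 hv'.2).symm
        omega
      rw [hI] at h2
      omega
    simp only [Finset.mem_biUnion, Finset.mem_union, SimpleGraph.mem_neighborFinset,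
      Finset.mem_filter, Finset.mem_univ, true_and, not_exists, not_and, not_or] at hw
    have hwI : w ∉ I := fun hh => (hw w hh).2 rfl
    refine ⟨insert w I, by rw [Finset.card_insert_of_notMem hwI, hI], ?_⟩
    rw [Finset.biUnion_insert]
    have h1 := Finset.card_union_add_card_inter (insert w (G.neighborFinset w))
      (I.biUnion (fun u => insert u (G.neighborFinset u)))
    have h2 : (insert w (G.neighborFinset w)).card = D + 1 := by
      rw [Finset.card_insert_of_notMem (by simp), hreg]
    have h3 : (insert w (G.neighborFinset w) ∩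
        I.biUnion (fun u => insert u (G.neighborFinset u))).card ≤ k * 2 := by
      rw [Finset.inter_biUnion, ← hI]
      apply Finset.card_biUnion_le_card_mul
      intro u hu
      obtain ⟨h4, h5⟩ := hw u hu
      have huw : u ≠ w := fun hh => hwI (hh ▸ hu)
      obtain ⟨d, hd1, hd2⟩ := exists_diff hreg (fun hh => h5 hh.symm)
      have h6 := common_two' hX hD hreg hn' huw h4 hd1 hd2
      refine le_trans (Finset.card_le_card ?_) h6
      intro c hc
      simp only [Finset.mem_inter, Finset.mem_insert, SimpleGraph.mem_neighborFinset] at hc ⊢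
      obtain ⟨hc1, hc2⟩ := hc
      rcases hc1 with rfl | hc1
      · rcases hc2 with hc2 | hc2
        · exact absurd hc2.symm huw
        · exact absurd hc2 h4
      · rcases hc2 with rfl | hc2
        · exact absurd hc1.symm h4
        · exact ⟨hc2, hc1⟩
    have h7 : (k + 1) * (k + 1 - 1) = k * (k - 1) + k * 2 := by
      rcases Nat.eq_zero_or_pos k with h0 | h0
      · subst h0; rfl
      · obtain ⟨k', rfl⟩ : ∃ k', k = k' + 1 := ⟨k - 1, by omega⟩
        simp only [Nat.add_sub_cancel]
        ring
    have h8 : (k + 1) * (D + 1) = k * (D + 1) + (D + 1) := by ring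
    rw [h7, h8]
    omega

end

lemma psd_of_lamMin {n : ℕ} (G : SimpleGraph (Fin n)) [DecidableRel G.Adj]
    (hcon : -2 ≤ lamMin G) : (MM G).PosSemidef := by
  rw [(MM_herm G).posSemidef_iff_eigenvalues_nonneg]
  intro i
  have h3 : (MM_herm G).eigenvalues i ∈ spectrum ℝ (MM G) := by
    rw [(MM_herm G).spectrum_real_eq_range_eigenvalues]
    exact ⟨i, rfl⟩
  have h4 : (MM_herm G).eigenvalues i - 2 ∈ spectrum ℝ (G.adjMatrix ℝ) := by
    rw [spec_shift]
    simpa using h3
  have h5 := csInf_le (spec_bdd G) h4
  have h6 : -2 ≤ sInf (spectrum ℝ (G.adjMatrix ℝ)) := by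
    rwa [← lamMin_eq]
  show (0 : ℝ) ≤ (MM_herm G).eigenvalues i
  linarith

open Classical in
/-- sharp gaps for every degree `D ≥ 400` -/
theorem gap_all {D n j : ℕ} (hD : 400 ≤ D) (G : SimpleGraph (Fin n))
    (hreg : Reg G D) (h1 : j * (D + 2) < n) (h2 : n + j * (j + 1) < (j + 1) * (D + 1)) :
    lamMin G < -2 := by
  by_contra hcon
  push Not at hcon
  have hps := psd_of_lamMin G hcon
  obtain ⟨m, X, hX⟩ := gram G hps
  have hsmall : 16 * Fintype.card (Fin n) + 36 * D < D * D := by
    rw [Fintype.card_fin]
    have h3 : (j + 1) * (j + 1) ≤ D + 1 := by nlinarith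
    have h4 : 20 * (j + 1) ≤ D + 1 := by
      by_contra hlt
      push Not at hlt
      obtain ⟨E, hE⟩ : ∃ E, E = D + 1 := ⟨_, rfl⟩
      obtain ⟨J, hJ⟩ : ∃ J, J = j + 1 := ⟨_, rfl⟩
      rw [← hE, ← hJ] at hlt h3
      have h5 : 400 ≤ E := by omega
      have h6 : 21 ≤ J := by omega
      have h9 : 21 * J ≤ J * J := Nat.mul_le_mul_right J h6
      omega
    have h6 : n < (j + 1) * (D + 1) := by
      have : 0 ≤ j * (j + 1) := Nat.zero_le _
      omega
    have h7 : 20 * n ≤ (D + 1) * (D + 1) := by nlinarith
    nlinarith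
  obtain ⟨I, hI, hle⟩ := family3 hX (by omega) (card_of_reg G hreg) hsmall (j + 1)
    (fun i hi => by
      rw [Fintype.card_fin]
      exact lt_of_le_of_lt (Nat.mul_le_mul_right _ (by omega)) h1)
  have h7 : (I.biUnion (fun u => insert u (G.neighborFinset u))).card ≤ n := by
    have := Finset.card_le_univ (I.biUnion (fun u => insert u (G.neighborFinset u)))
    rwa [Fintype.card_fin] at this
  have h8 : (j + 1) * (j + 1 - 1) = j * (j + 1) := by
    simp only [Nat.add_sub_cancel]
    ring
  rw [h8] at hle
  omega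

end Pool.Agent.H37.RE10
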