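import Pool.Agent.H37.RE10

/-!
Line graphs of semiregular bipartite graphs, and a counting lemma.
-/

namespace Pool.Agent.H37.RE11

open Pool.Agent.H37.RE0

open Finset Pool.Agent.H37.RE4

lemma sizes_sub (D : ℕ) : sizes D ⊆ sizes2 D := by
  rintro m (⟨a, b, h1, h2, h3, rfl⟩ | h)
  · exact Or.inl ⟨a, b, h1, h2, h3, Dvd.intro _ rfl, Dvd.intro_left _ rfl, le_rfl⟩
  · exact Or.inr h

/-- two partitions with blocks of sizes `a` and `b` -/
lemma rep_two {V P Q : Type} [Fintype V] [DecidableEq V] [Fintype P] [DecidableEq P] [Fintype Q]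
    [DecidableEq Q] (l : V → P) (r : V → Q) (a b D : ℕ)
    (hl : ∀ v, (Finset.univ.filter (fun w => l w = l v)).card = a)
    (hr : ∀ v, (Finset.univ.filter (fun w => r w = r v)).card = b)
    (hinj : ∀ v w, l v = l w → r v = r w → v = w) (hab : a + b = D + 2) :
    Rep D (Fintype.card V) := by
  refine ⟨V, inferInstance,
    { Adj := fun p q => p ≠ q ∧ (r q = r p ∨ l q = l p)
      symm := ⟨fun p q h => ⟨h.1.symm, h.2.imp Eq.symm Eq.symm⟩⟩
      loopless := ⟨fun p h => h.1 rfl⟩ },
    fun p q => (if r q = r p then 1 else 0) + (if l q = l p then 1 else 0) -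
      (if q = p then 2 else 0), rfl, ?_, ?_, ?_, ?_⟩
  · rintro v w ⟨h1, h2⟩
    have hne : w ≠ v := Ne.symm h1
    rcases h2 with h2 | h2
    · have h3 : l w ≠ l v := fun h => hne (hinj _ _ h h2)
      simp [h2, h3, hne]
    · have h3 : r w ≠ r v := fun h => hne (hinj _ _ h2 h)
      simp [h2, h3, hne]
  · intro v w h
    by_cases hvw : w = v
    · subst hvw; norm_num
    · have h1 : ¬ (r w = r v) := fun hh => h ⟨Ne.symm hvw, Or.inl hh⟩
      have h2 : ¬ (l w = l v) := fun hh => h ⟨Ne.symm hvw, Or.inr hh⟩
      simp [h1, h2, hvw]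
  · intro v
    rw [Finset.sum_sub_distrib, Finset.sum_add_distrib, Finset.sum_boole, Finset.sum_boole,
      hl v, hr v]
    have e3 : ∑ q : V, (if q = v then (2 : ℝ) else 0) = 2 := by simp
    rw [e3]
    have : (a : ℝ) + b = D + 2 := by exact_mod_cast hab
    linarith
  · intro x
    have key : ∀ p : V, 2 * x p + ∑ q : V,
        ((if r q = r p then (1 : ℝ) else 0) + (if l q = l p then 1 else 0) -
        (if q = p then 2 else 0)) * x q =
        ∑ q, (if r q = r p then x q else 0) + ∑ q, (if l q = l p then x q else 0) := by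
      intro p
      have e : ∀ q : V, ((if r q = r p then (1 : ℝ) else 0) +
          (if l q = l p then 1 else 0) - (if q = p then 2 else 0)) * x q =
          (if r q = r p then x q else 0) + (if l q = l p then x q else 0) -
          (if q = p then 2 * x q else 0) := by
        intro q
        split_ifs <;> ring
      simp only [e]
      rw [Finset.sum_sub_distrib, Finset.sum_add_distrib]
      have e3 : ∑ q : V, (if q = p then 2 * x q else 0) = 2 * x p := by simp
      rw [e3]
      ring
    have gen : ∀ {T : Type} [Fintype T] [DecidableEq T] (f : V → T),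
        ∑ p, x p * ∑ q, (if f q = f p then x q else 0) =
        ∑ c : T, (∑ q, (if f q = c then x q else 0)) ^ 2 := by
      intro T _ _ f
      have h1 : ∀ c : T, (∑ q, (if f q = c then x q else 0)) ^ 2 =
          ∑ p, (if f p = c then x p * ∑ q, (if f q = f p then x q else 0) else 0) := by
        intro c
        rw [sq, Finset.sum_mul]
        apply Finset.sum_congr rfl
        intro p _
        by_cases hp : f p = c
        · subst hp; simp
        · simp [hp]
      simp only [h1]
      rw [Finset.sum_comm]
      apply Finset.sum_congr rfl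
      intro p _
      simp
    have : ∑ p : V, x p * (2 * x p + ∑ q : V,
        ((if r q = r p then (1 : ℝ) else 0) + (if l q = l p then 1 else 0) -
        (if q = p then 2 else 0)) * x q) =
        ∑ c : Q, (∑ q, (if r q = c then x q else 0)) ^ 2 +
        ∑ c : P, (∑ q, (if l q = c then x q else 0)) ^ 2 := by
      simp only [key, mul_add, Finset.sum_add_distrib]
      rw [gen r, gen l]
    rw [this]
    positivity

lemma rep_semi {D m a b : ℕ} (ha : 1 ≤ a) (hb : 1 ≤ b) (hab : a + b = D + 2) (h1 : a ∣ m)
    (h2 : b ∣ m) (h3 : a * b ≤ m) : Rep D m := by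
  obtain ⟨p, hp⟩ := h1
  obtain ⟨q, hq⟩ := h2
  have haq : a ≤ q := by
    have : b * a ≤ b * q := by rw [← hq, mul_comm]; exact h3
    exact Nat.le_of_mul_le_mul_left this hb
  have hpm : m = p * a := by rw [hp, mul_comm]
  have hqm : m = b * q := hq
  have hcard : Fintype.card (Fin m) = m := Fintype.card_fin m
  rw [← hcard]
  refine rep_two (V := Fin m) (P := Fin p) (Q := Fin q)
    (fun i => (finProdFinEquiv.symm (Fin.cast hpm i)).1)
    (fun i => (finProdFinEquiv.symm (Fin.cast hqm i)).2) a b D ?_ ?_ ?_ hab
  · intro v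
    have : (Finset.univ.filter (fun w : Fin m => (finProdFinEquiv.symm (Fin.cast hpm w)).1 =
        (finProdFinEquiv.symm (Fin.cast hpm v)).1)).card =
        (Finset.univ.filter (fun z : Fin p × Fin a => z.1 =
        (finProdFinEquiv.symm (Fin.cast hpm v)).1)).card := by
      apply Finset.card_bij (fun w _ => finProdFinEquiv.symm (Fin.cast hpm w))
      · intro w hw
        simpa using hw
      · intro w _ w' _ h
        have := finProdFinEquiv.symm.injective h
        exact Fin.cast_injective hpm this
      · intro z hz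
        have hc : Fin.cast hpm (Fin.cast hpm.symm (finProdFinEquiv z)) = finProdFinEquiv z :=
          Fin.ext rfl
        refine ⟨Fin.cast hpm.symm (finProdFinEquiv z), ?_, ?_⟩
        · rw [Finset.mem_filter] at hz ⊢
          refine ⟨Finset.mem_univ _, ?_⟩
          rw [hc, Equiv.symm_apply_apply]
          exact hz.2
        · rw [hc, Equiv.symm_apply_apply]
    rw [this]
    have h4 : (Finset.univ.filter (fun z : Fin p × Fin a => z.1 =
        (finProdFinEquiv.symm (Fin.cast hpm v)).1)) =
        ({(finProdFinEquiv.symm (Fin.cast hpm v)).1} : Finset (Fin p)) ×ˢ Finset.univ := by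
      ext z
      rw [Finset.mem_filter, Finset.mem_product, Finset.mem_singleton]
      simp only [Finset.mem_univ, true_and, and_true]
    rw [h4, Finset.card_product]
    simp
  · intro v
    have : (Finset.univ.filter (fun w : Fin m => (finProdFinEquiv.symm (Fin.cast hqm w)).2 =
        (finProdFinEquiv.symm (Fin.cast hqm v)).2)).card =
        (Finset.univ.filter (fun z : Fin b × Fin q => z.2 =
        (finProdFinEquiv.symm (Fin.cast hqm v)).2)).card := by
      apply Finset.card_bij (fun w _ => finProdFinEquiv.symm (Fin.cast hqm w))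
      · intro w hw
        simpa using hw
      · intro w _ w' _ h
        have := finProdFinEquiv.symm.injective h
        exact Fin.cast_injective hqm this
      · intro z hz
        have hc : Fin.cast hqm (Fin.cast hqm.symm (finProdFinEquiv z)) = finProdFinEquiv z :=
          Fin.ext rfl
        refine ⟨Fin.cast hqm.symm (finProdFinEquiv z), ?_, ?_⟩
        · rw [Finset.mem_filter] at hz ⊢
          refine ⟨Finset.mem_univ _, ?_⟩
          rw [hc, Equiv.symm_apply_apply]
          exact hz.2
        · rw [hc, Equiv.symm_apply_apply]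
    rw [this]
    have h4 : (Finset.univ.filter (fun z : Fin b × Fin q => z.2 =
        (finProdFinEquiv.symm (Fin.cast hqm v)).2)) =
        Finset.univ ×ˢ ({(finProdFinEquiv.symm (Fin.cast hqm v)).2} : Finset (Fin q)) := by
      ext z
      rw [Finset.mem_filter, Finset.mem_product, Finset.mem_singleton]
      simp only [Finset.mem_univ, true_and]
    rw [h4, Finset.card_product]
    simp
  · intro v w hl hr
    have e1 : (v : ℕ) / a = (w : ℕ) / a := by
      have := congrArg Fin.val hl
      simpa [finProdFinEquiv] using this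
    have e2 : (v : ℕ) % q = (w : ℕ) % q := by
      have := congrArg Fin.val hr
      simpa [finProdFinEquiv] using this
    apply Fin.ext
    have f1 := Nat.div_add_mod (v : ℕ) a
    have f2 := Nat.div_add_mod (w : ℕ) a
    have f3 := Nat.mod_lt (v : ℕ) (show 0 < a by omega)
    have f4 := Nat.mod_lt (w : ℕ) (show 0 < a by omega)
    rw [e1] at f1
    have f5 := Nat.div_add_mod (v : ℕ) q
    have f6 := Nat.div_add_mod (w : ℕ) q
    rw [e2] at f5
    rcases lt_trichotomy ((v : ℕ) / q) ((w : ℕ) / q) with h | h | h
    · exfalso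
      have : q * ((v : ℕ) / q) + q ≤ q * ((w : ℕ) / q) := by
        have := Nat.mul_le_mul_left q (Nat.succ_le_of_lt h)
        simpa [Nat.mul_succ] using this
      omega
    · rw [h] at f5
      omega
    · exfalso
      have : q * ((w : ℕ) / q) + q ≤ q * ((v : ℕ) / q) := by
        have := Nat.mul_le_mul_left q (Nat.succ_le_of_lt h)
        simpa [Nat.mul_succ] using this
      omega

theorem rep_of_closure2 {D n : ℕ} (h : n ∈ AddSubmonoid.closure (sizes2 D)) : Rep D n := by
  induction h using AddSubmonoid.closure_induction with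
  | mem m hm =>
    rcases hm with ⟨a, b, h1, h2, hab, h3, h4, h5⟩ | ⟨⟨k, hk⟩, hm⟩
    · exact rep_semi h1 h2 hab h3 h4 h5
    · have : D = 2 * k := by omega
      rw [hm, this]
      exact rep_cp k
  | zero => exact rep_zero D
  | add m n _ _ hm hn => exact rep_add hm hn

/-- block counting -/
lemma dvd_block {V : Type} [Fintype V] [DecidableEq V] (S : V → Finset V) (U : Finset V) (s : ℕ)
    (hself : ∀ v, v ∈ S v) (hS : ∀ v w, w ∈ S v → S w = S v) (hU : ∀ v ∈ U, S v ⊆ U)
    (hs : ∀ v ∈ U, (S v).card = s) : s ∣ U.card := by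
  rw [Finset.card_eq_sum_card_image S U]
  apply Finset.dvd_sum
  intro t ht
  obtain ⟨v, hv, rfl⟩ := Finset.mem_image.1 ht
  have : U.filter (fun a => S a = S v) = S v := by
    ext w
    rw [Finset.mem_filter]
    constructor
    · rintro ⟨_, h⟩
      rw [← h]; exact hself w
    · intro h
      exact ⟨hU v hv h, hS v w h⟩
  rw [this, hs v hv]

/-- counting with two block systems -/
theorem count_SB {V : Type} [Fintype V] [DecidableEq V] (S B : V → Finset V) (D : ℕ)
    (hS1 : ∀ v, v ∈ S v) (hB1 : ∀ v, v ∈ B v) (hS : ∀ v w, w ∈ S v → S w = S v)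
    (hB : ∀ v w, w ∈ B v → B w = B v) (hsz : ∀ v, (S v).card + (B v).card = D + 2)
    (hint : ∀ v w, w ∈ S v → w ∈ B v → w = v) :
    Fintype.card V ∈ AddSubmonoid.closure (sizes2 D) := by
  set Vs : ℕ → Finset V := fun s => Finset.univ.filter (fun v => (S v).card = s) with hVs
  have memV : ∀ s v, v ∈ Vs s ↔ (S v).card = s := by intro s v; simp [hVs]
  have hcard : Fintype.card V = ∑ s ∈ Finset.range (D + 3), (Vs s).card := by
    rw [← Finset.card_univ]
    apply Finset.card_eq_sum_card_fiberwise
    intro v _
    have := hsz v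
    simp only [Finset.coe_range, Set.mem_Iio]
    omega
  rw [hcard]
  apply AddSubmonoid.sum_mem
  intro s _
  by_cases hne : (Vs s).Nonempty
  · obtain ⟨v, hv⟩ := hne
    have hvs := (memV s v).1 hv
    apply AddSubmonoid.subset_closure
    left
    have hs1 : 1 ≤ (S v).card := Finset.card_pos.2 ⟨v, hS1 v⟩
    have hb1 : 1 ≤ (B v).card := Finset.card_pos.2 ⟨v, hB1 v⟩
    have hVB : ∀ v ∈ Vs s, B v ⊆ Vs s := by
      intro v hv w hw
      rw [memV] at hv ⊢
      have h1 := hsz v
      have h2 := hsz w
      rw [hB v w hw] at h2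
      omega
    have hVS : ∀ v ∈ Vs s, S v ⊆ Vs s := by
      intro v hv w hw
      rw [memV] at hv ⊢
      rw [hS v w hw, hv]
    refine ⟨s, (B v).card, by omega, hb1, by rw [← hvs]; exact hsz v, ?_, ?_, ?_⟩
    · exact dvd_block S (Vs s) s hS1 hS hVS (fun w hw => (memV s w).1 hw)
    · refine dvd_block B (Vs s) _ hB1 hB hVB ?_
      intro w hw
      have h1 := hsz v
      have h2 := hsz w
      have h3 := (memV s w).1 hw
      omega
    · have h1 : ((S v).biUnion B).card = ∑ w ∈ S v, (B w).card := by
        apply Finset.card_biUnion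
        intro w hw w' hw' hne
        show Disjoint (B w) (B w')
        rw [Finset.disjoint_left]
        intro z hz hz'
        apply hne
        have e1 := hB w z hz
        have e2 := hB w' z hz'
        have e3 : w' ∈ B w := by
          rw [← e1, e2]; exact hB1 w'
        have e4 : w' ∈ S w := by rw [hS v w hw]; exact hw'
        exact (hint w w' e4 e3).symm
      have h2 : ∑ w ∈ S v, (B w).card = (S v).card * (B v).card := by
        rw [Finset.sum_const_nat (m := (B v).card)]
        intro w hw
        have h3 := hsz v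
        have h4 := hsz w
        rw [hS v w hw] at h4
        omega
      have h3 : (S v).biUnion B ⊆ Vs s := by
        intro z hz
        obtain ⟨w, hw, hz⟩ := Finset.mem_biUnion.1 hz
        exact hVB w (hVS v hv hw) hz
      have h4 := Finset.card_le_card h3
      rw [h1, h2, hvs] at h4
      exact h4
  · rw [Finset.not_nonempty_iff_eq_empty.1 hne]
    simp

end Pool.Agent.H37.RE11
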