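import Pool.Agent.H37.RE11

/-!
Structure of `D`-regular graphs with least eigenvalue at least `-2` of small order.
-/

namespace Pool.Agent.H37.RE12

open Pool.Agent.H37.RE0

open Matrix Finset Pool.Agent.H37.RE2 Pool.Agent.H37.RE3 Pool.Agent.H37.RE4 Pool.Agent.H37.RE6
  Pool.Agent.H37.RE7 Pool.Agent.H37.RE8 Pool.Agent.H37.RE9 Pool.Agent.H37.RE10
  Pool.Agent.H37.RE11

section
variable {V : Type} [Fintype V] [DecidableEq V] {G : SimpleGraph V} [DecidableRel G.Adj]
variable {κ : Type} [Fintype κ] {X : V → (κ → ℝ)} (hX : ∀ v w, X v ⬝ᵥ X w = MM G v w)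
include hX

lemma nodia {D : ℕ} (hD : 45 ≤ D) (hreg : ∀ v, (G.neighborFinset v).card = D)
    (hn : 16 * Fintype.card V + 36 * D < D * D) {u v w : V} (huv : u ≠ v)
    (nuv : ¬ G.Adj u v) (huw : G.Adj u w) (nvw : ¬ G.Adj v w) :
    ∀ x y, G.Adj u x → G.Adj u y → G.Adj v x → G.Adj v y → ¬ G.Adj x y := by
  intro x y h1 h2 h3 h4 h5
  have hbig := big_diff hX hD hreg huv nuv huw nvw
  have hfin : ∀ a, G.Adj a x → G.Adj a y →
      (∀ g, (¬ (G.Adj x g ↔ G.Adj y g)) ↔ G.Adj a g) → False := by
    intro a ha1 ha2 ha3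
    have h6 := tri_big hX hD hreg ha1 ha2 h5 ha3 (D / 4) (by omega)
    obtain ⟨q, r, hq, hr⟩ : ∃ q r, D = 4 * q + r ∧ r < 4 := ⟨D / 4, D % 4, by omega, by omega⟩
    have hq4 : D / 4 = q := by omega
    rw [hq4] at h6
    obtain ⟨q', rfl⟩ : ∃ q', q = q' + 1 := ⟨q - 1, by omega⟩
    simp only [Nat.add_sub_cancel] at h6
    subst hq
    nlinarith
  rcases diamond_class hX huv nuv h1 h2 h3 h4 h5 hbig with h | h
  · exact hfin u h1 h2 h
  · exact hfin v h3 h4 h

/-- a claw with many common neighbours of `x` and `a` is impossible -/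
lemma claw_core (hDF : DF G) {D : ℕ} (hD : 45 ≤ D) (hreg : ∀ v, (G.neighborFinset v).card = D)
    {x a b c : V} (hxa : G.Adj x a) (hxb : G.Adj x b) (hxc : G.Adj x c) (hab : a ≠ b)
    (hac : a ≠ c) (hbc : b ≠ c) (nab : ¬ G.Adj a b) (nac : ¬ G.Adj a c) (nbc : ¬ G.Adj b c)
    (hT9 : 9 ≤ ((G.neighborFinset x).filter (fun w => G.Adj a w)).card) : False := by
  classical
  set T := (G.neighborFinset x).filter (fun w => G.Adj a w) with hT
  have memT : ∀ w, w ∈ T ↔ G.Adj x w ∧ G.Adj a w := by intro w; simp [hT]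
  set E : Fin 4 → (κ → ℝ) := ![(1 / 2 : ℝ) • (X a + X b), X x - (1 / 2 : ℝ) • (X a + X b),
    (1 / 2 : ℝ) • (X a - X b), X c - X x + (1 / 2 : ℝ) • (X a + X b)] with hEdef
  have c0 : ∀ z : κ → ℝ, z ⬝ᵥ E 0 = (z ⬝ᵥ X a + z ⬝ᵥ X b) / 2 := by
    intro z
    simp only [hEdef, Matrix.cons_val, dotProduct_smul, dotProduct_sub, dotProduct_add,
      smul_eq_mul]
    ring
  have c1 : ∀ z : κ → ℝ, z ⬝ᵥ E 1 = z ⬝ᵥ X x - (z ⬝ᵥ X a + z ⬝ᵥ X b) / 2 := by
    intro z
    simp only [hEdef, Matrix.cons_val, dotProduct_smul,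
      dotProduct_sub, dotProduct_add, smul_eq_mul]
    ring
  have c2 : ∀ z : κ → ℝ, z ⬝ᵥ E 2 = (z ⬝ᵥ X a - z ⬝ᵥ X b) / 2 := by
    intro z
    simp only [hEdef, Matrix.cons_val, dotProduct_smul,
      dotProduct_sub, dotProduct_add, smul_eq_mul]
    ring
  have c3 : ∀ z : κ → ℝ, z ⬝ᵥ E 3 = z ⬝ᵥ X c - z ⬝ᵥ X x + (z ⬝ᵥ X a + z ⬝ᵥ X b) / 2 := by
    intro z
    simp only [hEdef, Matrix.cons_val, dotProduct_smul,
      dotProduct_sub, dotProduct_add, smul_eq_mul]
    ring
  have sxx := x_self hX x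
  have saa := x_self hX a
  have sbb := x_self hX b
  have scc := x_self hX c
  have sxa := x_adj hX hxa
  have sxb := x_adj hX hxb
  have sxc := x_adj hX hxc
  have sax := x_adj hX hxa.symm
  have sbx := x_adj hX hxb.symm
  have scx := x_adj hX hxc.symm
  have sab := x_nadj hX nab hab
  have sba := x_nadj hX (fun h => nab h.symm) hab.symm
  have sac := x_nadj hX nac hac
  have sca := x_nadj hX (fun h => nac h.symm) hac.symm
  have sbc := x_nadj hX nbc hbc
  have scb := x_nadj hX (fun h => nbc h.symm) hbc.symm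
  have hE : ∀ i j, E i ⬝ᵥ E j = if i = j then 1 else 0 := by
    intro i j
    fin_cases i <;> fin_cases j <;>
      simp only [Fin.zero_eta, Fin.mk_one, Fin.reduceFinMk, c0, c1, c2, c3] <;>
      simp only [dotProduct_comm (E _) (X _), c0, c1, c2, c3, sxx, saa, sbb, scc, sxa, sxb, sxc,
        sax, sbx, scx, sab, sba, sac, sca, sbc, scb] <;> norm_num <;> decide
  have bit : ∀ z g, g ≠ z → X g ⬝ᵥ X z = if G.Adj z g then 1 else 0 := by
    intro z g hne
    by_cases h : G.Adj z g
    · rw [x_adj hX h.symm]; simp [h]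
    · rw [x_nadj hX (fun hh => h hh.symm) hne]; simp [h]
  -- the elements of T
  have ht : ∀ w ∈ T, ∀ i, X w ⬝ᵥ E i = (![1 / 2, 1 / 2, 1 / 2, -(1 / 2)] : Fin 4 → ℝ) i := by
    intro w hw i
    obtain ⟨h1, h2⟩ := (memT w).1 hw
    have h3 : ¬ G.Adj b w := fun h => nab (hDF x w a b h1 hxa hxb h2.symm h.symm hab)
    have h4 : ¬ G.Adj c w := fun h => nac (hDF x w a c h1 hxa hxc h2.symm h.symm hac)
    have n2 : w ≠ b := by rintro rfl; exact nab h2
    have n3 : w ≠ c := by rintro rfl; exact nac h2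
    have m1 : X w ⬝ᵥ X x = 1 := x_adj hX h1.symm
    have m2 : X w ⬝ᵥ X a = 1 := x_adj hX h2.symm
    have m3 : X w ⬝ᵥ X b = 0 := x_nadj hX (fun h => h3 h.symm) n2
    have m4 : X w ⬝ᵥ X c = 0 := x_nadj hX (fun h => h4 h.symm) n3
    fin_cases i
    · show X w ⬝ᵥ E 0 = 1 / 2
      rw [c0, m2, m3]; norm_num
    · show X w ⬝ᵥ E 1 = 1 / 2
      rw [c1, m1, m2, m3]; norm_num
    · show X w ⬝ᵥ E 2 = 1 / 2
      rw [c2, m2, m3]; norm_num
    · show X w ⬝ᵥ E 3 = -(1 / 2)
      rw [c3, m1, m2, m3, m4]; norm_num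
  -- a further neighbour of b
  obtain ⟨g, hg, hgx⟩ : ∃ g ∈ G.neighborFinset b, g ≠ x := by
    apply Finset.exists_mem_ne
    rw [hreg]; omega
  have hbg : G.Adj b g := by simpa using hg
  have ngb : g ≠ b := hbg.ne.symm
  have nga : g ≠ a := by rintro rfl; exact nab hbg.symm
  have ngc : g ≠ c := by rintro rfl; exact nbc hbg
  have hgT : g ∉ T := by
    intro h
    obtain ⟨h1, h2⟩ := (memT g).1 h
    exact nab (hDF x g a b h1 hxa hxb h2.symm hbg.symm hab)
  have hnorm : 0 ≤ 2 - ∑ i, (X g ⬝ᵥ E i) * (X g ⬝ᵥ E i) := by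
    have h1 := proj E hE (X g) (X g)
    rw [x_self hX] at h1
    rw [← h1, dotProduct]
    exact Finset.sum_nonneg (fun i _ => mul_self_nonneg _)
  have hm : 1 ≤ ∑ i, (X g ⬝ᵥ E i) * (X g ⬝ᵥ E i) →
      ¬ ∃ k : ℤ, ∑ i, (X g ⬝ᵥ E i) * (![1 / 2, 1 / 2, 1 / 2, -(1 / 2)] : Fin 4 → ℝ) i =
        k + 1 / 2 := by
    intro h1 h2
    have := two_class hX E hE T _ ht (by simp [Fin.sum_univ_four]; norm_num) g hgT h1 h2
    omega
  simp only [Fin.sum_univ_four, c0, c1, c2, c3, bit x g hgx, bit a g nga, bit b g ngb,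
    bit c g ngc, Matrix.cons_val, hbg, if_true] at hm hnorm
  by_cases a1 : G.Adj x g
  · have a2 : ¬ G.Adj a g := fun h => nab (hDF x g a b a1 hxa hxb h.symm hbg.symm hab)
    have a3 : ¬ G.Adj c g := fun h => nbc (hDF x g b c a1 hxb hxc hbg.symm h.symm hbc)
    simp only [a1, a2, a3, if_true, if_false] at hm
    refine hm (by norm_num) ⟨0, ?_⟩
    norm_num
  · by_cases a2 : G.Adj a g <;> by_cases a3 : G.Adj c g <;>
      simp only [a1, a2, a3, if_true, if_false] at hm hnorm
    · norm_num at hnorm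
    · refine hm (by norm_num) ⟨-1, ?_⟩
      norm_num
    · norm_num at hnorm
    · refine hm (by norm_num) ⟨-1, ?_⟩
      norm_num

/-- claw-freeness -/
lemma claw_free (hDF : DF G) {D : ℕ} (hD : 45 ≤ D) (hreg : ∀ v, (G.neighborFinset v).card = D) :
    CF G := by
  intro x a b c hxa hxb hxc hab hac hbc
  by_contra hcon
  push Not at hcon
  obtain ⟨nab, nac, nbc⟩ := hcon
  have h1 : ((G.neighborFinset x).filter (fun w => G.Adj a w)).card ≤ 8 := by
    by_contra h
    exact claw_core hX hDF hD hreg hxa hxb hxc hab hac hbc nab nac nbc (by omega)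
  have h2 : ((G.neighborFinset x).filter (fun w => G.Adj b w)).card ≤ 8 := by
    by_contra h
    exact claw_core hX hDF hD hreg hxb hxa hxc hab.symm hbc hac (fun h => nab h.symm) nbc nac
      (by omega)
  have h3 : ((G.neighborFinset x).filter (fun w => G.Adj c w)).card ≤ 8 := by
    by_contra h
    exact claw_core hX hDF hD hreg hxc hxb hxa hbc.symm hac.symm hab.symm
      (fun h => nbc h.symm) (fun h => nac h.symm) (fun h => nab h.symm) (by omega)
  have h4 : ((G.neighborFinset x).filter (fun w => (w ≠ a ∧ w ≠ b ∧ w ≠ c) ∧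
      ¬ G.Adj a w ∧ ¬ G.Adj b w ∧ ¬ G.Adj c w)).card ≤ 1 := by
    rw [Finset.card_le_one]
    have hval : ∀ w ∈ (G.neighborFinset x).filter (fun w => (w ≠ a ∧ w ≠ b ∧ w ≠ c) ∧
      ¬ G.Adj a w ∧ ¬ G.Adj b w ∧ ¬ G.Adj c w), X w = X x + X x - X a - X b - X c := by
      intro w hw
      rw [Finset.mem_filter, SimpleGraph.mem_neighborFinset] at hw
      obtain ⟨hxw, ⟨n1, n2, n3⟩, na, nb, nc⟩ := hw
      have hzero : (X w + X a + X b + X c - X x - X x) ⬝ᵥ
          (X w + X a + X b + X c - X x - X x) = 0 := by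
        simp only [sub_dotProduct, dotProduct_sub, add_dotProduct, dotProduct_add]
        rw [x_self hX w, x_self hX a, x_self hX b, x_self hX c, x_self hX x,
          x_nadj hX na n1.symm, x_nadj hX (fun h => na h.symm) n1,
          x_nadj hX nb n2.symm, x_nadj hX (fun h => nb h.symm) n2,
          x_nadj hX nc n3.symm, x_nadj hX (fun h => nc h.symm) n3,
          x_nadj hX nab hab, x_nadj hX (fun h => nab h.symm) hab.symm,
          x_nadj hX nac hac, x_nadj hX (fun h => nac h.symm) hac.symm,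
          x_nadj hX nbc hbc, x_nadj hX (fun h => nbc h.symm) hbc.symm,
          x_adj hX hxw, x_adj hX hxw.symm, x_adj hX hxa, x_adj hX hxa.symm, x_adj hX hxb,
          x_adj hX hxb.symm, x_adj hX hxc, x_adj hX hxc.symm]
        norm_num
      have h1 := dotProduct_self_eq_zero.1 hzero
      have h2 : X w = X w - (X w + X a + X b + X c - X x - X x) := by rw [h1, sub_zero]
      rw [h2]
      abel
    intro p hp q hq
    exact x_inj hX ((hval p hp).trans (hval q hq).symm)
  have hcov : G.neighborFinset x ⊆ ({a, b, c} : Finset V) ∪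
      (((G.neighborFinset x).filter (fun w => G.Adj a w)) ∪
      ((G.neighborFinset x).filter (fun w => G.Adj b w))) ∪
      (((G.neighborFinset x).filter (fun w => G.Adj c w)) ∪
      ((G.neighborFinset x).filter (fun w => (w ≠ a ∧ w ≠ b ∧ w ≠ c) ∧
      ¬ G.Adj a w ∧ ¬ G.Adj b w ∧ ¬ G.Adj c w))) := by
    intro w hw
    simp only [Finset.mem_union, Finset.mem_insert, Finset.mem_singleton, Finset.mem_filter,
      hw, true_and]
    tauto
  have k1 := Finset.card_le_card hcov
  have k2 := Finset.card_union_le (({a, b, c} : Finset V) ∪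
      (((G.neighborFinset x).filter (fun w => G.Adj a w)) ∪
      ((G.neighborFinset x).filter (fun w => G.Adj b w))))
      (((G.neighborFinset x).filter (fun w => G.Adj c w)) ∪
      ((G.neighborFinset x).filter (fun w => (w ≠ a ∧ w ≠ b ∧ w ≠ c) ∧
      ¬ G.Adj a w ∧ ¬ G.Adj b w ∧ ¬ G.Adj c w)))
  have k3 := Finset.card_union_le ({a, b, c} : Finset V)
      (((G.neighborFinset x).filter (fun w => G.Adj a w)) ∪
      ((G.neighborFinset x).filter (fun w => G.Adj b w)))
  have k4 := Finset.card_union_le ((G.neighborFinset x).filter (fun w => G.Adj a w))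
      ((G.neighborFinset x).filter (fun w => G.Adj b w))
  have k5 := Finset.card_union_le ((G.neighborFinset x).filter (fun w => G.Adj c w))
      ((G.neighborFinset x).filter (fun w => (w ≠ a ∧ w ≠ b ∧ w ≠ c) ∧
      ¬ G.Adj a w ∧ ¬ G.Adj b w ∧ ¬ G.Adj c w))
  have k6 : ({a, b, c} : Finset V).card ≤ 3 := Finset.card_le_three
  rw [hreg] at k1
  omega

omit hX in
/-- lines are small or large -/
lemma line_bound (hDF : DF G) {D : ℕ} (hreg : ∀ v, (G.neighborFinset v).card = D) {p q : V}
    (hpq : G.Adj p q) : (L G p q).card * (D + 1 - (L G p q).card) ≤ Fintype.card V := by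
  set l := L G p q with hl
  have h1 : (l.biUnion (fun w => G.neighborFinset w \ l)).card =
      ∑ w ∈ l, (G.neighborFinset w \ l).card := by
    apply Finset.card_biUnion
    intro w hw w' hw' hne
    show Disjoint (G.neighborFinset w \ l) (G.neighborFinset w' \ l)
    rw [Finset.disjoint_left]
    intro g hg hg'
    rw [Finset.mem_sdiff, SimpleGraph.mem_neighborFinset] at hg hg'
    apply hg.2
    rw [hl, ← L_eq G hDF hpq hw hw' hne, mem_L]
    exact Or.inr (Or.inr ⟨hg.1, hg'.1⟩)
  have h2 : ∀ w ∈ l, D + 1 - l.card ≤ (G.neighborFinset w \ l).card := by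
    intro w hw
    have h3 := Finset.card_sdiff_add_card_inter (G.neighborFinset w) l
    have h4 : (G.neighborFinset w ∩ l).card ≤ l.card - 1 := by
      rw [← Finset.card_erase_of_mem hw]
      apply Finset.card_le_card
      intro g hg
      rw [Finset.mem_inter, SimpleGraph.mem_neighborFinset] at hg
      rw [Finset.mem_erase]
      exact ⟨hg.1.ne.symm, hg.2⟩
    have h5 : 0 < l.card := Finset.card_pos.2 ⟨w, hw⟩
    rw [hreg] at h3
    omega
  calc l.card * (D + 1 - l.card) = ∑ w ∈ l, (D + 1 - l.card) := by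
        rw [Finset.sum_const, smul_eq_mul]
    _ ≤ ∑ w ∈ l, (G.neighborFinset w \ l).card := Finset.sum_le_sum h2
    _ = (l.biUnion (fun w => G.neighborFinset w \ l)).card := h1.symm
    _ ≤ Fintype.card V := Finset.card_le_univ _

omit hX in
open Classical in
/-- counting in diamond-free claw-free graphs -/
theorem closure_lines (hDF : DF G) (hCF : CF G) {D : ℕ} (hD : 45 ≤ D)
    (hreg : ∀ v, (G.neighborFinset v).card = D)
    (hn : 16 * Fintype.card V + 36 * D < D * D) :
    Fintype.card V ∈ AddSubmonoid.closure (sizes2 D) := by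
  -- two lines of different sizes
  have two : ∀ v, ¬ Cl G v → ∃ l1 l2 : Finset V, (∃ w, G.Adj v w ∧ l1 = L G v w) ∧
      (∃ w, G.Adj v w ∧ l2 = L G v w) ∧ l1.card + l2.card = D + 2 ∧ 2 * l1.card < D + 2 ∧
      ∀ w, G.Adj v w → L G v w = l1 ∨ L G v w = l2 := by
    intro v hv
    unfold Cl at hv
    push Not at hv
    obtain ⟨a, b, hva, hvb, hab, nab⟩ := hv
    have hs := sum_lines G hDF hCF hva hvb hab nab (fun _ => (1 : ℕ))
    simp only [Finset.sum_const, smul_eq_mul, mul_one, hreg] at hs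
    have hall : ∀ w, G.Adj v w → L G v w = L G v a ∨ L G v w = L G v b :=
      fun w hw => mem_two G hDF hCF hva hvb hab nab hw (left_mem G v w)
    have hne : 2 * (L G v a).card ≠ D + 2 := by
      intro h
      have h1 := line_bound hDF hreg hva
      obtain ⟨s, hs'⟩ : ∃ s, (L G v a).card = s := ⟨_, rfl⟩
      rw [hs'] at h h1
      have h2 : D + 1 - s = s - 1 := by omega
      rw [h2] at h1
      obtain ⟨s', rfl⟩ : ∃ s', s = s' + 1 := ⟨s - 1, by omega⟩
      simp only [Nat.add_sub_cancel] at h1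
      have h3 : D = 2 * s' := by omega
      subst h3
      nlinarith
    rcases lt_or_gt_of_ne hne with h | h
    · exact ⟨L G v a, L G v b, ⟨a, hva, rfl⟩, ⟨b, hvb, rfl⟩, by omega, h, hall⟩
    · exact ⟨L G v b, L G v a, ⟨b, hvb, rfl⟩, ⟨a, hva, rfl⟩, by omega, by omega,
        fun w hw => (hall w hw).symm⟩
  choose! l1 l2 h1 h2 hsum hlt hall using two
  -- uniqueness
  have uniq1 : ∀ v, ¬ Cl G v → ∀ w, G.Adj v w → 2 * (L G v w).card < D + 2 →
      L G v w = l1 v := by
    intro v hv w hw hc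
    rcases hall v hv w hw with h | h
    · exact h
    · rw [h] at hc
      have := hsum v hv
      have := hlt v hv
      omega
  have uniq2 : ∀ v, ¬ Cl G v → ∀ w, G.Adj v w → ¬ (2 * (L G v w).card < D + 2) →
      L G v w = l2 v := by
    intro v hv w hw hc
    rcases hall v hv w hw with h | h
    · rw [h] at hc
      exact absurd (hlt v hv) hc
    · exact h
  have hclosed : ∀ v w, ¬ Cl G v → G.Adj v w → ¬ Cl G w :=
    fun v w hv hvw hw => hv (Cl_closed G D hreg hw hvw.symm)
  refine count_SB (fun v => if Cl G v then {v} else l1 v)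
    (fun v => if Cl G v then insert v (G.neighborFinset v) else l2 v) D ?_ ?_ ?_ ?_ ?_ ?_
  · intro v
    by_cases hv : Cl G v
    · simp [hv]
    · obtain ⟨w, _, hw⟩ := h1 v hv
      simp only [hv, if_false]
      rw [hw]; exact left_mem G v w
  · intro v
    by_cases hv : Cl G v
    · simp [hv]
    · obtain ⟨w, _, hw⟩ := h2 v hv
      simp only [hv, if_false]
      rw [hw]; exact left_mem G v w
  · intro v w hw
    by_cases hv : Cl G v
    · simp only [hv, if_true, Finset.mem_singleton] at hw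
      rw [hw]
    · simp only [hv, if_false] at hw ⊢
      by_cases hvw : w = v
      · rw [hvw]; simp [hv]
      · obtain ⟨u, hu, hl⟩ := h1 v hv
        have hw' := hw
        rw [hl] at hw'
        have hadj : G.Adj w v := adj_of_mem G hDF hu hw' (left_mem G v u) hvw
        have hnc := hclosed v w hv hadj.symm
        simp only [hnc, if_false]
        have e : L G w v = l1 v := by
          rw [hl]; exact L_eq G hDF hu hw' (left_mem G v u) hvw
        rw [← e]
        exact (uniq1 w hnc v hadj (by rw [e]; exact hlt v hv)).symm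
  · intro v w hw
    by_cases hv : Cl G v
    · simp only [hv, if_true, Finset.mem_insert, SimpleGraph.mem_neighborFinset] at hw ⊢
      rcases hw with rfl | hw
      · simp [hv]
      · have hcw := Cl_closed G D hreg hv hw
        simp only [hcw, if_true]
        exact Cl_adj G D hreg hv hw
    · simp only [hv, if_false] at hw ⊢
      by_cases hvw : w = v
      · rw [hvw]; simp [hv]
      · obtain ⟨u, hu, hl⟩ := h2 v hv
        have hw' := hw
        rw [hl] at hw'
        have hadj : G.Adj w v := adj_of_mem G hDF hu hw' (left_mem G v u) hvw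
        have hnc := hclosed v w hv hadj.symm
        simp only [hnc, if_false]
        have e : L G w v = l2 v := by
          rw [hl]; exact L_eq G hDF hu hw' (left_mem G v u) hvw
        rw [← e]
        refine (uniq2 w hnc v hadj ?_).symm
        rw [e]
        have := hsum v hv
        have := hlt v hv
        omega
  · intro v
    by_cases hv : Cl G v
    · simp only [hv, if_true, Finset.card_singleton]
      rw [Finset.card_insert_of_notMem (by simp), hreg]
      omega
    · simp only [hv, if_false]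
      exact hsum v hv
  · intro v w hw1 hw2
    by_cases hv : Cl G v
    · simpa [hv] using hw1
    · simp only [hv, if_false] at hw1 hw2
      by_contra hvw
      obtain ⟨u, hu, hl⟩ := h1 v hv
      obtain ⟨u', hu', hl'⟩ := h2 v hv
      have e1 : L G v w = l1 v := by
        rw [hl]
        rw [hl] at hw1
        exact L_eq G hDF hu (left_mem G v u) hw1 (Ne.symm hvw)
      have e2 : L G v w = l2 v := by
        rw [hl']
        rw [hl'] at hw2
        exact L_eq G hDF hu' (left_mem G v u') hw2 (Ne.symm hvw)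
      have := hsum v hv
      have := hlt v hv
      rw [← e1, ← e2] at *
      omega

/-- no twins -/
theorem no_twin_closure {D : ℕ} (hD : 45 ≤ D) (hreg : ∀ v, (G.neighborFinset v).card = D)
    (hn : 16 * Fintype.card V + 36 * D < D * D)
    (hnt : ∀ u v : V, u ≠ v → G.neighborFinset u ≠ G.neighborFinset v) :
    Fintype.card V ∈ AddSubmonoid.closure (sizes2 D) := by
  have hDF : DF G := by
    intro p q r s hpq hpr hps hqr hqs hrs
    by_contra nrs
    obtain ⟨w, hw1, hw2⟩ := exists_diff hreg (hnt r s hrs)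
    exact nodia hX hD hreg hn hrs nrs hw1 hw2 p q hpr.symm hqr.symm hps.symm hqs.symm hpq
  exact closure_lines hDF (claw_free hX hDF hD hreg) hD hreg hn

end

end Pool.Agent.H37.RE12
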