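import Pool.Agent.H37.RE12

/-!
Twins split off; the characterisation of the orders with `μ = -2`.
-/

namespace Pool.Agent.H37.RE13

open Pool.Agent.H37.RE0

open Matrix Finset Pool.Agent.H37.RE2 Pool.Agent.H37.RE3 Pool.Agent.H37.RE4 Pool.Agent.H37.RE6
  Pool.Agent.H37.RE7 Pool.Agent.H37.RE8 Pool.Agent.H37.RE9 Pool.Agent.H37.RE10
  Pool.Agent.H37.RE11 Pool.Agent.H37.RE12

section
variable {V : Type} [Fintype V] [DecidableEq V] {G : SimpleGraph V} [DecidableRel G.Adj]
variable {κ : Type} [Fintype κ] {X : V → (κ → ℝ)} (hX : ∀ v w, X v ⬝ᵥ X w = MM G v w)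

/-- the block of a vertex -/
def K (G : SimpleGraph V) [DecidableRel G.Adj] (g : V) : Finset V :=
  Finset.univ.filter (fun z => G.Adj g z ∨ G.neighborFinset z = G.neighborFinset g)

lemma mem_K (g z : V) : z ∈ K G g ↔ G.Adj g z ∨ G.neighborFinset z = G.neighborFinset g := by
  simp [K]

lemma nadj_of_twin {u v : V} (h : G.neighborFinset v = G.neighborFinset u) : ¬ G.Adj u v := by
  intro ha
  have : v ∈ G.neighborFinset v := by rw [h]; simpa using ha
  simp at this

lemma adj_of_twin {u v c : V} (h : G.neighborFinset v = G.neighborFinset u) (hc : G.Adj u c) :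
    G.Adj v c := by
  have : c ∈ G.neighborFinset v := by rw [h]; simpa using hc
  simpa using this

include hX

lemma K_eq {D : ℕ} (hD : 1 ≤ D) (hreg : ∀ v, (G.neighborFinset v).card = D) {u v : V}
    (huv : u ≠ v) (h : G.neighborFinset v = G.neighborFinset u) :
    K G u = insert u (insert v (G.neighborFinset u)) := by
  ext z
  rw [mem_K, Finset.mem_insert, Finset.mem_insert, SimpleGraph.mem_neighborFinset]
  constructor
  · rintro (hz | hz)
    · exact Or.inr (Or.inr hz)
    · by_cases hzu : z = u
      · exact Or.inl hzu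
      · exact Or.inr (Or.inl (twins hX hD hreg huv (fun hh => hzu hh.symm) h hz))
  · rintro (rfl | rfl | hz)
    · exact Or.inr rfl
    · exact Or.inr h
    · exact Or.inl hz

lemma K_card {D : ℕ} (hD : 1 ≤ D) (hreg : ∀ v, (G.neighborFinset v).card = D) {u v : V}
    (huv : u ≠ v) (h : G.neighborFinset v = G.neighborFinset u) : (K G u).card = D + 2 := by
  have nuv := nadj_of_twin h
  rw [K_eq hX hD hreg huv h, Finset.card_insert_of_notMem, Finset.card_insert_of_notMem, hreg]
  · simpa using nuv
  · simp [huv]

/-- neighbours of a vertex with a twin -/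
lemma nbr_twin {D : ℕ} (hD : 1 ≤ D) (hreg : ∀ v, (G.neighborFinset v).card = D) {u v c : V}
    (huv : u ≠ v) (h : G.neighborFinset v = G.neighborFinset u) (huc : G.Adj u c) :
    ∃ c', c' ≠ c ∧ G.neighborFinset c' = G.neighborFinset c ∧ K G c = K G u := by
  have nuv := nadj_of_twin h
  have hvc := adj_of_twin h huc
  have hKu := K_eq hX hD hreg huv h
  have hKc := K_card hX hD hreg huv h
  -- an opposite vertex
  have hopp : ∀ c, G.Adj u c → ∃ d, G.Adj u d ∧ d ≠ c ∧ ¬ G.Adj c d := by
    intro c huc
    have hc : c ∈ G.neighborFinset u := by simpa using huc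
    by_contra hcon
    push Not at hcon
    have hsub : insert u (insert v ((G.neighborFinset u).erase c)) ⊆ G.neighborFinset c := by
      intro d hd
      simp only [Finset.mem_insert, Finset.mem_erase, SimpleGraph.mem_neighborFinset] at hd ⊢
      rcases hd with rfl | rfl | ⟨h1, h2⟩
      · exact huc.symm
      · exact (adj_of_twin h huc).symm
      · exact hcon d h2 h1
    have h1 : (insert u (insert v ((G.neighborFinset u).erase c))).card = D - 1 + 1 + 1 := by
      rw [Finset.card_insert_of_notMem, Finset.card_insert_of_notMem,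
        Finset.card_erase_of_mem hc, hreg]
      · simp [nuv]
      · simp [huv]
    have h2 := Finset.card_le_card hsub
    rw [h1, hreg] at h2
    omega
  -- neighbourhood formula
  have nform : ∀ c d, G.Adj u c → G.Adj u d → d ≠ c → ¬ G.Adj c d →
      G.neighborFinset c = ((K G u).erase c).erase d := by
    intro c d h1 h2 h3 h4
    symm
    apply Finset.eq_of_subset_of_card_le
    · intro z hz
      rw [Finset.mem_erase, Finset.mem_erase, hKu, Finset.mem_insert, Finset.mem_insert,
        SimpleGraph.mem_neighborFinset] at hz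
      rw [SimpleGraph.mem_neighborFinset]
      obtain ⟨hzd, hzc, rfl | rfl | hz⟩ := hz
      · exact h1.symm
      · exact (adj_of_twin h h1).symm
      · by_contra hn
        exact hzd (opp_unique hX huv nuv h1 (adj_of_twin h h1) hz (adj_of_twin h hz) hzc hn h2
          (adj_of_twin h h2) h3 h4)
    · rw [hreg, Finset.card_erase_of_mem, Finset.card_erase_of_mem, hKc]
      · omega
      · rw [mem_K]; exact Or.inl h1
      · rw [Finset.mem_erase, mem_K]; exact ⟨h3, Or.inl h2⟩
  obtain ⟨d, hd1, hd2, hd3⟩ := hopp c huc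
  have e1 := nform c d huc hd1 hd2 hd3
  have e2 := nform d c hd1 huc hd2.symm (fun hh => hd3 hh.symm)
  have e3 : G.neighborFinset d = G.neighborFinset c := by
    rw [e1, e2, Finset.erase_right_comm]
  refine ⟨d, hd2, e3, ?_⟩
  apply Finset.eq_of_subset_of_card_le
  · rw [K_eq hX hD hreg hd2.symm e3]
    intro z hz
    rw [Finset.mem_insert, Finset.mem_insert] at hz
    rcases hz with rfl | rfl | hz
    · rw [mem_K]; exact Or.inl huc
    · rw [mem_K]; exact Or.inl hd1
    · rw [e1] at hz
      exact Finset.mem_of_mem_erase (Finset.mem_of_mem_erase hz)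
  · rw [hKc, K_card hX hD hreg hd2.symm e3]

open Classical in
/-- the order of a small regular graph with least eigenvalue at least `-2` -/
theorem small_closure {D : ℕ} (hD : 45 ≤ D) (hreg : ∀ v, (G.neighborFinset v).card = D)
    (hn : 16 * Fintype.card V + 36 * D < D * D) :
    Fintype.card V ∈ AddSubmonoid.closure (sizes2 D) := by
  set Tw : Finset V := Finset.univ.filter
    (fun u => ∃ v, u ≠ v ∧ G.neighborFinset v = G.neighborFinset u) with hTw
  have memTw : ∀ u, u ∈ Tw ↔ ∃ v, u ≠ v ∧ G.neighborFinset v = G.neighborFinset u := by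
    intro u; simp [hTw]
  have hK : ∀ u ∈ Tw, ∀ z ∈ K G u, z ∈ Tw ∧ K G z = K G u := by
    intro u hu z hz
    obtain ⟨v, huv, h⟩ := (memTw u).1 hu
    rw [mem_K] at hz
    rcases hz with hz | hz
    · obtain ⟨c', h1, h2, h3⟩ := nbr_twin hX (by omega) hreg huv h hz
      exact ⟨(memTw z).2 ⟨c', h1.symm, h2⟩, h3⟩
    · refine ⟨?_, ?_⟩
      · rw [memTw]
        by_cases hzu : z = u
        · rw [hzu]; exact ⟨v, huv, h⟩
        · exact ⟨u, hzu, hz.symm⟩
      · ext g
        rw [mem_K, mem_K, hz]
        have : G.Adj z g ↔ G.Adj u g := by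
          rw [← SimpleGraph.mem_neighborFinset, ← SimpleGraph.mem_neighborFinset, hz]
        rw [this]
  have hclosed : ∀ v w, v ∉ Tw → G.Adj v w → w ∉ Tw := by
    intro v w hv hvw hw
    exact hv (hK w hw v ((mem_K w v).2 (Or.inl hvw.symm))).1
  -- the twin part
  have hTwcard : Tw.card ∈ AddSubmonoid.closure (sizes2 D) := by
    have hdvd : (D + 2) ∣ Tw.card := by
      refine dvd_block (fun v => if v ∈ Tw then K G v else {v}) Tw (D + 2) ?_ ?_ ?_ ?_
      · intro v
        by_cases hv : v ∈ Tw
        · simp only [hv, if_true]; rw [mem_K]; exact Or.inr rfl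
        · simp [hv]
      · intro v w hw
        by_cases hv : v ∈ Tw
        · simp only [hv, if_true] at hw ⊢
          obtain ⟨h1, h2⟩ := hK v hv w hw
          simp only [h1, if_true]
          exact h2
        · simp only [hv, if_false, Finset.mem_singleton] at hw
          rw [hw]
      · intro v hv w hw
        simp only [hv, if_true] at hw
        exact (hK v hv w hw).1
      · intro v hv
        simp only [hv, if_true]
        obtain ⟨w, h1, h2⟩ := (memTw v).1 hv
        exact K_card hX (by omega) hreg h1 h2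
    obtain ⟨k, hk⟩ := hdvd
    rcases Nat.eq_zero_or_pos k with h0 | h0
    · rw [hk, h0]; simp
    · have hne : Tw.Nonempty := by
        rw [← Finset.card_pos, hk]; positivity
      obtain ⟨u, hu⟩ := hne
      obtain ⟨v, h1, h2⟩ := (memTw u).1 hu
      have hev := twins_even hX hreg h1 h2
      have hmem : D + 2 ∈ AddSubmonoid.closure (sizes2 D) :=
        AddSubmonoid.subset_closure (Or.inr ⟨hev, rfl⟩)
      have := (AddSubmonoid.closure (sizes2 D)).nsmul_mem hmem k
      rw [hk, mul_comm]
      simpa using this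
  -- the rest
  let U := {v : V // v ∉ Tw}
  let G' : SimpleGraph U := G.comap Subtype.val
  have hadj' : ∀ a b : U, G'.Adj a b ↔ G.Adj a.1 b.1 := fun a b => Iff.rfl
  have hX' : ∀ a b : U, X a.1 ⬝ᵥ X b.1 = MM G' a b := by
    intro a b
    rw [hX, MM_apply, MM_apply]
    have h1 : (a = b) ↔ a.1 = b.1 := Subtype.ext_iff
    simp only [hadj', h1]
  have hmap : ∀ a : U, (G'.neighborFinset a).map (Function.Embedding.subtype _) =
      G.neighborFinset a.1 := by
    intro a
    ext w
    simp only [Finset.mem_map, SimpleGraph.mem_neighborFinset, Function.Embedding.subtype_apply]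
    constructor
    · rintro ⟨b, hb, rfl⟩
      exact hb
    · intro hw
      exact ⟨⟨w, hclosed a.1 w a.2 hw⟩, hw, rfl⟩
  have hreg' : ∀ a : U, (G'.neighborFinset a).card = D := by
    intro a
    rw [← Finset.card_map (Function.Embedding.subtype _), hmap, hreg]
  have hcU : Fintype.card U ≤ Fintype.card V := Fintype.card_subtype_le _
  have hnt : ∀ a b : U, a ≠ b → G'.neighborFinset a ≠ G'.neighborFinset b := by
    intro a b hab h
    apply a.2
    rw [memTw]
    refine ⟨b.1, fun hh => hab (Subtype.ext hh), ?_⟩
    rw [← hmap a, ← hmap b, h]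
  have hUcard : Fintype.card U ∈ AddSubmonoid.closure (sizes2 D) :=
    no_twin_closure (X := fun a : U => X a.1) hX' hD hreg' (by omega) hnt
  have hsplit : Fintype.card V = Tw.card + Fintype.card U := by
    have h1 : Fintype.card U = Fintype.card V - Fintype.card {v : V // v ∈ Tw} :=
      Fintype.card_subtype_compl (fun v => v ∈ Tw)
    have h2 : Fintype.card {v : V // v ∈ Tw} = Tw.card := Fintype.card_coe Tw
    have h3 : Tw.card ≤ Fintype.card V := Finset.card_le_univ Tw
    omega
  rw [hsplit]
  exact AddSubmonoid.add_mem _ hTwcard hUcard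

end

/-- the order of a small regular graph with least eigenvalue at least `-2` -/
theorem order_mem {D n : ℕ} (hD : 45 ≤ D) (hn : 16 * n + 36 * D < D * D)
    (G : SimpleGraph (Fin n)) (hreg : Reg G D) (h : -2 ≤ lamMin G) :
    n ∈ AddSubmonoid.closure (sizes2 D) := by
  classical
  obtain ⟨m, X, hX⟩ := gram G (psd_of_lamMin G h)
  have := small_closure hX hD (card_of_reg G hreg) (by rw [Fintype.card_fin]; exact hn)
  rwa [Fintype.card_fin] at this

end Pool.Agent.H37.RE13
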