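import Pool.Agent.H37.RE13

/-!
The characterisation of the orders with `μ = -2` for `D ≥ 1300`.
-/

namespace Pool.Agent.H37.RE14

open Pool.Agent.H37.RE0

open Pool.Agent.H37.RE4 Pool.Agent.H37.RE5 Pool.Agent.H37.RE6 Pool.Agent.H37.RE11
  Pool.Agent.H37.RE13

lemma small_of_lt {D n : ℕ} (hD : 1300 ≤ D)
    (hn : ¬ (D + 1) * (Nat.sqrt (D + 1) + 3 * Nat.sqrt (2 * Nat.sqrt (D + 1)) + 2) ≤ n) :
    16 * n + 36 * D < D * D := by
  obtain ⟨s, hs⟩ : ∃ s, Nat.sqrt (D + 1) = s := ⟨_, rfl⟩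
  rw [hs] at hn
  obtain ⟨t, ht⟩ : ∃ t, Nat.sqrt (2 * s) = t := ⟨_, rfl⟩
  rw [ht] at hn
  push Not at hn
  have h1 : s * s ≤ D + 1 := by rw [← hs]; exact Nat.sqrt_le (D + 1)
  have h2 : 36 ≤ s := by
    rw [← hs]
    exact Nat.le_sqrt.2 (by omega)
  have h3 : 36 * s ≤ D + 1 := le_trans (Nat.mul_le_mul_right s h2) h1
  have h4 : t * t ≤ 2 * s := by rw [← ht]; exact Nat.sqrt_le (2 * s)
  have h5 : 4 * t ≤ s := by
    by_contra hlt
    push Not at hlt
    have h6 : t ≤ 7 := by
      by_contra h7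
      push Not at h7
      have h8 : 8 * t ≤ t * t := Nat.mul_le_mul_right t h7
      omega
    omega
  have h6 : 36 * (4 * (s + 3 * t + 2)) ≤ 7 * (D + 1) + 288 := by omega
  have h7 : 36 * (4 * n) ≤ (D + 1) * (7 * (D + 1) + 288) := by
    calc 36 * (4 * n) ≤ 36 * (4 * ((D + 1) * (s + 3 * t + 2))) := by omega
      _ = (D + 1) * (36 * (4 * (s + 3 * t + 2))) := by ring
      _ ≤ _ := Nat.mul_le_mul_left _ h6
  nlinarith

/-- not in the semigroup: everything below `-2` -/
theorem below {D n : ℕ} (hD : 1300 ≤ D) (hn : n ∉ AddSubmonoid.closure (sizes2 D))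
    (G : SimpleGraph (Fin n)) (hreg : Reg G D) : lamMin G < -2 := by
  by_contra hcon
  push Not at hcon
  by_cases hth : (D + 1) * (Nat.sqrt (D + 1) + 3 * Nat.sqrt (2 * Nat.sqrt (D + 1)) + 2) ≤ n
  · -- parity of `n * D`
    have hev : Even (n * D) := by
      classical
      have h1 : ∑ v : Fin n, G.degree v = 2 * G.edgeFinset.card := G.sum_degrees_eq_twice_card_edges
      have h2 : ∀ v, G.degree v = D := by
        intro v
        have := card_of_reg G hreg v
        rwa [SimpleGraph.card_neighborFinset_eq_degree] at this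
      simp only [h2, Finset.sum_const, Finset.card_univ, Fintype.card_fin, smul_eq_mul] at h1
      rw [h1]
      exact even_two_mul _
    exact hn (AddSubmonoid.closure_mono (sizes_sub D) (mem_sqrt hev (by omega) hth))
  · exact hn (order_mem (by omega) (small_of_lt hD hth) G hreg hcon)

end Pool.Agent.H37.RE14
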