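import Pool.Agent.H37.RE1

/-!
Regular graphs of degree at least three whose `A + 2I` is positive definite have no induced
claw and no induced diamond.
-/

namespace Pool.Agent.H37.RE2

open Matrix Finset Pool.Agent.H37.RE1

lemma four_le {p q r s : ℤ} (h1 : (p - q) % 2 = 0) (h2 : (p - r) % 2 = 0)
    (h3 : (p - s) % 2 = 0) (h0 : ¬ (p = 0 ∧ q = 0 ∧ r = 0 ∧ s = 0)) :
    4 ≤ p ^ 2 + q ^ 2 + r ^ 2 + s ^ 2 := by
  rcases Int.even_or_odd p with hp | hp
  · obtain ⟨p', hp'⟩ := hp
    obtain ⟨q', hq'⟩ : ∃ q', q = q' + q' := ⟨q / 2, by omega⟩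
    obtain ⟨r', hr'⟩ : ∃ r', r = r' + r' := ⟨r / 2, by omega⟩
    obtain ⟨s', hs'⟩ : ∃ s', s = s' + s' := ⟨s / 2, by omega⟩
    have h : 1 ≤ p' ^ 2 + q' ^ 2 + r' ^ 2 + s' ^ 2 := by
      by_contra hlt
      push Not at hlt
      have e : p' ^ 2 + q' ^ 2 + r' ^ 2 + s' ^ 2 ≤ 0 := by omega
      have ep : p' ^ 2 = 0 := by nlinarith [sq_nonneg p', sq_nonneg q', sq_nonneg r', sq_nonneg s']
      have eq : q' ^ 2 = 0 := by nlinarith [sq_nonneg p', sq_nonneg q', sq_nonneg r', sq_nonneg s']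
      have er : r' ^ 2 = 0 := by nlinarith [sq_nonneg p', sq_nonneg q', sq_nonneg r', sq_nonneg s']
      have es : s' ^ 2 = 0 := by nlinarith [sq_nonneg p', sq_nonneg q', sq_nonneg r', sq_nonneg s']
      have ep' := pow_eq_zero_iff (two_ne_zero) |>.1 ep
      have eq' := pow_eq_zero_iff (two_ne_zero) |>.1 eq
      have er' := pow_eq_zero_iff (two_ne_zero) |>.1 er
      have es' := pow_eq_zero_iff (two_ne_zero) |>.1 es
      exact h0 ⟨by omega, by omega, by omega, by omega⟩
    subst hp' hq' hr' hs'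
    nlinarith
  · have hodd : ∀ t : ℤ, (p - t) % 2 = 0 → 1 ≤ t ^ 2 := by
      intro t ht
      have ht0 : t ≠ 0 := by
        rintro rfl
        obtain ⟨k, hk⟩ := hp
        omega
      have := Int.one_le_abs ht0
      nlinarith [sq_abs t, abs_nonneg t]
    have e1 := hodd p (by simp)
    have e2 := hodd q h1
    have e3 := hodd r h2
    have e4 := hodd s h3
    linarith

/-- the claw -/
lemma base_claw : Lat (!![2,1,1,1;1,2,0,0;1,0,2,0;1,0,0,2] : Matrix (Fin 4) (Fin 4) ℝ) ∧
    (!![2,1,1,1;1,2,0,0;1,0,2,0;1,0,0,2] : Matrix (Fin 4) (Fin 4) ℝ).det ≤ 4 := by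
  constructor
  · intro z hz hz0
    obtain ⟨k0, h0⟩ := hz 0
    obtain ⟨k1, h1⟩ := hz 1
    obtain ⟨k2, h2⟩ := hz 2
    obtain ⟨k3, h3⟩ := hz 3
    have e : z ⬝ᵥ ((!![2,1,1,1;1,2,0,0;1,0,2,0;1,0,0,2] : Matrix (Fin 4) (Fin 4) ℝ) *ᵥ z) =
        z 0 * k0 + z 1 * k1 + z 2 * k2 + z 3 * k3 := by
      rw [← h0, ← h1, ← h2, ← h3]
      simp [dotProduct, Fin.sum_univ_four]
    rw [e]
    simp [Matrix.mulVec, dotProduct, Fin.sum_univ_four] at h0 h1 h2 h3
    have hk := four_le (p := k1 + k2) (q := 2 * k0 - (k1 + k2)) (r := k1 - k2)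
      (s := 2 * k3 - 2 * k0 + (k1 + k2)) (by omega) (by omega) (by omega) (by
        rintro ⟨ha, hb, hc, hd⟩
        have e0 : k0 = 0 := by omega
        have e1 : k1 = 0 := by omega
        have e2 : k2 = 0 := by omega
        have e3 : k3 = 0 := by omega
        subst e0 e1 e2 e3
        push_cast at h0 h1 h2 h3
        apply hz0
        funext i
        fin_cases i
        · simp; linarith
        · simp; linarith
        · simp; linarith
        · simp; linarith)
    have hk' : (4 : ℝ) ≤ ((k1 : ℝ) + k2) ^ 2 + (2 * k0 - (k1 + k2)) ^ 2 + (k1 - k2) ^ 2 +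
        (2 * k3 - 2 * k0 + (k1 + k2)) ^ 2 := by exact_mod_cast hk
    have z0 : z 0 = 2 * k0 - k1 - k2 - k3 := by linarith
    have z1 : z 1 = (k1 - z 0) / 2 := by linarith
    have z2 : z 2 = (k2 - z 0) / 2 := by linarith
    have z3 : z 3 = (k3 - z 0) / 2 := by linarith
    rw [z1, z2, z3, z0]
    nlinarith
  · simp [Matrix.det_succ_row_zero, Fin.sum_univ_succ, Fin.succAbove, Matrix.submatrix]
    norm_num

/-- the diamond: `0, 1` adjacent to all, `2, 3` not adjacent -/
lemma base_diamond : Lat (!![2,1,1,1;1,2,1,1;1,1,2,0;1,1,0,2] : Matrix (Fin 4) (Fin 4) ℝ) ∧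
    (!![2,1,1,1;1,2,1,1;1,1,2,0;1,1,0,2] : Matrix (Fin 4) (Fin 4) ℝ).det ≤ 4 := by
  constructor
  · intro z hz hz0
    obtain ⟨k0, h0⟩ := hz 0
    obtain ⟨k1, h1⟩ := hz 1
    obtain ⟨k2, h2⟩ := hz 2
    obtain ⟨k3, h3⟩ := hz 3
    have e : z ⬝ᵥ ((!![2,1,1,1;1,2,1,1;1,1,2,0;1,1,0,2] : Matrix (Fin 4) (Fin 4) ℝ) *ᵥ z) =
        z 0 * k0 + z 1 * k1 + z 2 * k2 + z 3 * k3 := by
      rw [← h0, ← h1, ← h2, ← h3]
      simp [dotProduct, Fin.sum_univ_four]
    rw [e]
    simp [Matrix.mulVec, dotProduct, Fin.sum_univ_four] at h0 h1 h2 h3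
    have hk := four_le (p := k2 + k0 - k1) (q := k2 + k1 - k0) (r := k0 + k1 - k2)
      (s := 2 * k3 - (k0 + k1 - k2)) (by omega) (by omega) (by omega) (by
        rintro ⟨ha, hb, hc, hd⟩
        have e0 : k0 = 0 := by omega
        have e1 : k1 = 0 := by omega
        have e2 : k2 = 0 := by omega
        have e3 : k3 = 0 := by omega
        subst e0 e1 e2 e3
        push_cast at h0 h1 h2 h3
        apply hz0
        funext i
        fin_cases i
        · simp; linarith
        · simp; linarith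
        · simp; linarith
        · simp; linarith)
    have hk' : (4 : ℝ) ≤ ((k2 : ℝ) + k0 - k1) ^ 2 + (k2 + k1 - k0) ^ 2 + (k0 + k1 - k2) ^ 2 +
        (2 * k3 - (k0 + k1 - k2)) ^ 2 := by exact_mod_cast hk
    have zs : z 0 - z 1 = k0 - k1 := by linarith
    have zt : z 0 + z 1 = (k0 + k1) - (k2 + k3) / 1 + (z 0 + z 1) + ((k2:ℝ) + k3) - (k0 + k1) := by
      ring
    have za : z 0 + z 1 = k0 + k1 - k2 / 1 - k3 + ((2 * (z 0 + z 1) + 2 * (z 2 + z 3)) -
      (k0 + k1)) - (z 0 + z 1) + ((z 2 + z 3) * 0) + (z 0 + z 1) * 0 + (k2 + k3) -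
      (2 * (z 2 + z 3)) := by
      linarith
    have w1 : 2 * (z 2 + z 3) = k2 + k3 - 2 * (z 0 + z 1) := by linarith
    have w2 : 3 * (z 0 + z 1) = k0 + k1 - 2 * (z 2 + z 3) := by linarith
    have w3 : z 0 + z 1 = k0 + k1 - k2 - k3 := by linarith
    have z0 : z 0 = (2 * k0 - k2 - k3) / 2 := by linarith
    have z1 : z 1 = (2 * k1 - k2 - k3) / 2 := by linarith
    have z2 : z 2 = (k2 - (k0 + k1 - k2 - k3)) / 2 := by linarith
    have z3 : z 3 = (k3 - (k0 + k1 - k2 - k3)) / 2 := by linarith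
    rw [z2, z3, z1, z0]
    nlinarith
  · simp [Matrix.det_succ_row_zero, Fin.sum_univ_succ, Fin.succAbove, Matrix.submatrix]
    norm_num

variable {V : Type} [Fintype V] [DecidableEq V]

/-- `A + 2 I` -/
noncomputable def MM (G : SimpleGraph V) [DecidableRel G.Adj] : Matrix V V ℝ :=
  G.adjMatrix ℝ + (2 : ℝ) • (1 : Matrix V V ℝ)

lemma MM_apply (G : SimpleGraph V) [DecidableRel G.Adj] (v w : V) :
    MM G v w = (if G.Adj v w then 1 else 0) + (if v = w then 2 else 0) := by
  simp [MM, Matrix.one_apply]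

lemma MM_herm (G : SimpleGraph V) [DecidableRel G.Adj] : (MM G).IsHermitian := by
  rw [Matrix.IsHermitian, Matrix.conjTranspose_eq_transpose_of_trivial]
  ext v w
  rw [Matrix.transpose_apply, MM_apply, MM_apply]
  simp [G.adj_comm, eq_comm]

lemma pos_sub (G : SimpleGraph V) [DecidableRel G.Adj] (h : (MM G).PosDef)
    {ι : Type} [Fintype ι] (f : ι → V) (hf : Function.Injective f) :
    Pos ((MM G).submatrix f f) := by
  intro z hz
  have := (h.submatrix hf).dotProduct_mulVec_pos hz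
  simpa using this

/-- good families -/
def Good (G : SimpleGraph V) [DecidableRel G.Adj] {ι : Type} [Fintype ι] [DecidableEq ι]
    (f : ι → V) : Prop :=
  Function.Injective f ∧ Lat ((MM G).submatrix f f) ∧ ((MM G).submatrix f f).det ≤ 4

lemma good_step (G : SimpleGraph V) [DecidableRel G.Adj] (h : (MM G).PosDef)
    {ι : Type} [Fintype ι] [DecidableEq ι] (f : ι → V) (hg : Good G f) (w : V)
    (hw : w ∉ Set.range f) (i₀ : ι) (hi : G.Adj (f i₀) w) :
    Good G (Sum.elim f (fun _ : Unit => w)) := by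
  obtain ⟨hinj, hL, hd⟩ := hg
  have hinj' : Function.Injective (Sum.elim f (fun _ : Unit => w)) := by
    rintro (i | i) (j | j) hij
    · simp only [Sum.elim_inl] at hij
      rw [hinj hij]
    · simp only [Sum.elim_inl, Sum.elim_inr] at hij
      exact absurd ⟨i, hij⟩ hw
    · simp only [Sum.elim_inl, Sum.elim_inr] at hij
      exact absurd ⟨j, hij.symm⟩ hw
    · rfl
  have e : (MM G).submatrix (Sum.elim f (fun _ : Unit => w)) (Sum.elim f (fun _ : Unit => w)) =
      Matrix.fromBlocks ((MM G).submatrix f f)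
        (Matrix.of fun i (_ : Unit) => (if G.Adj (f i) w then (1 : ℝ) else 0))
        (Matrix.of fun (_ : Unit) i => (if G.Adj (f i) w then (1 : ℝ) else 0))
        (Matrix.of fun (_ _ : Unit) => (2 : ℝ)) := by
    ext i j
    rcases i with i | i <;> rcases j with j | j
    · simp
    · simp only [submatrix_apply, Sum.elim_inl, Sum.elim_inr, fromBlocks_apply₁₂, of_apply,
        MM_apply]
      have : f i ≠ w := fun h => hw ⟨i, h⟩
      simp [this]
    · simp only [submatrix_apply, Sum.elim_inl, Sum.elim_inr, fromBlocks_apply₂₁, of_apply,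
        MM_apply]
      have : w ≠ f j := fun h => hw ⟨j, h.symm⟩
      simp [this, G.adj_comm]
    · simp [MM_apply]
  have hpos' := pos_sub G h _ hinj'
  rw [e] at hpos'
  obtain ⟨hL', hd'⟩ := step ((MM G).submatrix f f) ((MM_herm G).submatrix f)
    (pos_sub G h f hinj) hL (fun i => if G.Adj (f i) w then (1 : ℝ) else 0)
    (fun i => by
      by_cases ha : G.Adj (f i) w
      · exact ⟨1, by simp [ha]⟩
      · exact ⟨0, by simp [ha]⟩)
    (by
      intro h0
      have := congrFun h0 i₀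
      simp [hi] at this) hpos'
  refine ⟨hinj', ?_, ?_⟩
  · rw [e]; exact hL'
  · rw [e]; exact hd'.trans hd

lemma good_closed (G : SimpleGraph V) [DecidableRel G.Adj] (h : (MM G).PosDef) (D : ℕ)
    (hD : 3 ≤ D) (hreg : ∀ v, (G.neighborFinset v).card = D)
    {ι : Type} [Fintype ι] [DecidableEq ι] [Nonempty ι] (f : ι → V) (hg : Good G f)
    (hcl : ∀ i w, G.Adj (f i) w → w ∈ Set.range f) : False := by
  obtain ⟨hinj, hL, hd⟩ := hg
  set Z : Matrix ι ι ℤ := Matrix.of fun i j =>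
    (if G.Adj (f i) (f j) then (1 : ℤ) else 0) + (if i = j then 2 else 0) with hZ
  have hmap : (MM G).submatrix f f = Z.map (Int.cast : ℤ → ℝ) := by
    ext i j
    rw [submatrix_apply, MM_apply, Matrix.map_apply, hZ, Matrix.of_apply]
    by_cases hij : i = j
    · subst hij; simp
    · have : f i ≠ f j := fun hh => hij (hinj hh)
      by_cases ha : G.Adj (f i) (f j) <;> simp [ha, hij, this]
  have hdet : ((MM G).submatrix f f).det = (Z.det : ℝ) := by
    rw [hmap]
    exact (Int.cast_det Z).symm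
  have hpos : 0 < ((MM G).submatrix f f).det := (h.submatrix hinj).det_pos
  rw [hdet] at hpos hd
  have hpos' : 0 < Z.det := by exact_mod_cast hpos
  have hd' : Z.det ≤ 4 := by exact_mod_cast hd
  -- row sums
  have hrow : Z *ᵥ (fun _ => (1 : ℤ)) = fun _ => ((D : ℤ) + 2) := by
    funext i
    simp only [Matrix.mulVec, dotProduct, mul_one, hZ, Matrix.of_apply, Finset.sum_add_distrib,
      Finset.sum_ite_eq, Finset.mem_univ, if_true]
    congr 1
    rw [Finset.sum_boole]
    have : (Finset.univ.filter (fun j => G.Adj (f i) (f j))).card = D := by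
      rw [← hreg (f i)]
      rw [← Finset.card_image_of_injective _ hinj]
      congr 1
      ext w
      simp only [Finset.mem_image, Finset.mem_filter, Finset.mem_univ, true_and,
        SimpleGraph.mem_neighborFinset]
      constructor
      · rintro ⟨j, hj, rfl⟩
        exact hj
      · intro hw
        obtain ⟨j, rfl⟩ := hcl i w hw
        exact ⟨j, hw, rfl⟩
    rw [this]
  obtain ⟨i₀⟩ := (inferInstance : Nonempty ι)
  have h1 : Z.adjugate *ᵥ (Z *ᵥ (fun _ => (1 : ℤ))) = fun _ => Z.det := by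
    rw [Matrix.mulVec_mulVec, Matrix.adjugate_mul, Matrix.smul_mulVec, Matrix.one_mulVec]
    funext i
    simp
  have h2 := congrFun h1 i₀
  rw [hrow] at h2
  have h3 : ((D : ℤ) + 2) ∣ Z.det := by
    rw [← h2]
    refine ⟨∑ j, Z.adjugate i₀ j, ?_⟩
    simp only [Matrix.mulVec, dotProduct]
    rw [← Finset.sum_mul, mul_comm]
  have h4 := Int.le_of_dvd hpos' h3
  omega

theorem no_good (G : SimpleGraph V) [DecidableRel G.Adj] (h : (MM G).PosDef) (D : ℕ)
    (hD : 3 ≤ D) (hreg : ∀ v, (G.neighborFinset v).card = D) :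
    ∀ (k : ℕ) (ι : Type) [Fintype ι] [DecidableEq ι] [Nonempty ι] (f : ι → V), Good G f →
      Fintype.card V ≤ Fintype.card ι + k → False := by
  intro k
  induction k with
  | zero =>
    intro ι _ _ _ f hg hc
    have hb : Function.Bijective f :=
      (Fintype.bijective_iff_injective_and_card f).2 ⟨hg.1, le_antisymm
        (Fintype.card_le_of_injective f hg.1) (by simpa using hc)⟩
    exact good_closed G h D hD hreg f hg (fun i w _ => hb.2 w)
  | succ k ih =>
    intro ι _ _ _ f hg hc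
    by_cases hcl : ∀ i w, G.Adj (f i) w → w ∈ Set.range f
    · exact good_closed G h D hD hreg f hg hcl
    · push Not at hcl
      obtain ⟨i, w, hiw, hw⟩ := hcl
      refine ih (ι ⊕ Unit) (Sum.elim f (fun _ : Unit => w)) (good_step G h f hg w hw i hiw) ?_
      rw [Fintype.card_sum, Fintype.card_unit]
      omega

theorem no_claw (G : SimpleGraph V) [DecidableRel G.Adj] (h : (MM G).PosDef) (D : ℕ)
    (hD : 3 ≤ D) (hreg : ∀ v, (G.neighborFinset v).card = D) (x a b c : V)
    (hxa : G.Adj x a) (hxb : G.Adj x b) (hxc : G.Adj x c) (hab : a ≠ b) (hac : a ≠ c)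
    (hbc : b ≠ c) : G.Adj a b ∨ G.Adj a c ∨ G.Adj b c := by
  by_contra hcon
  push Not at hcon
  obtain ⟨nab, nac, nbc⟩ := hcon
  have e : (MM G).submatrix ![x, a, b, c] ![x, a, b, c] =
      !![2,1,1,1;1,2,0,0;1,0,2,0;1,0,0,2] := by
    have s1 := hxa.symm
    have s2 := hxb.symm
    have s3 := hxc.symm
    have n1 : ¬ G.Adj b a := fun hh => nab hh.symm
    have n2 : ¬ G.Adj c a := fun hh => nac hh.symm
    have n3 : ¬ G.Adj c b := fun hh => nbc hh.symm
    ext i j
    fin_cases i <;> fin_cases j <;>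
      simp [MM_apply, hxa, hxb, hxc, s1, s2, s3, nab, nac, nbc, n1, n2, n3, hxa.ne, hxb.ne,
        hxc.ne, hxa.ne.symm, hxb.ne.symm, hxc.ne.symm, hab, hac, hbc, hab.symm, hac.symm,
        hbc.symm]
  refine no_good G h D hD hreg (Fintype.card V) (Fin 4) ![x, a, b, c] ⟨?_, ?_, ?_⟩ (by omega)
  · intro i j hij
    fin_cases i <;> fin_cases j <;>
      simp [hxa.ne, hxb.ne, hxc.ne, hxa.ne.symm, hxb.ne.symm, hxc.ne.symm, hab, hac, hbc,
        hab.symm, hac.symm, hbc.symm] at hij ⊢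
  · rw [e]; exact base_claw.1
  · rw [e]; exact base_claw.2

theorem no_diamond (G : SimpleGraph V) [DecidableRel G.Adj] (h : (MM G).PosDef) (D : ℕ)
    (hD : 3 ≤ D) (hreg : ∀ v, (G.neighborFinset v).card = D) (p q r s : V)
    (hpq : G.Adj p q) (hpr : G.Adj p r) (hps : G.Adj p s) (hqr : G.Adj q r) (hqs : G.Adj q s)
    (hrs : r ≠ s) : G.Adj r s := by
  by_contra nrs
  have e : (MM G).submatrix ![p, q, r, s] ![p, q, r, s] =
      !![2,1,1,1;1,2,1,1;1,1,2,0;1,1,0,2] := by
    have s1 := hpq.symm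
    have s2 := hpr.symm
    have s3 := hps.symm
    have s4 := hqr.symm
    have s5 := hqs.symm
    have n1 : ¬ G.Adj s r := fun hh => nrs hh.symm
    ext i j
    fin_cases i <;> fin_cases j <;>
      simp [MM_apply, hpq, hpr, hps, hqr, hqs, s1, s2, s3, s4, s5, nrs, n1, hpq.ne, hpr.ne,
        hps.ne, hqr.ne, hqs.ne, hpq.ne.symm, hpr.ne.symm, hps.ne.symm, hqr.ne.symm,
        hqs.ne.symm, hrs, hrs.symm]
  refine no_good G h D hD hreg (Fintype.card V) (Fin 4) ![p, q, r, s] ⟨?_, ?_, ?_⟩ (by omega)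
  · intro i j hij
    fin_cases i <;> fin_cases j <;>
      simp [hpq.ne, hpr.ne, hps.ne, hqr.ne, hqs.ne, hpq.ne.symm, hpr.ne.symm, hps.ne.symm,
        hqr.ne.symm, hqs.ne.symm, hrs, hrs.symm] at hij ⊢
  · rw [e]; exact base_diamond.1
  · rw [e]; exact base_diamond.2

end Pool.Agent.H37.RE2
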