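import Pool.Agent.H37.RE2

/-!
A regular graph of degree `D ≥ 3` whose `A + 2I` is positive definite is a disjoint union of
complete graphs.
-/

namespace Pool.Agent.H37.RE3

open Matrix Finset Pool.Agent.H37.RE2

variable {V : Type} [Fintype V] [DecidableEq V]

/-- the line through `p, q` -/
def L (G : SimpleGraph V) [DecidableRel G.Adj] (p q : V) : Finset V :=
  Finset.univ.filter (fun z => z = p ∨ z = q ∨ (G.Adj p z ∧ G.Adj q z))

lemma mem_L (G : SimpleGraph V) [DecidableRel G.Adj] (p q z : V) :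
    z ∈ L G p q ↔ z = p ∨ z = q ∨ (G.Adj p z ∧ G.Adj q z) := by
  simp [L]

/-- diamond-free -/
def DF (G : SimpleGraph V) : Prop := ∀ p q r s, G.Adj p q → G.Adj p r → G.Adj p s → G.Adj q r →
  G.Adj q s → r ≠ s → G.Adj r s

/-- claw-free -/
def CF (G : SimpleGraph V) : Prop := ∀ x a b c, G.Adj x a → G.Adj x b → G.Adj x c → a ≠ b →
  a ≠ c → b ≠ c → G.Adj a b ∨ G.Adj a c ∨ G.Adj b c

lemma adj_of_mem (G : SimpleGraph V) [DecidableRel G.Adj] (hd : DF G) {p q r s : V}
    (hpq : G.Adj p q) (hr : r ∈ L G p q) (hs : s ∈ L G p q) (hrs : r ≠ s) : G.Adj r s := by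
  rw [mem_L] at hr hs
  rcases hr with rfl | rfl | ⟨hr1, hr2⟩ <;> rcases hs with rfl | rfl | ⟨hs1, hs2⟩
  · exact absurd rfl hrs
  · exact hpq
  · exact hs1
  · exact hpq.symm
  · exact absurd rfl hrs
  · exact hs2
  · exact hr1.symm
  · exact hr2.symm
  · exact hd p q r s hpq hr1 hs1 hr2 hs2 hrs

lemma L_sub (G : SimpleGraph V) [DecidableRel G.Adj] (hd : DF G) {p q r s : V}
    (hpq : G.Adj p q) (hr : r ∈ L G p q) (hs : s ∈ L G p q) :
    L G p q ⊆ L G r s := by
  intro z hz
  rw [mem_L]
  by_cases h1 : z = r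
  · exact Or.inl h1
  by_cases h2 : z = s
  · exact Or.inr (Or.inl h2)
  exact Or.inr (Or.inr ⟨adj_of_mem G hd hpq hr hz (fun h => h1 h.symm),
    adj_of_mem G hd hpq hs hz (fun h => h2 h.symm)⟩)

lemma left_mem (G : SimpleGraph V) [DecidableRel G.Adj] (p q : V) : p ∈ L G p q := by
  rw [mem_L]; exact Or.inl rfl

lemma right_mem (G : SimpleGraph V) [DecidableRel G.Adj] (p q : V) : q ∈ L G p q := by
  rw [mem_L]; exact Or.inr (Or.inl rfl)

lemma L_eq (G : SimpleGraph V) [DecidableRel G.Adj] (hd : DF G) {p q r s : V}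
    (hpq : G.Adj p q) (hr : r ∈ L G p q) (hs : s ∈ L G p q) (hrs : r ≠ s) :
    L G r s = L G p q := by
  have h1 := L_sub G hd hpq hr hs
  have h2 := L_sub G hd (adj_of_mem G hd hpq hr hs hrs) (h1 (left_mem G p q))
    (h1 (right_mem G p q))
  exact Finset.Subset.antisymm h2 h1

/-- every neighbourhood is a clique -/
def Cl (G : SimpleGraph V) (v : V) : Prop := ∀ a b, G.Adj v a → G.Adj v b → a ≠ b → G.Adj a b

lemma Cl_adj (G : SimpleGraph V) [DecidableRel G.Adj] (D : ℕ)
    (hreg : ∀ v, (G.neighborFinset v).card = D) {v p : V} (hv : Cl G v) (hvp : G.Adj v p) :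
    insert p (G.neighborFinset p) = insert v (G.neighborFinset v) := by
  have hclT : ∀ a b, a ∈ insert v (G.neighborFinset v) → b ∈ insert v (G.neighborFinset v) →
      a ≠ b → G.Adj a b := by
    intro a b ha hb hab
    simp only [Finset.mem_insert, SimpleGraph.mem_neighborFinset] at ha hb
    rcases ha with rfl | ha <;> rcases hb with rfl | hb
    · exact absurd rfl hab
    · exact hb
    · exact ha.symm
    · exact hv a b ha hb hab
  have hp : p ∈ insert v (G.neighborFinset v) := by simp [hvp]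
  symm
  apply Finset.eq_of_subset_of_card_le
  · intro x hx
    by_cases hxp : x = p
    · rw [hxp]; exact Finset.mem_insert_self _ _
    · apply Finset.mem_insert_of_mem
      rw [SimpleGraph.mem_neighborFinset]
      exact hclT p x hp hx (fun h => hxp h.symm)
  · rw [Finset.card_insert_of_notMem (by simp), Finset.card_insert_of_notMem (by simp), hreg,
      hreg]

lemma Cl_closed (G : SimpleGraph V) [DecidableRel G.Adj] (D : ℕ)
    (hreg : ∀ v, (G.neighborFinset v).card = D) {v p : V} (hv : Cl G v) (hvp : G.Adj v p) :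
    Cl G p := by
  have h := Cl_adj G D hreg hv hvp
  intro a b ha hb hab
  have ha' : a ∈ insert v (G.neighborFinset v) := by
    rw [← h]; exact Finset.mem_insert_of_mem (by simpa using ha)
  have hb' : b ∈ insert v (G.neighborFinset v) := by
    rw [← h]; exact Finset.mem_insert_of_mem (by simpa using hb)
  simp only [Finset.mem_insert, SimpleGraph.mem_neighborFinset] at ha' hb'
  rcases ha' with rfl | ha' <;> rcases hb' with rfl | hb'
  · exact absurd rfl hab
  · exact hb'
  · exact ha'.symm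
  · exact hv a b ha' hb' hab

/-- all neighbourhoods cliques: the order is divisible by `D + 1` -/
lemma dvd_of_Cl (G : SimpleGraph V) [DecidableRel G.Adj] (D : ℕ)
    (hreg : ∀ v, (G.neighborFinset v).card = D) (h : ∀ v, Cl G v) :
    (D + 1) ∣ Fintype.card V := by
  set T : V → Finset V := fun v => insert v (G.neighborFinset v) with hT
  have hfib : ∀ v w, T w = T v ↔ w ∈ T v := by
    intro v w
    constructor
    · intro hh
      rw [← hh]
      exact Finset.mem_insert_self _ _
    · intro hw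
      simp only [hT, Finset.mem_insert, SimpleGraph.mem_neighborFinset] at hw
      rcases hw with rfl | hw
      · rfl
      · exact Cl_adj G D hreg (h v) hw
  have h1 := Finset.card_eq_sum_card_image T (Finset.univ : Finset V)
  rw [Finset.card_univ] at h1
  rw [h1]
  apply Finset.dvd_sum
  intro t ht
  obtain ⟨v, _, rfl⟩ := Finset.mem_image.1 ht
  have : Finset.univ.filter (fun a => T a = T v) = T v := by
    ext w
    simp [hfib v w]
  rw [this]
  simp only [hT]
  rw [Finset.card_insert_of_notMem (by simp), hreg]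

lemma L_left (G : SimpleGraph V) [DecidableRel G.Adj] {v a : V} (hva : G.Adj v a) :
    L G v a = insert v ((G.neighborFinset v).filter (fun z => z = a ∨ G.Adj a z)) := by
  ext z
  simp only [mem_L, Finset.mem_insert, Finset.mem_filter, SimpleGraph.mem_neighborFinset]
  constructor
  · rintro (rfl | rfl | ⟨h1, h2⟩)
    · exact Or.inl rfl
    · exact Or.inr ⟨hva, Or.inl rfl⟩
    · exact Or.inr ⟨h1, Or.inr h2⟩
  · rintro (rfl | ⟨h1, h2 | h2⟩)
    · exact Or.inl rfl
    · exact Or.inr (Or.inl h2)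
    · exact Or.inr (Or.inr ⟨h1, h2⟩)

lemma L_right (G : SimpleGraph V) [DecidableRel G.Adj] (hd : DF G) (hc : CF G) {v a b : V}
    (hva : G.Adj v a) (hvb : G.Adj v b) (hab : a ≠ b) (nab : ¬ G.Adj a b) :
    L G v b = insert v ((G.neighborFinset v).filter (fun z => ¬ (z = a ∨ G.Adj a z))) := by
  ext z
  simp only [mem_L, Finset.mem_insert, Finset.mem_filter, SimpleGraph.mem_neighborFinset]
  constructor
  · rintro (rfl | rfl | ⟨h1, h2⟩)
    · exact Or.inl rfl
    · refine Or.inr ⟨hvb, ?_⟩
      rintro (h | h)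
      · exact hab h.symm
      · exact nab h
    · refine Or.inr ⟨h1, ?_⟩
      rintro (h | h)
      · exact nab (by rw [← h]; exact h2.symm)
      · exact nab (hd v z a b h1 hva hvb h.symm h2.symm hab)
  · rintro (rfl | ⟨h1, h2⟩)
    · exact Or.inl rfl
    · push Not at h2
      by_cases hzb : z = b
      · exact Or.inr (Or.inl hzb)
      · rcases hc v a b z hva hvb h1 hab (fun h => h2.1 h.symm) (fun h => hzb h.symm) with
          h | h | h
        · exact absurd h nab
        · exact absurd h h2.2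
        · exact Or.inr (Or.inr ⟨h1, h⟩)

lemma sum_lines (G : SimpleGraph V) [DecidableRel G.Adj] (hd : DF G) (hc : CF G) {v a b : V}
    (hva : G.Adj v a) (hvb : G.Adj v b) (hab : a ≠ b) (nab : ¬ G.Adj a b) {M : Type*}
    [AddCommMonoid M] (f : V → M) :
    ∑ z ∈ L G v a, f z + ∑ z ∈ L G v b, f z = f v + f v + ∑ z ∈ G.neighborFinset v, f z := by
  rw [L_left G hva, L_right G hd hc hva hvb hab nab, Finset.sum_insert (by simp),
    Finset.sum_insert (by simp),
    ← Finset.sum_filter_add_sum_filter_not (G.neighborFinset v) (fun z => z = a ∨ G.Adj a z) f]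
  abel

lemma mem_two (G : SimpleGraph V) [DecidableRel G.Adj] (hd : DF G) (hc : CF G) {v a b : V}
    (hva : G.Adj v a) (hvb : G.Adj v b) (hab : a ≠ b) (nab : ¬ G.Adj a b) {p q : V}
    (hpq : G.Adj p q) (hv : v ∈ L G p q) : L G p q = L G v a ∨ L G p q = L G v b := by
  obtain ⟨u, hu, huv⟩ : ∃ u, u ∈ L G p q ∧ u ≠ v := by
    by_cases h : v = p
    · exact ⟨q, right_mem G p q, fun hh => hpq.ne (h.symm.trans hh.symm)⟩
    · exact ⟨p, left_mem G p q, fun hh => h hh.symm⟩
  have h1 : L G v u = L G p q := L_eq G hd hpq hv hu (fun h => huv h.symm)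
  have hvu : G.Adj v u := adj_of_mem G hd hpq hv hu (fun h => huv h.symm)
  rw [← h1]
  have key : ∀ c, G.Adj v c → G.Adj c u → L G v u = L G v c := by
    intro c hvc hcu
    exact L_eq G hd hvc (left_mem G v c) (by
      rw [mem_L]; exact Or.inr (Or.inr ⟨hvu, hcu⟩)) (fun h => huv h.symm)
  by_cases hua : u = a
  · left; rw [hua]
  by_cases hub : u = b
  · right; rw [hub]
  rcases hc v a b u hva hvb hvu hab (fun h => hua h.symm) (fun h => hub h.symm) with h | h | h
  · exact absurd h nab
  · left; exact key a hva h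
  · right; exact key b hvb h

open Classical in
/-- the main structural theorem: if some neighbourhood is not a clique, `A + 2I` has a kernel -/
theorem kernel (G : SimpleGraph V) [DecidableRel G.Adj] (hd : DF G) (hc : CF G) (D : ℕ)
    (hD : 3 ≤ D) (hreg : ∀ v, (G.neighborFinset v).card = D) (hne : ∃ v, ¬ Cl G v) :
    ∃ f : V → ℝ, f ≠ 0 ∧ f ⬝ᵥ (MM G *ᵥ f) = 0 := by
  set W : Finset V := Finset.univ.filter (fun v => ¬ Cl G v) with hW
  have memW : ∀ v, v ∈ W ↔ ¬ Cl G v := by intro v; simp [hW]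
  have hwit : ∀ v ∈ W, ∃ a b, G.Adj v a ∧ G.Adj v b ∧ a ≠ b ∧ ¬ G.Adj a b := by
    intro v hv
    have := (memW v).1 hv
    unfold Cl at this
    push Not at this
    obtain ⟨a, b, h1, h2, h3, h4⟩ := this
    exact ⟨a, b, h1, h2, h3, h4⟩
  have hWcl : ∀ v w, v ∈ W → G.Adj v w → w ∈ W := by
    intro v w hv hvw
    rw [memW] at hv ⊢
    intro h
    exact hv (Cl_closed G D hreg h hvw.symm)
  set S : Finset (V × V) := Finset.univ.filter (fun d : V × V => d.1 ∈ W ∧ G.Adj d.1 d.2) with hS
  set LL : Finset (Finset V) := S.image (fun d => L G d.1 d.2) with hLL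
  have memLL : ∀ l, l ∈ LL ↔ ∃ p q, p ∈ W ∧ G.Adj p q ∧ l = L G p q := by
    intro l
    simp only [hLL, hS, Finset.mem_image, Finset.mem_filter, Finset.mem_univ, true_and]
    constructor
    · rintro ⟨⟨p, q⟩, ⟨h1, h2⟩, h3⟩
      exact ⟨p, q, h1, h2, h3.symm⟩
    · rintro ⟨p, q, h1, h2, h3⟩
      exact ⟨⟨p, q⟩, ⟨h1, h2⟩, h3.symm⟩
  -- the size of lines
  have hsz : ∀ l ∈ LL, 2 ≤ l.card := by
    intro l hl
    obtain ⟨p, q, _, hpq, rfl⟩ := (memLL l).1 hl
    have : ({p, q} : Finset V) ⊆ L G p q := by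
      intro z hz
      simp only [Finset.mem_insert, Finset.mem_singleton] at hz
      rcases hz with rfl | rfl
      · exact left_mem G _ _
      · exact right_mem G _ _
    calc 2 = ({p, q} : Finset V).card := (Finset.card_pair hpq.ne).symm
      _ ≤ _ := Finset.card_le_card this
  have hbig : ∃ l ∈ LL, 2 < l.card := by
    obtain ⟨v, hv⟩ := hne
    have hvW := (memW v).2 hv
    obtain ⟨a, b, hva, hvb, hab, nab⟩ := hwit v hvW
    have hs := sum_lines G hd hc hva hvb hab nab (fun _ => (1 : ℕ))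
    simp only [Finset.sum_const, smul_eq_mul, mul_one, hreg] at hs
    by_cases h3 : 2 < (L G v a).card
    · exact ⟨_, (memLL _).2 ⟨v, a, hvW, hva, rfl⟩, h3⟩
    · exact ⟨_, (memLL _).2 ⟨v, b, hvW, hvb, rfl⟩, by omega⟩
  -- each vertex is on at most two lines
  have hpt : ∀ v, (LL.filter (fun l => v ∈ l)).card ≤ if v ∈ W then 2 else 0 := by
    intro v
    split_ifs with hv
    · obtain ⟨a, b, hva, hvb, hab, nab⟩ := hwit v hv
      have : LL.filter (fun l => v ∈ l) ⊆ {L G v a, L G v b} := by
        intro l hl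
        rw [Finset.mem_filter] at hl
        obtain ⟨p, q, _, hpq, rfl⟩ := (memLL l).1 hl.1
        rcases mem_two G hd hc hva hvb hab nab hpq hl.2 with h | h
        · rw [h]; simp
        · rw [h]; simp
      exact (Finset.card_le_card this).trans Finset.card_le_two
    · rw [Nat.le_zero, Finset.card_eq_zero, Finset.filter_eq_empty_iff]
      intro l hl hvl
      obtain ⟨p, q, hp, hpq, rfl⟩ := (memLL l).1 hl
      rw [mem_L] at hvl
      rcases hvl with rfl | rfl | ⟨h1, _⟩
      · exact hv hp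
      · exact hv (hWcl _ _ hp hpq)
      · exact hv (hWcl _ _ hp h1)
  have hcount : LL.card < W.card := by
    have h1 : ∑ l ∈ LL, l.card = ∑ v : V, (LL.filter (fun l => v ∈ l)).card := by
      have : ∀ l ∈ LL, l.card = ∑ v : V, if v ∈ l then 1 else 0 := by
        intro l _
        rw [Finset.sum_boole]
        simp
      rw [Finset.sum_congr rfl this, Finset.sum_comm]
      apply Finset.sum_congr rfl
      intro v _
      rw [Finset.sum_boole]
      simp
    have h2 : ∑ v : V, (LL.filter (fun l => v ∈ l)).card ≤ 2 * W.card := by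
      calc ∑ v : V, (LL.filter (fun l => v ∈ l)).card ≤ ∑ v : V, (if v ∈ W then 2 else 0) :=
            Finset.sum_le_sum (fun v _ => hpt v)
        _ = 2 * W.card := by
            rw [← Finset.sum_filter]
            simp [mul_comm]
    have h3 : ∑ l ∈ LL, 2 < ∑ l ∈ LL, l.card := Finset.sum_lt_sum hsz hbig
    rw [Finset.sum_const, smul_eq_mul] at h3
    omega
  -- a function with vanishing line sums
  let Φ : (V → ℝ) →ₗ[ℝ] (({l // l ∈ LL} → ℝ) × ({v // v ∉ W} → ℝ)) :=
    { toFun := fun f => (fun l => ∑ v ∈ l.1, f v, fun v => f v.1)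
      map_add' := by
        intro f g
        ext <;> simp [Finset.sum_add_distrib]
      map_smul' := by
        intro c f
        ext <;> simp [Finset.mul_sum] }
  have hfr : Module.finrank ℝ (({l // l ∈ LL} → ℝ) × ({v // v ∉ W} → ℝ)) <
      Module.finrank ℝ (V → ℝ) := by
    rw [Module.finrank_prod, Module.finrank_fintype_fun_eq_card,
      Module.finrank_fintype_fun_eq_card, Module.finrank_fintype_fun_eq_card,
      Fintype.card_subtype_compl]
    have h1 : Fintype.card {l // l ∈ LL} = LL.card := Fintype.card_coe LL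
    have h2 : Fintype.card {v // v ∈ W} = W.card := Fintype.card_coe W
    have h3 : W.card ≤ Fintype.card V := Finset.card_le_univ W
    rw [h1, h2]
    omega
  obtain ⟨f, hf, hf0⟩ := (Submodule.ne_bot_iff _).1 (LinearMap.ker_ne_bot_of_finrank_lt
    (f := Φ) hfr)
  rw [LinearMap.mem_ker] at hf
  have hf1 : ∀ l ∈ LL, ∑ v ∈ l, f v = 0 := by
    intro l hl
    have := congrFun (congrArg Prod.fst hf) ⟨l, hl⟩
    simpa [Φ] using this
  have hf2 : ∀ v, v ∉ W → f v = 0 := by
    intro v hv
    have := congrFun (congrArg Prod.snd hf) ⟨v, hv⟩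
    simpa [Φ] using this
  refine ⟨f, hf0, ?_⟩
  rw [dotProduct]
  apply Finset.sum_eq_zero
  intro v _
  by_cases hv : v ∈ W
  · obtain ⟨a, b, hva, hvb, hab, nab⟩ := hwit v hv
    have hs := sum_lines G hd hc hva hvb hab nab f
    rw [hf1 _ ((memLL _).2 ⟨v, a, hv, hva, rfl⟩), hf1 _ ((memLL _).2 ⟨v, b, hv, hvb, rfl⟩)] at hs
    have e : (MM G *ᵥ f) v = f v + f v + ∑ z ∈ G.neighborFinset v, f z := by
      rw [MM, Matrix.add_mulVec, Pi.add_apply, SimpleGraph.adjMatrix_mulVec_apply,
        Matrix.smul_mulVec, Matrix.one_mulVec]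
      simp
      ring
    rw [e, ← hs]
    simp
  · rw [hf2 v hv, zero_mul]

/-- **Theorem** (Doob-Cvetkovic for regular graphs): positive definite `A + 2I` and degree at least
three force a disjoint union of complete graphs. -/
theorem all_Cl (G : SimpleGraph V) [DecidableRel G.Adj] (h : (MM G).PosDef) (D : ℕ)
    (hD : 3 ≤ D) (hreg : ∀ v, (G.neighborFinset v).card = D) : ∀ v, Cl G v := by
  by_contra hcon
  push Not at hcon
  have hd : DF G := fun p q r s h1 h2 h3 h4 h5 h6 =>
    no_diamond G h D hD hreg p q r s h1 h2 h3 h4 h5 h6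
  have hc : CF G := fun x a b c h1 h2 h3 h4 h5 h6 =>
    no_claw G h D hD hreg x a b c h1 h2 h3 h4 h5 h6
  obtain ⟨f, hf0, hf⟩ := kernel G hd hc D hD hreg hcon
  have := h.dotProduct_mulVec_pos hf0
  simp only [star_trivial] at this
  linarith

theorem dvd_of_posDef (G : SimpleGraph V) [DecidableRel G.Adj] (h : (MM G).PosDef) (D : ℕ)
    (hD : 3 ≤ D) (hreg : ∀ v, (G.neighborFinset v).card = D) : (D + 1) ∣ Fintype.card V :=
  dvd_of_Cl G D hreg (all_Cl G h D hD hreg)

end Pool.Agent.H37.RE3
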