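import Pool.Agent.H37.RE3

/-!
Regular graphs with smallest eigenvalue at least `-2`: rook graphs, cocktail party graphs and
their disjoint unions.
-/

namespace Pool.Agent.H37.RE4

open Finset

/-- there is a `D`-regular graph on `n` vertices with `A + 2 I` positive semidefinite -/
def Rep (D n : ℕ) : Prop := ∃ (V : Type) (_ : Fintype V) (G : SimpleGraph V) (a : V → V → ℝ),
  Fintype.card V = n ∧ (∀ v w, G.Adj v w → a v w = 1) ∧ (∀ v w, ¬ G.Adj v w → a v w = 0) ∧
  (∀ v, ∑ w, a v w = D) ∧ ∀ x : V → ℝ, 0 ≤ ∑ v, x v * (2 * x v + ∑ w, a v w * x w)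

lemma rep_zero (D : ℕ) : Rep D 0 := by
  refine ⟨Fin 0, inferInstance, ⊥, fun _ _ => 0, by simp, ?_, ?_, ?_, ?_⟩
  · intro v; exact v.elim0
  · intro v; exact v.elim0
  · intro v; exact v.elim0
  · intro x; simp

lemma rep_add {D m n : ℕ} (hm : Rep D m) (hn : Rep D n) : Rep D (m + n) := by
  obtain ⟨V, iV, G, a, hc, h1, h0, hs, hf⟩ := hm
  obtain ⟨W, iW, H, b, kc, k1, k0, ks, kf⟩ := hn
  refine ⟨V ⊕ W, inferInstance, G ⊕g H, fun p q => match p, q with
    | Sum.inl v, Sum.inl w => a v w
    | Sum.inr v, Sum.inr w => b v w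
    | Sum.inl _, Sum.inr _ => 0
    | Sum.inr _, Sum.inl _ => 0, ?_, ?_, ?_, ?_, ?_⟩
  · rw [Fintype.card_sum, hc, kc]
  · rintro (v | v) (w | w) hh
    · exact h1 v w (by simpa using hh)
    · simp at hh
    · simp at hh
    · exact k1 v w (by simpa using hh)
  · rintro (v | v) (w | w) hh
    · exact h0 v w (by simpa using hh)
    · rfl
    · rfl
    · exact k0 v w (by simpa using hh)
  · rintro (v | v)
    · simp [Fintype.sum_sum_type, hs]
    · simp [Fintype.sum_sum_type, ks]
  · intro x
    have e1 := hf (fun v => x (Sum.inl v))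
    have e2 := kf (fun v => x (Sum.inr v))
    simp only [Fintype.sum_sum_type, zero_mul, Finset.sum_const_zero, add_zero, zero_add]
    linarith

/-- rook graphs -/
lemma rep_rook {D a b : ℕ} (hab : a + b = D + 2) : Rep D (a * b) := by
  refine ⟨Fin a × Fin b, inferInstance,
    { Adj := fun p q => p ≠ q ∧ (q.2 = p.2 ∨ q.1 = p.1)
      symm := ⟨fun p q h => ⟨h.1.symm, h.2.imp Eq.symm Eq.symm⟩⟩
      loopless := ⟨fun p h => h.1 rfl⟩ },
    fun p q => (if q.2 = p.2 then 1 else 0) + (if q.1 = p.1 then 1 else 0) -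
      (if q = p then 2 else 0), ?_, ?_, ?_, ?_, ?_⟩
  · simp
  · rintro ⟨i, j⟩ ⟨i', j'⟩ ⟨h1, h2⟩
    simp only [ne_eq, Prod.mk.injEq, not_and] at h1 h2 ⊢
    rcases h2 with h2 | h2
    · subst h2
      have : i' ≠ i := fun h => (h1 h.symm) rfl
      simp [this]
    · subst h2
      have : j' ≠ j := fun h => (h1 rfl) h.symm
      simp [this]
  · rintro ⟨i, j⟩ ⟨i', j'⟩ h
    simp only [ne_eq, Prod.mk.injEq, not_and, not_or] at h ⊢
    by_cases h1 : i' = i
    · by_cases h2 : j' = j
      · subst h1 h2; norm_num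
      · subst h1
        exact absurd rfl (h (fun hh => fun hh' => h2 hh'.symm)).2
    · by_cases h2 : j' = j
      · subst h2
        exact absurd rfl (h (fun hh => absurd hh.symm h1)).1
      · simp [h1, h2]
  · rintro ⟨i, j⟩
    rw [Finset.sum_sub_distrib, Finset.sum_add_distrib]
    have e1 : ∑ q : Fin a × Fin b, (if q.2 = j then (1 : ℝ) else 0) = a := by
      rw [Fintype.sum_prod_type]
      simp
    have e2 : ∑ q : Fin a × Fin b, (if q.1 = i then (1 : ℝ) else 0) = b := by
      rw [Fintype.sum_prod_type]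
      simp only
      rw [Finset.sum_comm]
      simp
    have e3 : ∑ q : Fin a × Fin b, (if q = (i, j) then (2 : ℝ) else 0) = 2 := by
      simp
    rw [e1, e2, e3]
    have : (a : ℝ) + b = D + 2 := by exact_mod_cast hab
    linarith
  · intro x
    have key : ∀ p : Fin a × Fin b, 2 * x p + ∑ q : Fin a × Fin b,
        ((if q.2 = p.2 then (1 : ℝ) else 0) + (if q.1 = p.1 then 1 else 0) -
        (if q = p then 2 else 0)) * x q = ∑ i, x (i, p.2) + ∑ j, x (p.1, j) := by
      rintro ⟨i, j⟩
      have e : ∀ q : Fin a × Fin b, ((if q.2 = j then (1 : ℝ) else 0) +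
          (if q.1 = i then 1 else 0) - (if q = (i, j) then 2 else 0)) * x q =
          (if q.2 = j then x q else 0) + (if q.1 = i then x q else 0) -
          (if q = (i, j) then 2 * x q else 0) := by
        intro q
        split_ifs <;> ring
      simp only [e]
      rw [Finset.sum_sub_distrib, Finset.sum_add_distrib]
      have e1 : ∑ q : Fin a × Fin b, (if q.2 = j then x q else 0) = ∑ i, x (i, j) := by
        rw [Fintype.sum_prod_type]
        simp
      have e2 : ∑ q : Fin a × Fin b, (if q.1 = i then x q else 0) = ∑ j, x (i, j) := by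
        rw [Fintype.sum_prod_type]
        simp only
        rw [Finset.sum_comm]
        simp
      have e3 : ∑ q : Fin a × Fin b, (if q = (i, j) then 2 * x q else 0) = 2 * x (i, j) := by
        simp
      rw [e1, e2, e3]
      ring
    have : ∑ p : Fin a × Fin b, x p * (2 * x p + ∑ q : Fin a × Fin b,
        ((if q.2 = p.2 then (1 : ℝ) else 0) + (if q.1 = p.1 then 1 else 0) -
        (if q = p then 2 else 0)) * x q) =
        ∑ j, (∑ i, x (i, j)) ^ 2 + ∑ i, (∑ j, x (i, j)) ^ 2 := by
      simp only [key, mul_add, Finset.sum_add_distrib]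
      congr 1
      · rw [Fintype.sum_prod_type, Finset.sum_comm]
        apply Finset.sum_congr rfl
        intro j _
        rw [sq, Finset.sum_mul]
      · rw [Fintype.sum_prod_type]
        apply Finset.sum_congr rfl
        intro i _
        rw [sq, Finset.sum_mul]
    rw [this]
    positivity

/-- cocktail party graphs -/
lemma rep_cp (k : ℕ) : Rep (2 * k) (2 * k + 2) := by
  refine ⟨Fin (k + 1) × Bool, inferInstance,
    { Adj := fun p q => q.1 ≠ p.1
      symm := ⟨fun p q h => Ne.symm h⟩
      loopless := ⟨fun p h => h rfl⟩ },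
    fun p q => 1 - (if q.1 = p.1 then 1 else 0), ?_, ?_, ?_, ?_, ?_⟩
  · simp; ring
  · rintro ⟨i, j⟩ ⟨i', j'⟩ h
    simp only [ne_eq] at h ⊢
    simp [h]
  · rintro ⟨i, j⟩ ⟨i', j'⟩ h
    simp only [ne_eq, not_not] at h ⊢
    simp [h]
  · rintro ⟨i, j⟩
    rw [Finset.sum_sub_distrib]
    have e1 : ∑ q : Fin (k + 1) × Bool, (if q.1 = i then (1 : ℝ) else 0) = 2 := by
      rw [Fintype.sum_prod_type]
      simp only
      rw [Finset.sum_comm]
      simp
    rw [e1]
    simp
    ring
  · intro x
    have key : ∀ p : Fin (k + 1) × Bool, 2 * x p + ∑ q : Fin (k + 1) × Bool,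
        (1 - (if q.1 = p.1 then (1 : ℝ) else 0)) * x q =
        2 * x p + ∑ q, x q - (x (p.1, true) + x (p.1, false)) := by
      rintro ⟨i, j⟩
      have e : ∀ q : Fin (k + 1) × Bool, (1 - (if q.1 = i then (1 : ℝ) else 0)) * x q =
          x q - (if q.1 = i then x q else 0) := by
        intro q
        split_ifs <;> ring
      simp only [e]
      rw [Finset.sum_sub_distrib]
      have e1 : ∑ q : Fin (k + 1) × Bool, (if q.1 = i then x q else 0) =
          x (i, true) + x (i, false) := by
        rw [Fintype.sum_prod_type]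
        simp only [Fintype.sum_bool]
        rw [Finset.sum_eq_single i]
        · simp
        · intro b _ hb
          simp [hb]
        · simp
      rw [e1]
      ring
    have : ∑ p : Fin (k + 1) × Bool, x p * (2 * x p + ∑ q : Fin (k + 1) × Bool,
        (1 - (if q.1 = p.1 then (1 : ℝ) else 0)) * x q) =
        (∑ q, x q) ^ 2 + ∑ i, (x (i, true) - x (i, false)) ^ 2 := by
      simp only [key]
      have e2 : ∀ p : Fin (k + 1) × Bool, x p * (2 * x p + ∑ q, x q -
          (x (p.1, true) + x (p.1, false))) = x p * ∑ q, x q +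
          x p * (2 * x p - (x (p.1, true) + x (p.1, false))) := by
        intro p; ring
      simp only [e2]
      rw [Finset.sum_add_distrib, ← Finset.sum_mul, ← sq]
      congr 1
      rw [Fintype.sum_prod_type]
      apply Finset.sum_congr rfl
      intro i _
      rw [Fintype.sum_bool]
      ring
    rw [this]
    positivity

/-- the component sizes used -/
def sizes (D : ℕ) : Set ℕ :=
  {m | ∃ a b : ℕ, 1 ≤ a ∧ 1 ≤ b ∧ a + b = D + 2 ∧ m = a * b} ∪ {m | Even D ∧ m = D + 2}

theorem rep_of_closure {D n : ℕ} (h : n ∈ AddSubmonoid.closure (sizes D)) : Rep D n := by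
  induction h using AddSubmonoid.closure_induction with
  | mem m hm =>
    rcases hm with ⟨a, b, _, _, hab, rfl⟩ | ⟨⟨k, hk⟩, hm⟩
    · exact rep_rook hab
    · have : D = 2 * k := by omega
      rw [hm, this]
      exact rep_cp k
  | zero => exact rep_zero D
  | add m n _ _ hm hn => exact rep_add hm hn

end Pool.Agent.H37.RE4
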