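import Pool.Agent.H37.RE4

/-!
Which numbers are sums of the component sizes `a * (D + 2 - a)` (and `D + 2` for even `D`).
-/

namespace Pool.Agent.H37.RE5

open Pool.Agent.H37.RE4

/-- `t` can be saved at cost `J` -/
def C (D J t : ℕ) : Prop := ∃ m ∈ AddSubmonoid.closure (sizes D), m + t = J * (D + 1)

lemma C_zero (D : ℕ) : C D 0 0 := ⟨0, AddSubmonoid.zero_mem _, by simp⟩

lemma C_add {D J t J' t' : ℕ} (h : C D J t) (h' : C D J' t') : C D (J + J') (t + t') := by
  obtain ⟨m, hm, e⟩ := h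
  obtain ⟨m', hm', e'⟩ := h'
  refine ⟨m + m', AddSubmonoid.add_mem _ hm hm', ?_⟩
  rw [add_mul, ← e, ← e']
  ring

lemma C_one {D a : ℕ} (h1 : 1 ≤ a) (h2 : a ≤ D + 1) : C D a (a * (a - 1)) := by
  obtain ⟨b, hb⟩ : ∃ b, a = b + 1 := ⟨a - 1, by omega⟩
  obtain ⟨c, hc⟩ : ∃ c, D + 1 = a + c := ⟨D + 1 - a, by omega⟩
  refine ⟨a * (c + 1), AddSubmonoid.subset_closure (Or.inl ⟨a, c + 1, h1, by omega, by omega,
    rfl⟩), ?_⟩
  rw [hc, hb]
  simp only [Nat.add_sub_cancel]
  ring

lemma C_fill {D J t : ℕ} (h : C D J t) (Q : ℕ) (hQ : J ≤ Q) : C D Q t := by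
  obtain ⟨k, rfl⟩ := Nat.exists_eq_add_of_le hQ
  clear hQ
  induction k with
  | zero => simpa using h
  | succ k ih =>
    have := C_add ih (C_one (D := D) (a := 1) le_rfl (by omega))
    simpa [add_assoc] using this

lemma P1 {D : ℕ} (hD : 1 ≤ D) (u : ℕ) : C D (2 * u) (2 * u) := by
  induction u with
  | zero => exact C_zero D
  | succ u ih =>
    have := C_add ih (C_one (D := D) (a := 2) (by omega) (by omega))
    simpa [mul_add] using this

lemma P2 {D t : ℕ} (hD : 1 ≤ D) (ht : Even t) (hs : Nat.sqrt t ≤ D) :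
    ∃ J, J ≤ 3 * Nat.sqrt t ∧ C D J t := by
  set s := Nat.sqrt t with hsdef
  have h1 : s * s ≤ t := Nat.sqrt_le t
  have h2 : t < (s + 1) * (s + 1) := Nat.lt_succ_sqrt t
  rcases Nat.eq_zero_or_pos s with h0 | h0
  · have : t = 0 := by
      rw [h0] at h2
      obtain ⟨k, hk⟩ := ht
      omega
    rw [this]
    exact ⟨0, by omega, C_zero D⟩
  · obtain ⟨u, hu⟩ := ht
    by_cases hc : s * (s + 1) ≤ t
    · have hev : Even (s * (s + 1)) := Nat.even_mul_succ_self s
      obtain ⟨w, hw⟩ := hev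
      have e : t = (s + 1) * (s + 1 - 1) + 2 * (u - w) := by
        simp only [Nat.add_sub_cancel]
        have : (s + 1) * s = s * (s + 1) := mul_comm _ _
        rw [this]; omega
      have hJ := C_add (C_one (D := D) (a := s + 1) (by omega) (by omega)) (P1 hD (u - w))
      rw [← e] at hJ
      refine ⟨_, ?_, hJ⟩
      have : 2 * (u - w) ≤ s := by
        have : t < s * (s + 1) + (s + 1) := by nlinarith
        omega
      omega
    · push Not at hc
      have hev : Even (s * (s - 1)) := Nat.even_mul_pred_self s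
      obtain ⟨w, hw⟩ := hev
      have h3 : s * (s - 1) + s = s * s := by
        obtain ⟨s', hs'⟩ : ∃ s', s = s' + 1 := ⟨s - 1, by omega⟩
        rw [hs']
        simp only [Nat.add_sub_cancel]
        ring
      have h4 : s * (s + 1) = s * s + s := by ring
      have e : t = s * (s - 1) + 2 * (u - w) := by omega
      have hJ := C_add (C_one (D := D) (a := s) (by omega) (by omega)) (P1 hD (u - w))
      rw [← e] at hJ
      refine ⟨_, ?_, hJ⟩
      omega

lemma P3 {D t : ℕ} (hD : 1 ≤ D) (ht : Even t) (hs : Nat.sqrt t ≤ D)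
    (hs2 : Nat.sqrt (2 * Nat.sqrt t) ≤ D) :
    ∃ J, J ≤ Nat.sqrt t + 1 + 3 * Nat.sqrt (2 * Nat.sqrt t) ∧ C D J t := by
  set s := Nat.sqrt t with hsdef
  have h1 : s * s ≤ t := Nat.sqrt_le t
  have h2 : t < (s + 1) * (s + 1) := Nat.lt_succ_sqrt t
  rcases Nat.eq_zero_or_pos s with h0 | h0
  · have : t = 0 := by
      rw [h0] at h2
      obtain ⟨k, hk⟩ := ht
      omega
    rw [this]
    exact ⟨0, by omega, C_zero D⟩
  · by_cases hc : s * (s + 1) ≤ t
    · have hr : t - s * (s + 1) ≤ 2 * s := by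
        have : t < s * (s + 1) + (s + 1) := by nlinarith
        omega
      have hev : Even (t - s * (s + 1)) := by
        rw [Nat.even_sub hc]
        simp [ht, Nat.even_mul_succ_self s]
      have hq : Nat.sqrt (t - s * (s + 1)) ≤ Nat.sqrt (2 * s) := Nat.sqrt_le_sqrt hr
      obtain ⟨J, hJ1, hJ2⟩ := P2 (D := D) hD hev (hq.trans hs2)
      have hJ := C_add (C_one (D := D) (a := s + 1) (by omega) (by omega)) hJ2
      have e : (s + 1) * (s + 1 - 1) + (t - s * (s + 1)) = t := by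
        simp only [Nat.add_sub_cancel]
        have : (s + 1) * s = s * (s + 1) := mul_comm _ _
        rw [this]; omega
      rw [e] at hJ
      exact ⟨_, by omega, hJ⟩
    · push Not at hc
      have h3 : s * (s - 1) + s = s * s := by
        obtain ⟨s', hs'⟩ : ∃ s', s = s' + 1 := ⟨s - 1, by omega⟩
        rw [hs']
        simp only [Nat.add_sub_cancel]
        ring
      have h4 : s * (s + 1) = s * s + s := by ring
      have hle : s * (s - 1) ≤ t := by omega
      have hr : t - s * (s - 1) ≤ 2 * s := by omega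
      have hev : Even (t - s * (s - 1)) := by
        rw [Nat.even_sub hle]
        simp [ht, Nat.even_mul_pred_self s]
      have hq : Nat.sqrt (t - s * (s - 1)) ≤ Nat.sqrt (2 * s) := Nat.sqrt_le_sqrt hr
      obtain ⟨J, hJ1, hJ2⟩ := P2 (D := D) hD hev (hq.trans hs2)
      have hJ := C_add (C_one (D := D) (a := s) (by omega) (by omega)) hJ2
      have e : s * (s - 1) + (t - s * (s - 1)) = t := by omega
      rw [e] at hJ
      exact ⟨_, by omega, hJ⟩

/-- the cost bound for `t ≤ D + 1` -/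
lemma P4 {D t : ℕ} (hD : 3 ≤ D) (ht : Even t) (htD : t ≤ D + 1) :
    ∃ J, J ≤ Nat.sqrt (D + 1) + 1 + 3 * Nat.sqrt (2 * Nat.sqrt (D + 1)) ∧ C D J t := by
  have h1 : Nat.sqrt t ≤ Nat.sqrt (D + 1) := Nat.sqrt_le_sqrt htD
  have h2 : Nat.sqrt (D + 1) ≤ D := by
    rw [← Nat.lt_succ_iff, Nat.sqrt_lt]
    nlinarith
  have h3 : Nat.sqrt (2 * Nat.sqrt t) ≤ Nat.sqrt (2 * Nat.sqrt (D + 1)) :=
    Nat.sqrt_le_sqrt (by omega)
  have h4 : Nat.sqrt (2 * Nat.sqrt (D + 1)) ≤ D := by
    rw [← Nat.lt_succ_iff, Nat.sqrt_lt]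
    nlinarith
  obtain ⟨J, hJ, hC⟩ := P3 (D := D) (by omega) ht (h1.trans h2) (h3.trans h4)
  exact ⟨J, by omega, hC⟩

/-- general filling lemma -/
lemma mem_of_cost {D n T : ℕ} (hev : Even (n * D)) (hD : 3 ≤ D)
    (hcost : ∀ t, Even t → t ≤ D + 1 → ∃ J, J ≤ T ∧ C D J t)
    (hn : (D + 1) * (T + 1) ≤ n) : n ∈ AddSubmonoid.closure (sizes D) := by
  obtain ⟨Q, t, hQt, ht⟩ : ∃ Q t, n + t = Q * (D + 1) ∧ t ≤ D := by
    refine ⟨(n + D) / (D + 1), D - (n + D) % (D + 1), ?_, by omega⟩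
    have h1 := Nat.div_add_mod (n + D) (D + 1)
    have h2 := Nat.mod_lt (n + D) (show 0 < D + 1 by omega)
    have h3 : (n + D) / (D + 1) * (D + 1) = (D + 1) * ((n + D) / (D + 1)) := mul_comm _ _
    have h4 : (n + D) % (D + 1) ≤ D := by omega
    rw [h3]
    omega
  have hQ : T + 1 ≤ Q := by
    have : (D + 1) * (T + 1) ≤ Q * (D + 1) := by omega
    rw [mul_comm Q] at this
    exact Nat.le_of_mul_le_mul_left this (by omega)
  rcases Nat.even_or_odd t with het | hot
  · obtain ⟨J, hJ, hC⟩ := hcost t het (by omega)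
    obtain ⟨m, hm, e⟩ := C_fill hC Q (by omega)
    have : m = n := by omega
    rwa [this] at hm
  · rcases Nat.even_or_odd D with hDe | hDo
    · obtain ⟨J, hJ, hC⟩ := hcost (t + 1) (by
        obtain ⟨k, hk⟩ := hot
        exact ⟨k + 1, by omega⟩) (by omega)
      obtain ⟨m, hm, e⟩ := C_fill hC (Q - 1) (by omega)
      have h1 : (Q - 1) * (D + 1) + (D + 1) = Q * (D + 1) := by
        obtain ⟨Q', hQ'⟩ : ∃ Q', Q = Q' + 1 := ⟨Q - 1, by omega⟩
        rw [hQ']
        simp only [Nat.add_sub_cancel]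
        ring
      have h2 : n = (D + 2) + m := by omega
      rw [h2]
      exact AddSubmonoid.add_mem _ (AddSubmonoid.subset_closure (Or.inr ⟨hDe, rfl⟩)) hm
    · exfalso
      have hne : Even n := by
        rw [Nat.even_mul] at hev
        rcases hev with h | h
        · exact h
        · exact absurd h (Nat.not_even_iff_odd.2 hDo)
      have : Even (Q * (D + 1)) := by
        apply Even.mul_left
        exact hDo.add_one
      rw [← hQt] at this
      obtain ⟨a, ha⟩ := this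
      obtain ⟨b, hb⟩ := hne
      obtain ⟨c, hc⟩ := hot
      omega

theorem mem_sqrt {D n : ℕ} (hev : Even (n * D)) (hD : 3 ≤ D)
    (hn : (D + 1) * (Nat.sqrt (D + 1) + 3 * Nat.sqrt (2 * Nat.sqrt (D + 1)) + 2) ≤ n) :
    n ∈ AddSubmonoid.closure (sizes D) :=
  mem_of_cost (T := Nat.sqrt (D + 1) + 1 + 3 * Nat.sqrt (2 * Nat.sqrt (D + 1))) hev hD
    (fun _ h1 h2 => P4 hD h1 h2) (le_trans (Nat.mul_le_mul_left _ (by omega)) hn)

/-- even `D` -/
theorem mem_even {D n : ℕ} (hDe : Even D) (hn : D * (D + 1) ≤ n) :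
    n ∈ AddSubmonoid.closure (sizes D) := by
  have h1 := Nat.div_add_mod n (D + 1)
  have h2 := Nat.mod_lt n (show 0 < D + 1 by omega)
  have h3 : D ≤ n / (D + 1) := by
    rw [Nat.le_div_iff_mul_le (by omega)]
    exact hn
  obtain ⟨k, hk⟩ := Nat.exists_eq_add_of_le (show n % (D + 1) ≤ n / (D + 1) by omega)
  have e : n = (n % (D + 1)) • (D + 2) + k • (D + 1) := by
    rw [smul_eq_mul, smul_eq_mul]
    rw [hk] at h1
    calc n = (D + 1) * (n % (D + 1) + k) + n % (D + 1) := h1.symm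
      _ = _ := by ring
  rw [e]
  have hA : D + 2 ∈ AddSubmonoid.closure (sizes D) :=
    AddSubmonoid.subset_closure (Or.inr ⟨hDe, rfl⟩)
  have hB : D + 1 ∈ AddSubmonoid.closure (sizes D) :=
    AddSubmonoid.subset_closure (Or.inl ⟨1, D + 1, le_rfl, by omega, by omega, by simp⟩)
  exact AddSubmonoid.add_mem _ ((AddSubmonoid.closure (sizes D)).nsmul_mem hA _)
    ((AddSubmonoid.closure (sizes D)).nsmul_mem hB _)

/-- odd `D` -/
theorem mem_odd {D n : ℕ} (hD : 3 ≤ D) (hDo : Odd D) (hne : Even n) (hn : D * (D - 1) ≤ n) :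
    n ∈ AddSubmonoid.closure (sizes D) := by
  obtain ⟨Q, t, hQt, ht⟩ : ∃ Q t, n + t = Q * (D + 1) ∧ t ≤ D := by
    refine ⟨(n + D) / (D + 1), D - (n + D) % (D + 1), ?_, by omega⟩
    have h1 := Nat.div_add_mod (n + D) (D + 1)
    have h2 := Nat.mod_lt (n + D) (show 0 < D + 1 by omega)
    have h3 : (n + D) / (D + 1) * (D + 1) = (D + 1) * ((n + D) / (D + 1)) := mul_comm _ _
    have h4 : (n + D) % (D + 1) ≤ D := by omega
    rw [h3]
    omega
  have hte : Even t := by
    have : Even (Q * (D + 1)) := by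
      apply Even.mul_left
      exact hDo.add_one
    rw [← hQt] at this
    obtain ⟨a, ha⟩ := this
    obtain ⟨b, hb⟩ := hne
    exact ⟨a - b, by omega⟩
  obtain ⟨u, hu⟩ := hte
  have hQ : t ≤ Q := by
    by_contra hlt
    push Not at hlt
    obtain ⟨D', hD'⟩ : ∃ D', D = D' + 1 := ⟨D - 1, by omega⟩
    subst hD'
    simp only [Nat.add_sub_cancel] at hn
    obtain ⟨c, hc⟩ := hDo
    have ht2 : t ≤ D' := by omega
    have h5 : Q + 1 ≤ D' := by omega
    nlinarith
  have hP := P1 (D := D) (by omega) u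
  have : t = 2 * u := by omega
  rw [← this] at hP
  obtain ⟨m, hm, e⟩ := C_fill hP Q hQ
  have : m = n := by omega
  rwa [this] at hm

/-- degree four -/
theorem mem_four (n : ℕ) (hn : 8 ≤ n) : n ∈ AddSubmonoid.closure (sizes 4) := by
  have s5 : 5 ∈ AddSubmonoid.closure (sizes 4) :=
    AddSubmonoid.subset_closure (Or.inl ⟨1, 5, by omega, by omega, by omega, by omega⟩)
  have s6 : 6 ∈ AddSubmonoid.closure (sizes 4) :=
    AddSubmonoid.subset_closure (Or.inr ⟨⟨2, rfl⟩, rfl⟩)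
  have s8 : 8 ∈ AddSubmonoid.closure (sizes 4) :=
    AddSubmonoid.subset_closure (Or.inl ⟨2, 4, by omega, by omega, by omega, by omega⟩)
  have s9 : 9 ∈ AddSubmonoid.closure (sizes 4) :=
    AddSubmonoid.subset_closure (Or.inl ⟨3, 3, by omega, by omega, by omega, by omega⟩)
  induction n using Nat.strong_induction_on with
  | _ n ih =>
    by_cases h13 : 13 ≤ n
    · have := AddSubmonoid.add_mem _ (ih (n - 5) (by omega) (by omega)) s5
      rwa [Nat.sub_add_cancel (by omega)] at this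
    · have h : n = 8 ∨ n = 9 ∨ n = 10 ∨ n = 11 ∨ n = 12 := by omega
      rcases h with rfl | rfl | rfl | rfl | rfl
      · exact s8
      · exact s9
      · exact AddSubmonoid.add_mem _ s5 s5
      · exact AddSubmonoid.add_mem _ s5 s6
      · exact AddSubmonoid.add_mem _ s6 s6

end Pool.Agent.H37.RE5
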