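import Pool.Agent.H37.RE5

/-!
The smallest eigenvalue.
-/

namespace Pool.Agent.H37.RE6

open Pool.Agent.H37.RE0

open Matrix Finset Pool.Agent.H37.RE2 Pool.Agent.H37.RE3 Pool.Agent.H37.RE4

section
variable {V : Type} [Fintype V] [DecidableEq V] (G : SimpleGraph V) [DecidableRel G.Adj]

lemma adj_herm : (G.adjMatrix ℝ).IsHermitian := by
  rw [Matrix.IsHermitian, Matrix.conjTranspose_eq_transpose_of_trivial,
    SimpleGraph.transpose_adjMatrix]

lemma spec_shift (r : ℝ) : r ∈ spectrum ℝ (G.adjMatrix ℝ) ↔ r + 2 ∈ spectrum ℝ (MM G) := by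
  have h := spectrum.add_mem_add_iff (R := ℝ) (a := G.adjMatrix ℝ) (r := r) (s := 2)
  rw [← h, MM, add_comm (G.adjMatrix ℝ), Algebra.algebraMap_eq_smul_one]

lemma spec_bdd : BddBelow (spectrum ℝ (G.adjMatrix ℝ)) := by
  rw [(adj_herm G).spectrum_real_eq_range_eigenvalues]
  exact (Set.finite_range _).bddBelow

lemma spec_ne [Nonempty V] : (spectrum ℝ (G.adjMatrix ℝ)).Nonempty := by
  rw [(adj_herm G).spectrum_real_eq_range_eigenvalues]
  exact Set.range_nonempty _

lemma le_of_not_posDef (h : ¬ (MM G).PosDef) : sInf (spectrum ℝ (G.adjMatrix ℝ)) ≤ -2 := by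
  rw [(MM_herm G).posDef_iff_eigenvalues_pos] at h
  push Not at h
  obtain ⟨i, hi⟩ := h
  have h1 : (MM_herm G).eigenvalues i ∈ spectrum ℝ (MM G) := by
    rw [(MM_herm G).spectrum_real_eq_range_eigenvalues]
    exact ⟨i, rfl⟩
  have h2 : (MM_herm G).eigenvalues i - 2 ∈ spectrum ℝ (G.adjMatrix ℝ) := by
    rw [spec_shift]
    simpa using h1
  have := csInf_le (spec_bdd G) h2
  linarith

lemma ge_of_form [Nonempty V] (h : ∀ x : V → ℝ, 0 ≤ x ⬝ᵥ (MM G *ᵥ x)) :
    -2 ≤ sInf (spectrum ℝ (G.adjMatrix ℝ)) := by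
  have hps : (MM G).PosSemidef := Matrix.PosSemidef.of_dotProduct_mulVec_nonneg (MM_herm G)
    (by intro x; simpa using h x)
  apply le_csInf (spec_ne G)
  intro r hr
  rw [spec_shift, (MM_herm G).spectrum_real_eq_range_eigenvalues] at hr
  obtain ⟨i, hi⟩ := hr
  have := hps.eigenvalues_nonneg i
  linarith

lemma form_eq (x : V → ℝ) : x ⬝ᵥ (MM G *ᵥ x) =
    ∑ v, x v * (2 * x v + ∑ w, (if G.Adj v w then (1 : ℝ) else 0) * x w) := by
  rw [dotProduct]
  apply Finset.sum_congr rfl
  intro v _
  congr 1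
  rw [MM, Matrix.add_mulVec, Pi.add_apply, Matrix.smul_mulVec, Matrix.one_mulVec]
  simp only [Matrix.mulVec, dotProduct, SimpleGraph.adjMatrix_apply, Pi.smul_apply, smul_eq_mul]
  ring

lemma card_of_reg {D : ℕ} (h : Reg G D) (v : V) : (G.neighborFinset v).card = D := by
  rw [← h v, ← Set.ncard_coe_finset]
  simp

end

lemma lamMin_eq {V : Type} [Fintype V] [DecidableEq V] (G : SimpleGraph V)
    [inst : DecidableRel G.Adj] : lamMin G = sInf (spectrum ℝ (G.adjMatrix ℝ)) := by
  unfold lamMin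
  have h : (fun a b => Classical.propDecidable (G.Adj a b)) = inst := Subsingleton.elim _ _
  rw [h]

/-- upper bound -/
theorem upper {D n : ℕ} (hD : 3 ≤ D) (G : SimpleGraph (Fin n)) (hreg : Reg G D)
    (hn : ¬ (D + 1) ∣ n) : lamMin G ≤ -2 := by
  classical
  have h : ¬ (MM G).PosDef := by
    intro hp
    have := dvd_of_posDef G hp D hD (card_of_reg G hreg)
    rw [Fintype.card_fin] at this
    exact hn this
  have := le_of_not_posDef G h
  rwa [← lamMin_eq] at this

/-- lower bound -/
theorem lower {D n : ℕ} (hn : 0 < n) (h : Rep D n) :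
    ∃ G : SimpleGraph (Fin n), Reg G D ∧ -2 ≤ lamMin G := by
  classical
  obtain ⟨V, iV, G, a, hc, h1, h0, hs, hf⟩ := h
  have e : V ≃ Fin n := Fintype.equivFinOfCardEq hc
  have ha : ∀ v w, a v w = if G.Adj v w then 1 else 0 := by
    intro v w
    split_ifs with hvw
    · exact h1 v w hvw
    · exact h0 v w hvw
  have : Nonempty (Fin n) := ⟨⟨0, hn⟩⟩
  refine ⟨G.comap e.symm, ?_, ?_⟩
  · intro v
    have h2 := hs (e.symm v)
    simp only [ha] at h2
    rw [Finset.sum_boole] at h2
    have h3 : (Finset.univ.filter (fun w => G.Adj (e.symm v) w)).card = D := by exact_mod_cast h2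
    have h4 : ((G.comap e.symm).neighborSet v) =
        ((Finset.univ.filter (fun w => G.Adj (e.symm v) w)).map e.toEmbedding : Finset (Fin n)) := by
      ext w
      simp only [SimpleGraph.mem_neighborSet, SimpleGraph.comap_adj, Finset.coe_map,
        Set.mem_image, Finset.mem_coe, Finset.mem_filter, Finset.mem_univ, true_and,
        Equiv.coe_toEmbedding]
      constructor
      · intro hh
        exact ⟨e.symm w, hh, by simp⟩
      · rintro ⟨u, hu, rfl⟩
        simpa using hu
    rw [h4, Set.ncard_coe_finset, Finset.card_map, h3]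
  · have h5 : ∀ x : Fin n → ℝ, 0 ≤ x ⬝ᵥ (MM (G.comap e.symm) *ᵥ x) := by
      intro x
      rw [form_eq]
      have h6 := hf (fun v => x (e v))
      simp only [ha] at h6
      have h7 : ∑ v : Fin n, x v * (2 * x v + ∑ w : Fin n,
          (if (G.comap e.symm).Adj v w then (1 : ℝ) else 0) * x w) =
          ∑ v : V, x (e v) * (2 * x (e v) + ∑ w : V,
          (if G.Adj v w then (1 : ℝ) else 0) * x (e w)) := by
        rw [← Equiv.sum_comp e]
        apply Finset.sum_congr rfl
        intro v _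
        have h8 : ∑ w : Fin n, (if (G.comap e.symm).Adj (e v) w then (1 : ℝ) else 0) * x w =
            ∑ w : V, (if G.Adj v w then (1 : ℝ) else 0) * x (e w) := by
          rw [← Equiv.sum_comp e]
          apply Finset.sum_congr rfl
          intro w _
          by_cases hvw : G.Adj v w
          · have hvw' : (G.comap e.symm).Adj (e v) (e w) := by simpa using hvw
            rw [if_pos hvw, if_pos hvw']
          · have hvw' : ¬ (G.comap e.symm).Adj (e v) (e w) := by simpa using hvw
            rw [if_neg hvw, if_neg hvw']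
        rw [h8]
      rw [h7]
      exact h6
    have := ge_of_form (G.comap e.symm) h5
    rwa [← lamMin_eq] at this

theorem greatest {D n : ℕ} (hD : 3 ≤ D) (hn : ¬ (D + 1) ∣ n) (h : Rep D n) :
    IsGreatest {t : ℝ | ∃ G : SimpleGraph (Fin n), Reg G D ∧ lamMin G = t} (-2) := by
  have hn0 : 0 < n := by
    rcases Nat.eq_zero_or_pos n with h0 | h0
    · subst h0
      exact absurd (dvd_zero _) hn
    · exact h0
  constructor
  · obtain ⟨G, hG, hl⟩ := lower hn0 h
    exact ⟨G, hG, le_antisymm (upper hD G hG hn) hl⟩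
  · rintro t ⟨G, hG, rfl⟩
    exact upper hD G hG hn

end Pool.Agent.H37.RE6
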