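import Pool.Agent.H37.RE6

/-!
Gaps: orders for which every `D`-regular graph has smallest eigenvalue below `-2`.
-/

namespace Pool.Agent.H37.RE7

open Pool.Agent.H37.RE0

open Matrix Finset Pool.Agent.H37.RE2 Pool.Agent.H37.RE3 Pool.Agent.H37.RE4 Pool.Agent.H37.RE6

lemma bound_six {ι κ : Type*} [Fintype κ] [DecidableEq ι] (S : Finset ι) (z : ι → (κ → ℝ))
    (h : κ → ℝ) (s : ℝ) (hs : s ^ 2 = 1 / 4) (hz : ∀ c ∈ S, z c ⬝ᵥ z c = 1)
    (ho : ∀ c ∈ S, ∀ c' ∈ S, c ≠ c' → z c ⬝ᵥ z c' = 0) (hh : ∀ c ∈ S, h ⬝ᵥ z c = s)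
    (hn : h ⬝ᵥ h = 3 / 2) : S.card ≤ 6 := by
  set Z : κ → ℝ := ∑ c ∈ S, z c with hZ
  have e1 : h ⬝ᵥ Z = S.card * s := by
    rw [hZ, dotProduct_sum, Finset.sum_congr rfl hh]
    simp
  have e2 : Z ⬝ᵥ Z = S.card := by
    rw [hZ, sum_dotProduct]
    have : ∀ c ∈ S, z c ⬝ᵥ (∑ c' ∈ S, z c') = 1 := by
      intro c hc
      rw [dotProduct_sum, Finset.sum_eq_single_of_mem c hc, hz c hc]
      intro b hb hbc
      exact ho c hc b hb (Ne.symm hbc)
    rw [Finset.sum_congr rfl this]
    simp
  have e3 : 0 ≤ (h - s • Z) ⬝ᵥ (h - s • Z) := by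
    rw [dotProduct]
    exact Finset.sum_nonneg (fun i _ => mul_self_nonneg _)
  have e4 : (h - s • Z) ⬝ᵥ (h - s • Z) = 3 / 2 - s ^ 2 * S.card := by
    rw [sub_dotProduct, dotProduct_sub, dotProduct_sub, smul_dotProduct, smul_dotProduct,
      dotProduct_smul, dotProduct_smul, dotProduct_comm Z h, e1, e2, hn]
    simp only [smul_eq_mul]
    ring
  rw [e4, hs] at e3
  have : (S.card : ℝ) ≤ 6 := by linarith
  exact_mod_cast this

section
variable {V : Type} [Fintype V] [DecidableEq V] (G : SimpleGraph V) [DecidableRel G.Adj]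

/-- Gram vectors -/
lemma gram (h : (MM G).PosSemidef) :
    ∃ (m : ℕ) (X : V → (Fin m → ℝ)), ∀ v w, X v ⬝ᵥ X w = MM G v w := by
  obtain ⟨m, b, hb⟩ := Matrix.posSemidef_iff_eq_sum_vecMulVec.1 h
  refine ⟨m, fun v i => b i v, fun v w => ?_⟩
  rw [hb, Matrix.sum_apply]
  simp [dotProduct, Matrix.vecMulVec_apply]

variable {G}
variable {κ : Type} [Fintype κ] {X : V → (κ → ℝ)} (hX : ∀ v w, X v ⬝ᵥ X w = MM G v w)
include hX

lemma x_self (v : V) : X v ⬝ᵥ X v = 2 := by
  rw [hX, MM_apply]; simp

lemma x_adj {v w : V} (h : G.Adj v w) : X v ⬝ᵥ X w = 1 := by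
  rw [hX, MM_apply]; simp [h, h.ne]

lemma x_nadj {v w : V} (h : ¬ G.Adj v w) (hne : v ≠ w) : X v ⬝ᵥ X w = 0 := by
  rw [hX, MM_apply]; simp [h, hne]

lemma x_inj {v w : V} (h : X v = X w) : v = w := by
  by_contra hne
  have h1 := x_self hX v
  nth_rw 2 [h] at h1
  by_cases ha : G.Adj v w
  · rw [x_adj hX ha] at h1; norm_num at h1
  · rw [x_nadj hX ha hne] at h1; norm_num at h1

/-- non-adjacent vertices with different neighbourhoods have at most 12 common neighbours -/
lemma common_le {u v w : V} (huv : u ≠ v) (nuv : ¬ G.Adj u v) (huw : G.Adj u w)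
    (nvw : ¬ G.Adj v w) : (G.neighborFinset u ∩ G.neighborFinset v).card ≤ 12 := by
  have hvw : v ≠ w := by
    rintro rfl
    exact nuv huw
  set Cm := G.neighborFinset u ∩ G.neighborFinset v with hC
  have memC : ∀ c, c ∈ Cm ↔ G.Adj u c ∧ G.Adj v c := by intro c; simp [hC]
  set z : V → (κ → ℝ) := fun c => X c - (1 / 2 : ℝ) • (X u + X v) with hz
  set h : κ → ℝ := X w - (1 / 2 : ℝ) • X u with hh
  have zz : ∀ c ∈ Cm, ∀ c' ∈ Cm, z c ⬝ᵥ z c' = X c ⬝ᵥ X c' - 1 := by
    intro c hc c' hc'
    have h1 := (memC c).1 hc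
    have h2 := (memC c').1 hc'
    simp only [hz, sub_dotProduct, dotProduct_sub, smul_dotProduct, dotProduct_smul,
      add_dotProduct, dotProduct_add, smul_eq_mul]
    rw [x_adj hX h1.1.symm, x_adj hX h1.2.symm, x_adj hX h2.1, x_adj hX h2.2, x_self hX u,
      x_self hX v, x_nadj hX nuv huv, x_nadj hX (fun hh => nuv hh.symm) (Ne.symm huv)]
    ring
  have hzc : ∀ c ∈ Cm, h ⬝ᵥ z c = X w ⬝ᵥ X c - 1 / 2 := by
    intro c hc
    have h1 := (memC c).1 hc
    simp only [hz, hh, sub_dotProduct, dotProduct_sub, smul_dotProduct, dotProduct_smul,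
      add_dotProduct, dotProduct_add, smul_eq_mul]
    rw [x_adj hX h1.1, x_adj hX huw.symm, x_nadj hX (fun hh => nvw hh.symm) (Ne.symm hvw),
      x_self hX u, x_nadj hX nuv huv]
    ring
  have hhn : h ⬝ᵥ h = 3 / 2 := by
    simp only [hh, sub_dotProduct, dotProduct_sub, smul_dotProduct, dotProduct_smul,
      smul_eq_mul]
    rw [x_self hX w, x_adj hX huw.symm, x_adj hX huw, x_self hX u]
    ring
  have hz1 : ∀ c ∈ Cm, z c ⬝ᵥ z c = 1 := by
    intro c hc
    rw [zz c hc c hc, x_self hX]; norm_num
  have horth : ∀ s : ℝ, s ≠ 0 → ∀ c ∈ Cm, ∀ c' ∈ Cm, h ⬝ᵥ z c = s → h ⬝ᵥ z c' = s → c ≠ c' →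
      z c ⬝ᵥ z c' = 0 := by
    intro s hs c hc c' hc' e1 e2 hne
    by_cases ha : G.Adj c c'
    · rw [zz c hc c' hc', x_adj hX ha]; norm_num
    · exfalso
      have h1 : z c ⬝ᵥ z c' = -1 := by
        rw [zz c hc c' hc', x_nadj hX ha hne]; norm_num
      have h2 : (z c + z c') ⬝ᵥ (z c + z c') = 0 := by
        rw [add_dotProduct, dotProduct_add, dotProduct_add, hz1 c hc, hz1 c' hc',
          dotProduct_comm (z c') (z c), h1]
        norm_num
      have h3 : z c + z c' = 0 := dotProduct_self_eq_zero.1 h2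
      have h4 : h ⬝ᵥ (z c + z c') = 0 := by rw [h3, dotProduct_zero]
      rw [dotProduct_add, e1, e2] at h4
      apply hs
      linarith
  have hp : (Cm.filter (fun c => G.Adj w c)).card ≤ 6 := by
    have hval : ∀ c ∈ Cm.filter (fun c => G.Adj w c), h ⬝ᵥ z c = 1 / 2 := by
      intro c hc
      rw [Finset.mem_filter] at hc
      rw [hzc c hc.1, x_adj hX hc.2]; norm_num
    refine bound_six _ z h (1 / 2) (by norm_num) (fun c hc => hz1 c (Finset.mem_filter.1 hc).1)
      (fun c hc c' hc' hne => horth (1 / 2) (by norm_num) c (Finset.mem_filter.1 hc).1 c'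
        (Finset.mem_filter.1 hc').1 (hval c hc) (hval c' hc') hne) hval hhn
  have hm : (Cm.filter (fun c => ¬ G.Adj w c)).card ≤ 6 := by
    have hval : ∀ c ∈ Cm.filter (fun c => ¬ G.Adj w c), h ⬝ᵥ z c = -(1 / 2) := by
      intro c hc
      rw [Finset.mem_filter] at hc
      have hwc : w ≠ c := by
        rintro rfl
        exact nvw ((memC _).1 hc.1).2
      rw [hzc c hc.1, x_nadj hX hc.2 hwc]; norm_num
    refine bound_six _ z h (-(1 / 2)) (by norm_num)
      (fun c hc => hz1 c (Finset.mem_filter.1 hc).1)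
      (fun c hc c' hc' hne => horth (-(1 / 2)) (by norm_num) c (Finset.mem_filter.1 hc).1 c'
        (Finset.mem_filter.1 hc').1 (hval c hc) (hval c' hc') hne) hval hhn
  have := Finset.card_filter_add_card_filter_not (s := Cm) (fun c => G.Adj w c)
  omega

/-- a vertex has at most one twin -/
lemma twins {D : ℕ} (hD : 1 ≤ D) (hreg : ∀ v, (G.neighborFinset v).card = D) {u v v' : V}
    (huv : u ≠ v) (huv' : u ≠ v') (h : G.neighborFinset v = G.neighborFinset u)
    (h' : G.neighborFinset v' = G.neighborFinset u) : v' = v := by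
  by_contra hne
  obtain ⟨c, hc⟩ : (G.neighborFinset u).Nonempty := by
    rw [← Finset.card_pos, hreg]; omega
  have huc : G.Adj u c := by simpa using hc
  have hvc : G.Adj v c := by rw [← h] at hc; simpa using hc
  have hv'c : G.Adj v' c := by rw [← h'] at hc; simpa using hc
  have nuv : ¬ G.Adj u v := by
    intro ha
    have : v ∈ G.neighborFinset v := by rw [h]; simpa using ha
    simp at this
  have nuv' : ¬ G.Adj u v' := by
    intro ha
    have : v' ∈ G.neighborFinset v' := by rw [h']; simpa using ha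
    simp at this
  -- the non-neighbours of c inside N(u)
  set B := (G.neighborFinset u).filter (fun d => d ≠ c ∧ ¬ G.Adj c d) with hB
  have hXd : ∀ d ∈ B, X d = X u + X v - X c := by
    intro d hd
    rw [hB, Finset.mem_filter] at hd
    obtain ⟨hd1, hd2, hd3⟩ := hd
    have hud : G.Adj u d := by simpa using hd1
    have hvd : G.Adj v d := by rw [← h] at hd1; simpa using hd1
    have hzero : (X d + X c - (X u + X v)) ⬝ᵥ (X d + X c - (X u + X v)) = 0 := by
      simp only [sub_dotProduct, dotProduct_sub, add_dotProduct, dotProduct_add]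
      rw [x_self hX, x_self hX, x_self hX, x_self hX, x_adj hX hud, x_adj hX hud.symm,
        x_adj hX hvd, x_adj hX hvd.symm, x_adj hX huc, x_adj hX huc.symm, x_adj hX hvc,
        x_adj hX hvc.symm, x_nadj hX nuv huv, x_nadj hX (fun hh => nuv hh.symm) (Ne.symm huv),
        x_nadj hX hd3 (Ne.symm hd2), x_nadj hX (fun hh => hd3 hh.symm) hd2]
      norm_num
    have := dotProduct_self_eq_zero.1 hzero
    have h2 : X d + X c = X u + X v := sub_eq_zero.1 this
    rw [← h2]
    abel
  have hB1 : B.card ≤ 1 := by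
    rw [Finset.card_le_one]
    intro d hd d' hd'
    exact x_inj hX ((hXd d hd).trans (hXd d' hd').symm)
  have hsplit : G.neighborFinset u = insert c (B ∪ (G.neighborFinset u ∩ G.neighborFinset c)) := by
    ext d
    simp only [hB, Finset.mem_insert, Finset.mem_union, Finset.mem_filter, Finset.mem_inter,
      SimpleGraph.mem_neighborFinset]
    constructor
    · intro hd
      by_cases h1 : d = c
      · exact Or.inl h1
      · by_cases h2 : G.Adj c d
        · exact Or.inr (Or.inr ⟨hd, h2⟩)
        · exact Or.inr (Or.inl ⟨hd, h1, h2⟩)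
    · rintro (rfl | ⟨h1, _⟩ | ⟨h1, _⟩)
      · exact huc
      · exact h1
      · exact h1
  have hcard1 : D ≤ 1 + 1 + (G.neighborFinset u ∩ G.neighborFinset c).card := by
    have e1 : (G.neighborFinset u).card ≤
        (B ∪ (G.neighborFinset u ∩ G.neighborFinset c)).card + 1 := by
      nth_rw 1 [hsplit]
      exact Finset.card_insert_le _ _
    have e2 := Finset.card_union_le B (G.neighborFinset u ∩ G.neighborFinset c)
    rw [hreg] at e1
    omega
  have hsub : ({u, v, v'} : Finset V) ∪ (G.neighborFinset u ∩ G.neighborFinset c) ⊆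
      G.neighborFinset c := by
    intro d hd
    simp only [Finset.mem_union, Finset.mem_insert, Finset.mem_singleton, Finset.mem_inter,
      SimpleGraph.mem_neighborFinset] at hd ⊢
    rcases hd with (rfl | rfl | rfl) | ⟨_, h2⟩
    · exact huc.symm
    · exact hvc.symm
    · exact hv'c.symm
    · exact h2
  have hdisj : Disjoint ({u, v, v'} : Finset V) (G.neighborFinset u ∩ G.neighborFinset c) := by
    rw [Finset.disjoint_left]
    intro d hd hd2
    simp only [Finset.mem_insert, Finset.mem_singleton, Finset.mem_inter,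
      SimpleGraph.mem_neighborFinset] at hd hd2
    rcases hd with rfl | rfl | rfl
    · exact G.loopless.irrefl _ hd2.1
    · exact nuv hd2.1
    · exact nuv' hd2.1
  have hcard3 : ({u, v, v'} : Finset V).card = 3 :=
    Finset.card_eq_three.2 ⟨u, v, v', huv, huv', fun hh => hne hh.symm, rfl⟩
  have := Finset.card_le_card hsub
  rw [Finset.card_union_of_disjoint hdisj, hcard3, hreg] at this
  omega

omit hX in
lemma exists_diff {D : ℕ} (hreg : ∀ v, (G.neighborFinset v).card = D) {u v : V}
    (h : G.neighborFinset u ≠ G.neighborFinset v) : ∃ w, G.Adj u w ∧ ¬ G.Adj v w := by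
  by_contra hcon
  push Not at hcon
  apply h
  apply Finset.eq_of_subset_of_card_le
  · intro w hw
    simpa using hcon w (by simpa using hw)
  · rw [hreg, hreg]

theorem family {D : ℕ} (hD : 1 ≤ D) (hreg : ∀ v, (G.neighborFinset v).card = D) (k : ℕ)
    (hk : ∀ i < k, i * (D + 2) < Fintype.card V) :
    ∃ I : Finset V, I.card = k ∧ k * (D + 1) ≤
      (I.biUnion (fun u => insert u (G.neighborFinset u))).card + 6 * (k * (k - 1)) := by
  induction k with
  | zero => exact ⟨∅, by simp⟩
  | succ k ih =>
    obtain ⟨I, hI, hle⟩ := ih (fun i hi => hk i (by omega))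
    have hn := hk k (by omega)
    -- a new vertex
    obtain ⟨w, hw⟩ : ∃ w, w ∉ I.biUnion (fun u => G.neighborFinset u ∪
        Finset.univ.filter (fun v => G.neighborFinset v = G.neighborFinset u)) := by
      by_contra hcon
      push Not at hcon
      have h1 : Fintype.card V ≤ (I.biUnion (fun u => G.neighborFinset u ∪
          Finset.univ.filter (fun v => G.neighborFinset v = G.neighborFinset u))).card := by
        rw [← Finset.card_univ]
        exact Finset.card_le_card (fun w _ => hcon w)
      have h2 : (I.biUnion (fun u => G.neighborFinset u ∪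
          Finset.univ.filter (fun v => G.neighborFinset v = G.neighborFinset u))).card ≤
          I.card * (D + 2) := by
        apply Finset.card_biUnion_le_card_mul
        intro u _
        refine (Finset.card_union_le _ _).trans ?_
        rw [hreg]
        have : (Finset.univ.filter
            (fun v => G.neighborFinset v = G.neighborFinset u)).card ≤ 2 := by
          by_contra hlt
          push Not at hlt
          have h3 : 1 < ((Finset.univ.filter
            (fun v => G.neighborFinset v = G.neighborFinset u)).erase u).card := by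
            rw [Finset.card_erase_of_mem (by simp)]
            omega
          obtain ⟨v, hv, v', hv', hne⟩ := Finset.one_lt_card.1 h3
          simp only [Finset.mem_erase, Finset.mem_filter, Finset.mem_univ, true_and] at hv hv'
          exact hne (twins hX hD hreg (Ne.symm hv.1) (Ne.symm hv'.1) hv.2 hv'.2).symm
        omega
      rw [hI] at h2
      omega
    simp only [Finset.mem_biUnion, Finset.mem_union, SimpleGraph.mem_neighborFinset,
      Finset.mem_filter, Finset.mem_univ, true_and, not_exists, not_and, not_or] at hw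
    have hwI : w ∉ I := fun hh => (hw w hh).2 rfl
    refine ⟨insert w I, by rw [Finset.card_insert_of_notMem hwI, hI], ?_⟩
    rw [Finset.biUnion_insert]
    have h1 := Finset.card_union_add_card_inter (insert w (G.neighborFinset w))
      (I.biUnion (fun u => insert u (G.neighborFinset u)))
    have h2 : (insert w (G.neighborFinset w)).card = D + 1 := by
      rw [Finset.card_insert_of_notMem (by simp), hreg]
    have h3 : (insert w (G.neighborFinset w) ∩
        I.biUnion (fun u => insert u (G.neighborFinset u))).card ≤ k * 12 := by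
      rw [Finset.inter_biUnion, ← hI]
      apply Finset.card_biUnion_le_card_mul
      intro u hu
      obtain ⟨h4, h5⟩ := hw u hu
      have huw : u ≠ w := fun hh => hwI (hh ▸ hu)
      obtain ⟨d, hd1, hd2⟩ := exists_diff hreg (fun hh => h5 hh.symm)
      have h6 := common_le hX huw h4 hd1 hd2
      refine le_trans (Finset.card_le_card ?_) h6
      intro c hc
      simp only [Finset.mem_inter, Finset.mem_insert, SimpleGraph.mem_neighborFinset] at hc ⊢
      obtain ⟨hc1, hc2⟩ := hc
      rcases hc1 with rfl | hc1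
      · rcases hc2 with hc2 | hc2
        · exact absurd hc2.symm huw
        · exact absurd hc2 h4
      · rcases hc2 with rfl | hc2
        · exact absurd hc1.symm h4
        · exact ⟨hc2, hc1⟩
    have h7 : 6 * ((k + 1) * (k + 1 - 1)) = 6 * (k * (k - 1)) + k * 12 := by
      rcases Nat.eq_zero_or_pos k with h0 | h0
      · subst h0; rfl
      · obtain ⟨k', rfl⟩ : ∃ k', k = k' + 1 := ⟨k - 1, by omega⟩
        simp only [Nat.add_sub_cancel]
        ring
    have h8 : (k + 1) * (D + 1) = k * (D + 1) + (D + 1) := by ring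
    rw [h7, h8]
    omega

end

open Classical in
/-- gap theorem -/
theorem gap {D n j : ℕ} (hD : 1 ≤ D) (G : SimpleGraph (Fin n)) (hreg : Reg G D)
    (h1 : j * (D + 2) < n) (h2 : n + 6 * (j * (j + 1)) < (j + 1) * (D + 1)) :
    lamMin G < -2 := by
  by_contra hcon
  push Not at hcon
  have hps : (MM G).PosSemidef := by
    rw [(MM_herm G).posSemidef_iff_eigenvalues_nonneg]
    intro i
    have h3 : (MM_herm G).eigenvalues i ∈ spectrum ℝ (MM G) := by
      rw [(MM_herm G).spectrum_real_eq_range_eigenvalues]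
      exact ⟨i, rfl⟩
    have h4 : (MM_herm G).eigenvalues i - 2 ∈ spectrum ℝ (G.adjMatrix ℝ) := by
      rw [spec_shift]
      simpa using h3
    have h5 := csInf_le (spec_bdd G) h4
    have h6 : -2 ≤ sInf (spectrum ℝ (G.adjMatrix ℝ)) := by
      rwa [← lamMin_eq]
    show (0 : ℝ) ≤ (MM_herm G).eigenvalues i
    linarith
  obtain ⟨m, X, hX⟩ := gram G hps
  obtain ⟨I, hI, hle⟩ := family hX hD (card_of_reg G hreg) (j + 1) (fun i hi => by
    rw [Fintype.card_fin]
    exact lt_of_le_of_lt (Nat.mul_le_mul_right _ (by omega)) h1)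
  have h7 : (I.biUnion (fun u => insert u (G.neighborFinset u))).card ≤ n := by
    have := Finset.card_le_univ (I.biUnion (fun u => insert u (G.neighborFinset u)))
    rwa [Fintype.card_fin] at this
  have h8 : 6 * ((j + 1) * (j + 1 - 1)) = 6 * (j * (j + 1)) := by
    simp only [Nat.add_sub_cancel]
    ring
  rw [h8] at hle
  omega

end Pool.Agent.H37.RE7
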