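import Pool.Agent.H37.RE7

/-!
Odd degree: the sharp gaps.
-/

namespace Pool.Agent.H37.RE8

open Pool.Agent.H37.RE0

open Matrix Finset Pool.Agent.H37.RE2 Pool.Agent.H37.RE3 Pool.Agent.H37.RE4 Pool.Agent.H37.RE6
  Pool.Agent.H37.RE7

lemma bound_four {ι κ : Type*} [Fintype κ] [DecidableEq ι] (S : Finset ι) (z : ι → (κ → ℝ))
    (h : κ → ℝ) (s : ℝ) (hs : s ^ 2 = 1 / 4) (hz : ∀ c ∈ S, z c ⬝ᵥ z c = 1)
    (ho : ∀ c ∈ S, ∀ c' ∈ S, c ≠ c' → z c ⬝ᵥ z c' = 0) (hh : ∀ c ∈ S, h ⬝ᵥ z c = s)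
    (hn : h ⬝ᵥ h ≤ 1) : S.card ≤ 4 := by
  set Z : κ → ℝ := ∑ c ∈ S, z c with hZ
  have e1 : h ⬝ᵥ Z = S.card * s := by
    rw [hZ, dotProduct_sum, Finset.sum_congr rfl hh]
    simp
  have e2 : Z ⬝ᵥ Z = S.card := by
    rw [hZ, sum_dotProduct]
    have : ∀ c ∈ S, z c ⬝ᵥ (∑ c' ∈ S, z c') = 1 := by
      intro c hc
      rw [dotProduct_sum, Finset.sum_eq_single_of_mem c hc, hz c hc]
      intro b hb hbc
      exact ho c hc b hb (Ne.symm hbc)
    rw [Finset.sum_congr rfl this]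
    simp
  have e3 : 0 ≤ (h - s • Z) ⬝ᵥ (h - s • Z) := by
    rw [dotProduct]
    exact Finset.sum_nonneg (fun i _ => mul_self_nonneg _)
  have e4 : (h - s • Z) ⬝ᵥ (h - s • Z) = h ⬝ᵥ h - s ^ 2 * S.card := by
    rw [sub_dotProduct, dotProduct_sub, dotProduct_sub, smul_dotProduct, smul_dotProduct,
      dotProduct_smul, dotProduct_smul, dotProduct_comm Z h, e1, e2]
    simp only [smul_eq_mul]
    ring
  rw [e4, hs] at e3
  have : (S.card : ℝ) ≤ 4 := by linarith
  exact_mod_cast this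

lemma bound_eight {ι κ : Type*} [Fintype κ] [DecidableEq ι] (S : Finset ι) (z : ι → (κ → ℝ))
    (h : κ → ℝ) (hz : ∀ c ∈ S, z c ⬝ᵥ z c = 1)
    (ho : ∀ c ∈ S, ∀ c' ∈ S, c ≠ c' → z c ⬝ᵥ z c' = 0 ∨ z c ⬝ᵥ z c' = -1)
    (hh : ∀ c ∈ S, ∃ k : ℤ, h ⬝ᵥ z c = k + 1 / 2) (hn : h ⬝ᵥ h ≤ 1) : S.card ≤ 8 := by
  classical
  have hval : ∀ c ∈ S, h ⬝ᵥ z c = 1 / 2 ∨ h ⬝ᵥ z c = -(1 / 2) := by
    intro c hc
    obtain ⟨k, hk⟩ := hh c hc
    have e3 : 0 ≤ (h - (h ⬝ᵥ z c) • z c) ⬝ᵥ (h - (h ⬝ᵥ z c) • z c) := by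
      rw [dotProduct]
      exact Finset.sum_nonneg (fun i _ => mul_self_nonneg _)
    have e4 : (h - (h ⬝ᵥ z c) • z c) ⬝ᵥ (h - (h ⬝ᵥ z c) • z c) =
        h ⬝ᵥ h - (h ⬝ᵥ z c) ^ 2 := by
      rw [sub_dotProduct, dotProduct_sub, dotProduct_sub, smul_dotProduct, smul_dotProduct,
        dotProduct_smul, dotProduct_smul, dotProduct_comm (z c) h, hz c hc]
      simp only [smul_eq_mul]
      ring
    rw [e4] at e3
    have e5 : (h ⬝ᵥ z c) ^ 2 ≤ 1 := by linarith
    rw [hk] at e5 ⊢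
    have e6 : (k : ℝ) < 1 := by nlinarith
    have e7 : (-2 : ℝ) < k := by nlinarith
    have e8 : k < 1 := by exact_mod_cast e6
    have e9 : -2 < k := by exact_mod_cast e7
    have : k = 0 ∨ k = -1 := by omega
    rcases this with rfl | rfl
    · left; norm_num
    · right; norm_num
  have horth : ∀ s : ℝ, s ≠ 0 → ∀ c ∈ S, ∀ c' ∈ S, h ⬝ᵥ z c = s → h ⬝ᵥ z c' = s → c ≠ c' →
      z c ⬝ᵥ z c' = 0 := by
    intro s hs c hc c' hc' e1 e2 hne
    rcases ho c hc c' hc' hne with h1 | h1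
    · exact h1
    · exfalso
      have h2 : (z c + z c') ⬝ᵥ (z c + z c') = 0 := by
        rw [add_dotProduct, dotProduct_add, dotProduct_add, hz c hc, hz c' hc',
          dotProduct_comm (z c') (z c), h1]
        norm_num
      have h3 : z c + z c' = 0 := dotProduct_self_eq_zero.1 h2
      have h4 : h ⬝ᵥ (z c + z c') = 0 := by rw [h3, dotProduct_zero]
      rw [dotProduct_add, e1, e2] at h4
      apply hs
      linarith
  have hp : (S.filter (fun c => h ⬝ᵥ z c = 1 / 2)).card ≤ 4 := by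
    have hv : ∀ c ∈ S.filter (fun c => h ⬝ᵥ z c = 1 / 2), h ⬝ᵥ z c = 1 / 2 :=
      fun c hc => (Finset.mem_filter.1 hc).2
    exact bound_four _ z h (1 / 2) (by norm_num) (fun c hc => hz c (Finset.mem_filter.1 hc).1)
      (fun c hc c' hc' hne => horth (1 / 2) (by norm_num) c (Finset.mem_filter.1 hc).1 c'
        (Finset.mem_filter.1 hc').1 (hv c hc) (hv c' hc') hne) hv hn
  have hm : (S.filter (fun c => ¬ (h ⬝ᵥ z c = 1 / 2))).card ≤ 4 := by
    have hv : ∀ c ∈ S.filter (fun c => ¬ (h ⬝ᵥ z c = 1 / 2)), h ⬝ᵥ z c = -(1 / 2) := by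
      intro c hc
      rw [Finset.mem_filter] at hc
      exact (hval c hc.1).resolve_left hc.2
    exact bound_four _ z h (-(1 / 2)) (by norm_num)
      (fun c hc => hz c (Finset.mem_filter.1 hc).1)
      (fun c hc c' hc' hne => horth (-(1 / 2)) (by norm_num) c (Finset.mem_filter.1 hc).1 c'
        (Finset.mem_filter.1 hc').1 (hv c hc) (hv c' hc') hne) hv hn
  have := Finset.card_filter_add_card_filter_not (s := S) (fun c => h ⬝ᵥ z c = 1 / 2)
  omega

section
variable {V : Type} [Fintype V] [DecidableEq V] {G : SimpleGraph V} [DecidableRel G.Adj]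
variable {κ : Type} [Fintype κ] {X : V → (κ → ℝ)} (hX : ∀ v w, X v ⬝ᵥ X w = MM G v w)

/-- projection formula -/
lemma proj (E : Fin 4 → (κ → ℝ)) (hE : ∀ i j, E i ⬝ᵥ E j = if i = j then 1 else 0)
    (a b : κ → ℝ) :
    (a - ∑ i, (a ⬝ᵥ E i) • E i) ⬝ᵥ (b - ∑ i, (b ⬝ᵥ E i) • E i) =
      a ⬝ᵥ b - ∑ i, (a ⬝ᵥ E i) * (b ⬝ᵥ E i) := by
  have h1 : a ⬝ᵥ (∑ i, (b ⬝ᵥ E i) • E i) = ∑ i, (a ⬝ᵥ E i) * (b ⬝ᵥ E i) := by
    rw [dotProduct_sum]
    apply Finset.sum_congr rfl
    intro i _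
    rw [dotProduct_smul, smul_eq_mul, mul_comm]
  have h2 : (∑ i, (a ⬝ᵥ E i) • E i) ⬝ᵥ b = ∑ i, (a ⬝ᵥ E i) * (b ⬝ᵥ E i) := by
    rw [sum_dotProduct]
    apply Finset.sum_congr rfl
    intro i _
    rw [smul_dotProduct, smul_eq_mul, dotProduct_comm (E i) b]
  have h3 : (∑ i, (a ⬝ᵥ E i) • E i) ⬝ᵥ (∑ i, (b ⬝ᵥ E i) • E i) =
      ∑ i, (a ⬝ᵥ E i) * (b ⬝ᵥ E i) := by
    rw [sum_dotProduct]
    apply Finset.sum_congr rfl
    intro i _
    rw [smul_dotProduct, dotProduct_sum, smul_eq_mul]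
    congr 1
    rw [Finset.sum_eq_single i]
    · rw [dotProduct_smul, hE]; simp
    · intro j _ hj
      rw [dotProduct_smul, hE]; simp [Ne.symm hj]
    · simp
  rw [sub_dotProduct, dotProduct_sub, dotProduct_sub, h1, h2, h3]
  ring

include hX

/-- two classes bound -/
lemma two_class (E : Fin 4 → (κ → ℝ)) (hE : ∀ i j, E i ⬝ᵥ E j = if i = j then 1 else 0)
    (T : Finset V) (t : Fin 4 → ℝ) (ht : ∀ w ∈ T, ∀ i, X w ⬝ᵥ E i = t i)
    (ht1 : ∑ i, t i * t i = 1) (g : V) (hgT : g ∉ T)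
    (hg1 : 1 ≤ ∑ i, (X g ⬝ᵥ E i) * (X g ⬝ᵥ E i))
    (hg2 : ∃ k : ℤ, ∑ i, (X g ⬝ᵥ E i) * t i = k + 1 / 2) : T.card ≤ 8 := by
  refine bound_eight T (fun w => X w - ∑ i, (X w ⬝ᵥ E i) • E i)
    (X g - ∑ i, (X g ⬝ᵥ E i) • E i) ?_ ?_ ?_ ?_
  · intro w hw
    rw [proj E hE, x_self hX]
    simp only [ht w hw]
    rw [ht1]; norm_num
  · intro w hw w' hw' hne
    rw [proj E hE]
    simp only [ht w hw, ht w' hw']
    rw [ht1]
    by_cases ha : G.Adj w w'
    · left; rw [x_adj hX ha]; norm_num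
    · right; rw [x_nadj hX ha hne]; norm_num
  · intro w hw
    rw [proj E hE]
    simp only [ht w hw]
    obtain ⟨k, hk⟩ := hg2
    rw [hk]
    have hne : g ≠ w := fun hh => hgT (hh ▸ hw)
    by_cases ha : G.Adj g w
    · refine ⟨-k, ?_⟩
      rw [x_adj hX ha]; push_cast; ring
    · refine ⟨-k - 1, ?_⟩
      rw [x_nadj hX ha hne]; push_cast; ring
  · rw [proj E hE, x_self hX]
    linarith

/-- in a diamond, many private neighbours of `u` force a parity condition -/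
lemma diamond_class {u v x y : V} (huv : u ≠ v) (nuv : ¬ G.Adj u v) (hux : G.Adj u x)
    (huy : G.Adj u y) (hvx : G.Adj v x) (hvy : G.Adj v y) (hxy : G.Adj x y)
    (hbig : 33 ≤ (G.neighborFinset u \ G.neighborFinset v).card) :
    (∀ g, (¬ (G.Adj x g ↔ G.Adj y g)) ↔ G.Adj u g) ∨
    (∀ g, (¬ (G.Adj x g ↔ G.Adj y g)) ↔ G.Adj v g) := by
  classical
  set W := G.neighborFinset u \ G.neighborFinset v with hW
  have memW : ∀ w, w ∈ W ↔ G.Adj u w ∧ ¬ G.Adj v w := by intro w; simp [hW]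
  -- the orthonormal frame
  set E : Fin 4 → (κ → ℝ) := ![(1 / 2 : ℝ) • (X u + X x - X y), (1 / 2 : ℝ) • (X u + X y - X x),
    (1 / 2 : ℝ) • (X x + X y - X u), X v - (1 / 2 : ℝ) • (X x + X y - X u)] with hEdef
  have c0 : ∀ a : κ → ℝ, a ⬝ᵥ E 0 = (a ⬝ᵥ X u + a ⬝ᵥ X x - a ⬝ᵥ X y) / 2 := by
    intro a
    simp only [hEdef, Matrix.cons_val_zero, dotProduct_smul, dotProduct_sub, dotProduct_add,
      smul_eq_mul]
    ring
  have c1 : ∀ a : κ → ℝ, a ⬝ᵥ E 1 = (a ⬝ᵥ X u + a ⬝ᵥ X y - a ⬝ᵥ X x) / 2 := by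
    intro a
    simp only [hEdef, Matrix.cons_val_one, Matrix.cons_val_zero, dotProduct_smul,
      dotProduct_sub, dotProduct_add, smul_eq_mul]
    ring
  have c2 : ∀ a : κ → ℝ, a ⬝ᵥ E 2 = (a ⬝ᵥ X x + a ⬝ᵥ X y - a ⬝ᵥ X u) / 2 := by
    intro a
    simp only [hEdef, Matrix.cons_val, dotProduct_smul,
      dotProduct_sub, dotProduct_add, smul_eq_mul]
    ring
  have c3 : ∀ a : κ → ℝ, a ⬝ᵥ E 3 = a ⬝ᵥ X v - (a ⬝ᵥ X x + a ⬝ᵥ X y - a ⬝ᵥ X u) / 2 := by
    intro a
    simp only [hEdef, Matrix.cons_val, dotProduct_smul,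
      dotProduct_sub, dotProduct_add, smul_eq_mul]
    ring
  have suu := x_self hX u
  have svv := x_self hX v
  have sxx := x_self hX x
  have syy := x_self hX y
  have sux := x_adj hX hux
  have suy := x_adj hX huy
  have svx := x_adj hX hvx
  have svy := x_adj hX hvy
  have sxy := x_adj hX hxy
  have sxu := x_adj hX hux.symm
  have syu := x_adj hX huy.symm
  have sxv := x_adj hX hvx.symm
  have syv := x_adj hX hvy.symm
  have syx := x_adj hX hxy.symm
  have suv := x_nadj hX nuv huv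
  have svu := x_nadj hX (fun h => nuv h.symm) (Ne.symm huv)
  have hE : ∀ i j, E i ⬝ᵥ E j = if i = j then 1 else 0 := by
    intro i j
    fin_cases i <;> fin_cases j <;>
      simp only [Fin.zero_eta, Fin.mk_one, Fin.reduceFinMk, c0, c1, c2, c3] <;>
      simp only [dotProduct_comm (E _) (X _), c0, c1, c2, c3, suu, svv, sxx, syy, sux, suy, svx,
        svy, sxy, sxu, syu, sxv, syv, syx, suv, svu] <;> norm_num <;> decide
  -- bits
  have bit : ∀ a g, g ≠ a → X g ⬝ᵥ X a = if G.Adj a g then 1 else 0 := by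
    intro a g hne
    by_cases h : G.Adj a g
    · rw [x_adj hX h.symm]; simp [h]
    · rw [x_nadj hX (fun hh => h hh.symm) hne]; simp [h]
  have wne : ∀ w ∈ W, w ≠ u ∧ w ≠ v ∧ w ≠ x ∧ w ≠ y := by
    intro w hw
    obtain ⟨h1, h2⟩ := (memW w).1 hw
    refine ⟨h1.ne.symm, ?_, ?_, ?_⟩
    · rintro rfl; exact nuv h1
    · rintro rfl; exact h2 hvx
    · rintro rfl; exact h2 hvy
  -- the four special vertices satisfy both conditions
  have spec1 : ∀ g, (g = u ∨ g = v ∨ g = x ∨ g = y) →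
      ((¬ (G.Adj x g ↔ G.Adj y g)) ↔ G.Adj u g) := by
    rintro g (rfl | rfl | rfl | rfl)
    · simp [hux.symm, huy.symm]
    · simp [hvx.symm, hvy.symm, nuv]
    · simp [hxy.symm, hux]
    · simp [hxy, huy]
  have spec2 : ∀ g, (g = u ∨ g = v ∨ g = x ∨ g = y) →
      ((¬ (G.Adj x g ↔ G.Adj y g)) ↔ G.Adj v g) := by
    rintro g (rfl | rfl | rfl | rfl)
    · have : ¬ G.Adj v g := fun h => nuv h.symm
      simp [hux.symm, huy.symm, this]
    · simp [hvx.symm, hvy.symm]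
    · simp [hxy.symm, hvx]
    · simp [hxy, hvy]
  -- pigeonhole
  have hcase : ∃ px py : Prop, ∃ T : Finset V, 9 ≤ T.card ∧ ∀ w ∈ T, w ∈ W ∧
      ((G.Adj x w ↔ px) ∧ (G.Adj y w ↔ py)) := by
    obtain ⟨⟨bx, b'⟩, _, hb⟩ := Finset.exists_lt_card_fiber_of_mul_lt_card_of_maps_to
      (s := W) (t := (Finset.univ : Finset (Bool × Bool)))
      (f := fun w => (decide (G.Adj x w), decide (G.Adj y w))) (n := 8)
      (fun _ _ => Finset.mem_univ _) (by
        have : (Finset.univ : Finset (Bool × Bool)).card = 4 := by decide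
        rw [this]; omega)
    refine ⟨bx = true, b' = true, _, hb, ?_⟩
    intro w hw
    rw [Finset.mem_filter] at hw
    obtain ⟨h1, h2⟩ := hw
    have h3 := congrArg Prod.fst h2
    have h4 := congrArg Prod.snd h2
    simp only at h3 h4
    refine ⟨h1, ?_, ?_⟩
    · rw [← h3, decide_eq_true_iff]
    · rw [← h4, decide_eq_true_iff]
  obtain ⟨px, py, T, hT9, hT⟩ := hcase
  have tW : ∀ w ∈ T, X w ⬝ᵥ X u = 1 ∧ X w ⬝ᵥ X v = 0 := by
    intro w hw
    obtain ⟨h1, h2⟩ := (memW w).1 (hT w hw).1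
    obtain ⟨n1, n2, n3, n4⟩ := wne w (hT w hw).1
    exact ⟨by rw [bit u w n1]; simp [h1], by rw [bit v w n2]; simp [h2]⟩
  -- main estimate
  have main : ∀ (t : Fin 4 → ℝ), (∀ w ∈ T, ∀ i, X w ⬝ᵥ E i = t i) → (∑ i, t i * t i = 1) →
      ∀ g, g ∉ T → 1 ≤ ∑ i, (X g ⬝ᵥ E i) * (X g ⬝ᵥ E i) →
      ¬ ∃ k : ℤ, ∑ i, (X g ⬝ᵥ E i) * t i = k + 1 / 2 := by
    intro t ht ht1 g hg h1 h2
    have := two_class hX E hE T t ht ht1 g hg h1 h2
    omega
  by_cases hpx : px <;> by_cases hpy : py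
  · -- adjacent to both: S type
    right
    intro g
    by_cases hsp : g = u ∨ g = v ∨ g = x ∨ g = y
    · exact spec2 g hsp
    push Not at hsp
    obtain ⟨n1, n2, n3, n4⟩ := hsp
    by_cases hgT : g ∈ T
    · obtain ⟨h1, h2, h3⟩ := hT g hgT
      have := (memW g).1 h1
      simp [h2.2 hpx, h3.2 hpy, this.2]
    have ht : ∀ w ∈ T, ∀ i, X w ⬝ᵥ E i = (![1 / 2, 1 / 2, 1 / 2, -(1 / 2)] : Fin 4 → ℝ) i := by
      intro w hw i
      obtain ⟨m1, m2⟩ := tW w hw
      obtain ⟨_, _, n3', n4'⟩ := wne w (hT w hw).1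
      have m3 : X w ⬝ᵥ X x = 1 := by rw [bit x w n3']; simp [(hT w hw).2.1.2 hpx]
      have m4 : X w ⬝ᵥ X y = 1 := by rw [bit y w n4']; simp [(hT w hw).2.2.2 hpy]
      fin_cases i
      · show X w ⬝ᵥ E 0 = 1 / 2
        rw [c0, m1, m3, m4]; norm_num
      · show X w ⬝ᵥ E 1 = 1 / 2
        rw [c1, m1, m3, m4]; norm_num
      · show X w ⬝ᵥ E 2 = 1 / 2
        rw [c2, m1, m3, m4]; norm_num
      · show X w ⬝ᵥ E 3 = -(1 / 2)
        rw [c3, m1, m2, m3, m4]; norm_num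
    have hm := main _ ht (by simp [Fin.sum_univ_four]; norm_num) g hgT
    simp only [Fin.sum_univ_four, c0, c1, c2, c3, bit u g n1, bit v g n2, bit x g n3,
      bit y g n4, Matrix.cons_val] at hm
    by_contra hne
    by_cases a1 : G.Adj u g <;> by_cases a2 : G.Adj v g <;> by_cases a3 : G.Adj x g <;>
      by_cases a4 : G.Adj y g <;> simp only [a1, a2, a3, a4, not_true_eq_false,
        not_false_eq_true, and_true, and_false, or_false, or_true, false_or, true_and, and_self,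
        iff_true, iff_false, iff_self, not_not, if_true, if_false, false_and, true_iff] at hne hm
    all_goals first
      | exact absurd trivial hne
      | (refine hm (by norm_num) ⟨0, ?_⟩; norm_num; done)
      | (refine hm (by norm_num) ⟨-1, ?_⟩; norm_num; done)
      | (refine hm (by norm_num) ⟨1, ?_⟩; norm_num; done)
  · -- x only: V type
    left
    intro g
    by_cases hsp : g = u ∨ g = v ∨ g = x ∨ g = y
    · exact spec1 g hsp
    push Not at hsp
    obtain ⟨n1, n2, n3, n4⟩ := hsp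
    by_cases hgT : g ∈ T
    · obtain ⟨h1, h2, h3⟩ := hT g hgT
      have := (memW g).1 h1
      have h4 : ¬ G.Adj y g := fun hh => hpy (h3.1 hh)
      simp [h2.2 hpx, h4, this.1]
    have ht : ∀ w ∈ T, ∀ i, X w ⬝ᵥ E i = (![1, 0, 0, 0] : Fin 4 → ℝ) i := by
      intro w hw i
      obtain ⟨m1, m2⟩ := tW w hw
      obtain ⟨_, _, n3', n4'⟩ := wne w (hT w hw).1
      have m3 : X w ⬝ᵥ X x = 1 := by rw [bit x w n3']; simp [(hT w hw).2.1.2 hpx]
      have m4 : X w ⬝ᵥ X y = 0 := by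
        have hh : ¬ G.Adj y w := fun hh => hpy ((hT w hw).2.2.1 hh)
        rw [bit y w n4']; simp [hh]
      fin_cases i
      · show X w ⬝ᵥ E 0 = 1
        rw [c0, m1, m3, m4]; norm_num
      · show X w ⬝ᵥ E 1 = 0
        rw [c1, m1, m3, m4]; norm_num
      · show X w ⬝ᵥ E 2 = 0
        rw [c2, m1, m3, m4]; norm_num
      · show X w ⬝ᵥ E 3 = 0
        rw [c3, m1, m2, m3, m4]; norm_num
    have hm := main _ ht (by simp [Fin.sum_univ_four]) g hgT
    simp only [Fin.sum_univ_four, c0, c1, c2, c3, bit u g n1, bit v g n2, bit x g n3,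
      bit y g n4, Matrix.cons_val] at hm
    by_contra hne
    by_cases a1 : G.Adj u g <;> by_cases a2 : G.Adj v g <;> by_cases a3 : G.Adj x g <;>
      by_cases a4 : G.Adj y g <;> simp only [a1, a2, a3, a4, not_true_eq_false,
        not_false_eq_true, and_true, and_false, or_false, or_true, false_or, true_and, and_self,
        iff_true, iff_false, iff_self, not_not, if_true, if_false, false_and, true_iff] at hne hm
    all_goals first
      | exact absurd trivial hne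
      | (refine hm (by norm_num) ⟨0, ?_⟩; norm_num; done)
      | (refine hm (by norm_num) ⟨-1, ?_⟩; norm_num; done)
      | (refine hm (by norm_num) ⟨1, ?_⟩; norm_num; done)
  · -- y only
    left
    intro g
    by_cases hsp : g = u ∨ g = v ∨ g = x ∨ g = y
    · exact spec1 g hsp
    push Not at hsp
    obtain ⟨n1, n2, n3, n4⟩ := hsp
    by_cases hgT : g ∈ T
    · obtain ⟨h1, h2, h3⟩ := hT g hgT
      have := (memW g).1 h1
      have h4 : ¬ G.Adj x g := fun hh => hpx (h2.1 hh)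
      simp [h3.2 hpy, h4, this.1]
    have ht : ∀ w ∈ T, ∀ i, X w ⬝ᵥ E i = (![0, 1, 0, 0] : Fin 4 → ℝ) i := by
      intro w hw i
      obtain ⟨m1, m2⟩ := tW w hw
      obtain ⟨_, _, n3', n4'⟩ := wne w (hT w hw).1
      have m3 : X w ⬝ᵥ X x = 0 := by
        have hh : ¬ G.Adj x w := fun hh => hpx ((hT w hw).2.1.1 hh)
        rw [bit x w n3']; simp [hh]
      have m4 : X w ⬝ᵥ X y = 1 := by rw [bit y w n4']; simp [(hT w hw).2.2.2 hpy]
      fin_cases i
      · show X w ⬝ᵥ E 0 = 0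
        rw [c0, m1, m3, m4]; norm_num
      · show X w ⬝ᵥ E 1 = 1
        rw [c1, m1, m3, m4]; norm_num
      · show X w ⬝ᵥ E 2 = 0
        rw [c2, m1, m3, m4]; norm_num
      · show X w ⬝ᵥ E 3 = 0
        rw [c3, m1, m2, m3, m4]; norm_num
    have hm := main _ ht (by simp [Fin.sum_univ_four]) g hgT
    simp only [Fin.sum_univ_four, c0, c1, c2, c3, bit u g n1, bit v g n2, bit x g n3,
      bit y g n4, Matrix.cons_val] at hm
    by_contra hne
    by_cases a1 : G.Adj u g <;> by_cases a2 : G.Adj v g <;> by_cases a3 : G.Adj x g <;>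
      by_cases a4 : G.Adj y g <;> simp only [a1, a2, a3, a4, not_true_eq_false,
        not_false_eq_true, and_true, and_false, or_false, or_true, false_or, true_and, and_self,
        iff_true, iff_false, iff_self, not_not, if_true, if_false, false_and, true_iff] at hne hm
    all_goals first
      | exact absurd trivial hne
      | (refine hm (by norm_num) ⟨0, ?_⟩; norm_num; done)
      | (refine hm (by norm_num) ⟨-1, ?_⟩; norm_num; done)
      | (refine hm (by norm_num) ⟨1, ?_⟩; norm_num; done)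
  · -- neither
    right
    intro g
    by_cases hsp : g = u ∨ g = v ∨ g = x ∨ g = y
    · exact spec2 g hsp
    push Not at hsp
    obtain ⟨n1, n2, n3, n4⟩ := hsp
    by_cases hgT : g ∈ T
    · obtain ⟨h1, h2, h3⟩ := hT g hgT
      have := (memW g).1 h1
      have h4 : ¬ G.Adj x g := fun hh => hpx (h2.1 hh)
      have h5 : ¬ G.Adj y g := fun hh => hpy (h3.1 hh)
      simp [h4, h5, this.2]
    have ht : ∀ w ∈ T, ∀ i, X w ⬝ᵥ E i = (![1 / 2, 1 / 2, -(1 / 2), 1 / 2] : Fin 4 → ℝ) i := by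
      intro w hw i
      obtain ⟨m1, m2⟩ := tW w hw
      obtain ⟨_, _, n3', n4'⟩ := wne w (hT w hw).1
      have m3 : X w ⬝ᵥ X x = 0 := by
        have hh : ¬ G.Adj x w := fun hh => hpx ((hT w hw).2.1.1 hh)
        rw [bit x w n3']; simp [hh]
      have m4 : X w ⬝ᵥ X y = 0 := by
        have hh : ¬ G.Adj y w := fun hh => hpy ((hT w hw).2.2.1 hh)
        rw [bit y w n4']; simp [hh]
      fin_cases i
      · show X w ⬝ᵥ E 0 = 1 / 2
        rw [c0, m1, m3, m4]; norm_num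
      · show X w ⬝ᵥ E 1 = 1 / 2
        rw [c1, m1, m3, m4]; norm_num
      · show X w ⬝ᵥ E 2 = -(1 / 2)
        rw [c2, m1, m3, m4]; norm_num
      · show X w ⬝ᵥ E 3 = 1 / 2
        rw [c3, m1, m2, m3, m4]; norm_num
    have hm := main _ ht (by simp [Fin.sum_univ_four]; norm_num) g hgT
    simp only [Fin.sum_univ_four, c0, c1, c2, c3, bit u g n1, bit v g n2, bit x g n3,
      bit y g n4, Matrix.cons_val] at hm
    by_contra hne
    by_cases a1 : G.Adj u g <;> by_cases a2 : G.Adj v g <;> by_cases a3 : G.Adj x g <;>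
      by_cases a4 : G.Adj y g <;> simp only [a1, a2, a3, a4, not_true_eq_false,
        not_false_eq_true, and_true, and_false, or_false, or_true, false_or, true_and, and_self,
        iff_true, iff_false, iff_self, not_not, if_true, if_false, false_and, true_iff] at hne hm
    all_goals first
      | exact absurd trivial hne
      | (refine hm (by norm_num) ⟨0, ?_⟩; norm_num; done)
      | (refine hm (by norm_num) ⟨-1, ?_⟩; norm_num; done)
      | (refine hm (by norm_num) ⟨1, ?_⟩; norm_num; done)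

end

end Pool.Agent.H37.RE8
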