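import Pool.Agent.H37.RE8

/-!
Odd degree at least 45: positive semidefinite `A + 2I` excludes diamonds; sharp gaps.
-/

namespace Pool.Agent.H37.RE9

open Pool.Agent.H37.RE0

open Matrix Finset Pool.Agent.H37.RE2 Pool.Agent.H37.RE3 Pool.Agent.H37.RE4 Pool.Agent.H37.RE6
  Pool.Agent.H37.RE7 Pool.Agent.H37.RE8

section
variable {V : Type} [Fintype V] [DecidableEq V] {G : SimpleGraph V} [DecidableRel G.Adj]
variable {κ : Type} [Fintype κ] {X : V → (κ → ℝ)} (hX : ∀ v w, X v ⬝ᵥ X w = MM G v w)
include hX

lemma opp {u v c d : V} (huv : u ≠ v) (nuv : ¬ G.Adj u v) (huc : G.Adj u c) (hvc : G.Adj v c)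
    (hud : G.Adj u d) (hvd : G.Adj v d) (hne : d ≠ c) (ncd : ¬ G.Adj c d) :
    X d = X u + X v - X c := by
  have hzero : (X d + X c - (X u + X v)) ⬝ᵥ (X d + X c - (X u + X v)) = 0 := by
    simp only [sub_dotProduct, dotProduct_sub, add_dotProduct, dotProduct_add]
    rw [x_self hX, x_self hX, x_self hX, x_self hX, x_adj hX hud, x_adj hX hud.symm,
      x_adj hX hvd, x_adj hX hvd.symm, x_adj hX huc, x_adj hX huc.symm, x_adj hX hvc,
      x_adj hX hvc.symm, x_nadj hX nuv huv, x_nadj hX (fun hh => nuv hh.symm) (Ne.symm huv),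
      x_nadj hX ncd (Ne.symm hne), x_nadj hX (fun hh => ncd hh.symm) hne]
    norm_num
  have := dotProduct_self_eq_zero.1 hzero
  have h2 : X d + X c = X u + X v := sub_eq_zero.1 this
  rw [← h2]
  abel

lemma opp_unique {u v c d d' : V} (huv : u ≠ v) (nuv : ¬ G.Adj u v) (huc : G.Adj u c)
    (hvc : G.Adj v c) (hud : G.Adj u d) (hvd : G.Adj v d) (hne : d ≠ c) (ncd : ¬ G.Adj c d)
    (hud' : G.Adj u d') (hvd' : G.Adj v d') (hne' : d' ≠ c) (ncd' : ¬ G.Adj c d') : d = d' :=
  x_inj hX ((opp hX huv nuv huc hvc hud hvd hne ncd).trans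
    (opp hX huv nuv huc hvc hud' hvd' hne' ncd').symm)

lemma twins_even {D : ℕ} (hreg : ∀ v, (G.neighborFinset v).card = D) {u v : V}
    (huv : u ≠ v) (h : G.neighborFinset v = G.neighborFinset u) : Even D := by
  have nuv : ¬ G.Adj u v := by
    intro ha
    have : v ∈ G.neighborFinset v := by rw [h]; simpa using ha
    simp at this
  have hv : ∀ c, G.Adj u c → G.Adj v c := by
    intro c hc
    have : c ∈ G.neighborFinset v := by rw [h]; simpa using hc
    simpa using this
  have hex : ∀ c ∈ G.neighborFinset u, ∃ d, G.Adj u d ∧ d ≠ c ∧ ¬ G.Adj c d := by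
    intro c hc
    have huc : G.Adj u c := by simpa using hc
    by_contra hcon
    push Not at hcon
    have hsub : insert u (insert v ((G.neighborFinset u).erase c)) ⊆ G.neighborFinset c := by
      intro d hd
      simp only [Finset.mem_insert, Finset.mem_erase, SimpleGraph.mem_neighborFinset] at hd ⊢
      rcases hd with rfl | rfl | ⟨h1, h2⟩
      · exact huc.symm
      · exact (hv c huc).symm
      · exact hcon d h2 h1
    have h1 : (insert u (insert v ((G.neighborFinset u).erase c))).card = D - 1 + 1 + 1 := by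
      rw [Finset.card_insert_of_notMem, Finset.card_insert_of_notMem,
        Finset.card_erase_of_mem hc, hreg]
      · simp [nuv]
      · simp [huv]
    have h2 := Finset.card_le_card hsub
    have h3 : 0 < D := by
      rw [← hreg u]
      exact Finset.card_pos.2 ⟨c, hc⟩
    rw [h1, hreg] at h2
    omega
  choose! f hf using hex
  have huniq : ∀ c d d', G.Adj u c → G.Adj u d → d ≠ c → ¬ G.Adj c d → G.Adj u d' → d' ≠ c →
      ¬ G.Adj c d' → d = d' := by
    intro c d d' h1 h2 h3 h4 h5 h6 h7
    exact opp_unique hX huv nuv h1 (hv c h1) h2 (hv d h2) h3 h4 h5 (hv d' h5) h6 h7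
  have hsum : ∑ c ∈ G.neighborFinset u, (1 : ZMod 2) = 0 := by
    refine Finset.sum_involution (fun c _ => f c) ?_ ?_ ?_ ?_
    · intro c hc; decide
    · intro c hc _
      exact (hf c hc).2.1
    · intro c hc
      simpa using (hf c hc).1
    · intro c hc
      obtain ⟨h1, h2, h3⟩ := hf c hc
      have hfc : f c ∈ G.neighborFinset u := by simpa using h1
      obtain ⟨h4, h5, h6⟩ := hf (f c) hfc
      have huc : G.Adj u c := by simpa using hc
      exact huniq (f c) (f (f c)) c h1 h4 h5 h6 huc (Ne.symm h2) (fun hh => h3 hh.symm)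
  rw [Finset.sum_const, hreg, nsmul_eq_mul, mul_one] at hsum
  exact (ZMod.natCast_eq_zero_iff_even).1 hsum

theorem diamond_free {D : ℕ} (hD : 45 ≤ D) (hodd : Odd D)
    (hreg : ∀ v, (G.neighborFinset v).card = D) {u v x y : V} (huv : u ≠ v)
    (nuv : ¬ G.Adj u v) (hux : G.Adj u x) (huy : G.Adj u y) (hvx : G.Adj v x)
    (hvy : G.Adj v y) (hxy : G.Adj x y) : False := by
  have hne : G.neighborFinset v ≠ G.neighborFinset u := by
    intro h
    exact (Nat.not_even_iff_odd.2 hodd) (twins_even hX hreg huv h)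
  obtain ⟨w, hw1, hw2⟩ := exists_diff hreg (Ne.symm hne)
  have h12 := common_le hX huv nuv hw1 hw2
  have hbig : 33 ≤ (G.neighborFinset u \ G.neighborFinset v).card := by
    have := Finset.card_sdiff_add_card_inter (G.neighborFinset u) (G.neighborFinset v)
    rw [hreg] at this
    omega
  have hsum : ∀ a : V, ∑ g, (if G.Adj a g then (1 : ZMod 2) else 0) = (D : ZMod 2) := by
    intro a
    rw [Finset.sum_boole, ← hreg a]
    congr 2
    ext g
    simp
  have key : ∀ a : V, (∀ g, (¬ (G.Adj x g ↔ G.Adj y g)) ↔ G.Adj a g) → False := by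
    intro a ha
    have h1 : ∑ g, ((if G.Adj x g then (1 : ZMod 2) else 0) +
        (if G.Adj y g then (1 : ZMod 2) else 0)) = ∑ g, (if G.Adj a g then (1 : ZMod 2) else 0) := by
      apply Finset.sum_congr rfl
      intro g _
      have := ha g
      by_cases a1 : G.Adj x g <;> by_cases a2 : G.Adj y g
      · have a3 : ¬ G.Adj a g := fun h => (this.2 h) ⟨fun _ => a2, fun _ => a1⟩
        rw [if_pos a1, if_pos a2, if_neg a3]
        decide
      · have a3 : G.Adj a g := this.1 (fun h => a2 (h.1 a1))
        rw [if_pos a1, if_neg a2, if_pos a3, add_zero]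
      · have a3 : G.Adj a g := this.1 (fun h => a1 (h.2 a2))
        rw [if_neg a1, if_pos a2, if_pos a3, zero_add]
      · have a3 : ¬ G.Adj a g := fun h => this.2 h
          ⟨fun h1 => absurd h1 a1, fun h2 => absurd h2 a2⟩
        rw [if_neg a1, if_neg a2, if_neg a3, add_zero]
    rw [Finset.sum_add_distrib, hsum, hsum, hsum] at h1
    have h2 : (D : ZMod 2) = 0 := by
      have h3 : (D : ZMod 2) + D = 0 := by
        rw [← two_mul]
        have : (2 : ZMod 2) = 0 := by decide
        rw [this, zero_mul]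
      rw [h3] at h1
      exact h1.symm
    exact (Nat.not_even_iff_odd.2 hodd) ((ZMod.natCast_eq_zero_iff_even).1 h2)
  rcases diamond_class hX huv nuv hux huy hvx hvy hxy hbig with h | h
  · exact key u h
  · exact key v h

lemma common_two {D : ℕ} (hD : 45 ≤ D) (hodd : Odd D)
    (hreg : ∀ v, (G.neighborFinset v).card = D) {u v : V} (huv : u ≠ v)
    (nuv : ¬ G.Adj u v) : (G.neighborFinset u ∩ G.neighborFinset v).card ≤ 2 := by
  by_contra hlt
  push Not at hlt
  obtain ⟨c, hc, d, hd, d', hd', h1, h2, h3⟩ := Finset.two_lt_card.1 hlt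
  simp only [Finset.mem_inter, SimpleGraph.mem_neighborFinset] at hc hd hd'
  have n1 : ¬ G.Adj c d := fun h =>
    diamond_free hX hD hodd hreg huv nuv hc.1 hd.1 hc.2 hd.2 h
  have n2 : ¬ G.Adj c d' := fun h =>
    diamond_free hX hD hodd hreg huv nuv hc.1 hd'.1 hc.2 hd'.2 h
  exact h3 (opp_unique hX huv nuv hc.1 hc.2 hd.1 hd.2 (Ne.symm h1) n1 hd'.1 hd'.2 (Ne.symm h2) n2)

theorem family2 {D : ℕ} (hD : 45 ≤ D) (hodd : Odd D)
    (hreg : ∀ v, (G.neighborFinset v).card = D) (k : ℕ)
    (hk : ∀ i < k, i * (D + 1) < Fintype.card V) :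
    ∃ I : Finset V, I.card = k ∧ k * (D + 1) ≤
      (I.biUnion (fun u => insert u (G.neighborFinset u))).card + (k * (k - 1)) := by
  induction k with
  | zero => exact ⟨∅, by simp⟩
  | succ k ih =>
    obtain ⟨I, hI, hle⟩ := ih (fun i hi => hk i (by omega))
    have hn := hk k (by omega)
    obtain ⟨w, hw⟩ : ∃ w, w ∉ I.biUnion (fun u => insert u (G.neighborFinset u)) := by
      by_contra hcon
      push Not at hcon
      have h1 : Fintype.card V ≤ (I.biUnion (fun u => insert u (G.neighborFinset u))).card := by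
        rw [← Finset.card_univ]
        exact Finset.card_le_card (fun w _ => hcon w)
      have h2 : (I.biUnion (fun u => insert u (G.neighborFinset u))).card ≤ I.card * (D + 1) := by
        apply Finset.card_biUnion_le_card_mul
        intro u _
        rw [Finset.card_insert_of_notMem (by simp), hreg]
      rw [hI] at h2
      omega
    simp only [Finset.mem_biUnion, Finset.mem_insert, SimpleGraph.mem_neighborFinset,
      not_exists, not_and, not_or] at hw
    have hwI : w ∉ I := fun hh => (hw w hh).1 rfl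
    refine ⟨insert w I, by rw [Finset.card_insert_of_notMem hwI, hI], ?_⟩
    rw [Finset.biUnion_insert]
    have h1 := Finset.card_union_add_card_inter (insert w (G.neighborFinset w))
      (I.biUnion (fun u => insert u (G.neighborFinset u)))
    have h2 : (insert w (G.neighborFinset w)).card = D + 1 := by
      rw [Finset.card_insert_of_notMem (by simp), hreg]
    have h3 : (insert w (G.neighborFinset w) ∩
        I.biUnion (fun u => insert u (G.neighborFinset u))).card ≤ k * 2 := by
      rw [Finset.inter_biUnion, ← hI]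
      apply Finset.card_biUnion_le_card_mul
      intro u hu
      obtain ⟨h5, h4⟩ := hw u hu
      have huw : u ≠ w := fun hh => h5 hh.symm
      have h6 := common_two hX hD hodd hreg huw h4
      refine le_trans (Finset.card_le_card ?_) h6
      intro c hc
      simp only [Finset.mem_inter, Finset.mem_insert, SimpleGraph.mem_neighborFinset] at hc ⊢
      obtain ⟨hc1, hc2⟩ := hc
      rcases hc1 with rfl | hc1
      · rcases hc2 with hc2 | hc2
        · exact absurd hc2.symm huw
        · exact absurd hc2 h4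
      · rcases hc2 with rfl | hc2
        · exact absurd hc1.symm h4
        · exact ⟨hc2, hc1⟩
    have h7 : (k + 1) * (k + 1 - 1) = k * (k - 1) + k * 2 := by
      rcases Nat.eq_zero_or_pos k with h0 | h0
      · subst h0; rfl
      · obtain ⟨k', rfl⟩ : ∃ k', k = k' + 1 := ⟨k - 1, by omega⟩
        simp only [Nat.add_sub_cancel]
        ring
    have h8 : (k + 1) * (D + 1) = k * (D + 1) + (D + 1) := by ring
    rw [h7, h8]
    omega

end

open Classical in
/-- sharp gaps for odd degree -/
theorem gap_odd {D n j : ℕ} (hD : 45 ≤ D) (hodd : Odd D) (G : SimpleGraph (Fin n))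
    (hreg : Reg G D) (h1 : j * (D + 1) < n) (h2 : n + j * (j + 1) < (j + 1) * (D + 1)) :
    lamMin G < -2 := by
  by_contra hcon
  push Not at hcon
  have hps : (MM G).PosSemidef := by
    rw [(MM_herm G).posSemidef_iff_eigenvalues_nonneg]
    intro i
    have h3 : (MM_herm G).eigenvalues i ∈ spectrum ℝ (MM G) := by
      rw [(MM_herm G).spectrum_real_eq_range_eigenvalues]
      exact ⟨i, rfl⟩
    have h4 : (MM_herm G).eigenvalues i - 2 ∈ spectrum ℝ (G.adjMatrix ℝ) := by
      rw [spec_shift]
      simpa using h3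
    have h5 := csInf_le (spec_bdd G) h4
    have h6 : -2 ≤ sInf (spectrum ℝ (G.adjMatrix ℝ)) := by
      rwa [← lamMin_eq]
    show (0 : ℝ) ≤ (MM_herm G).eigenvalues i
    linarith
  obtain ⟨m, X, hX⟩ := gram G hps
  obtain ⟨I, hI, hle⟩ := family2 hX hD hodd (card_of_reg G hreg) (j + 1) (fun i hi => by
    rw [Fintype.card_fin]
    exact lt_of_le_of_lt (Nat.mul_le_mul_right _ (by omega)) h1)
  have h7 : (I.biUnion (fun u => insert u (G.neighborFinset u))).card ≤ n := by
    have := Finset.card_le_univ (I.biUnion (fun u => insert u (G.neighborFinset u)))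
    rwa [Fintype.card_fin] at this
  have h8 : (j + 1) * (j + 1 - 1) = j * (j + 1) := by
    simp only [Nat.add_sub_cancel]
    ring
  rw [h8] at hle
  omega

end Pool.Agent.H37.RE9
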