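import Mathlib

/-!
# Sign retrieval of real signals from spectrogram samples: definitions and lemmas (MP_ec7a01_an)
-/

open MeasureTheory

namespace Pool.Agent.H37.SignRetrieval

/-- The short-time Fourier transform `V_g f (x, ω)` of a real-valued signal `f` with a real-valued
window `g` (so that the complex conjugate on `g` can be dropped). -/
noncomputable def stft (g f : ℝ → ℝ) (x ω : ℝ) : ℂ :=
  ∫ t : ℝ, ((f t : ℝ) : ℂ) * ((g (t - x) : ℝ) : ℂ) *
    Complex.exp (-(2 * Real.pi * Complex.I * (ω : ℂ) * (t : ℂ)))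

/-- `Λ` allows sign retrieval for `g`: any two real-valued `L²` signals with the same spectrogram
samples on `Λ` agree (almost everywhere) up to a sign. -/
def AllowsSignRetrieval (g : ℝ → ℝ) (Λ : Set (ℝ × ℝ)) : Prop :=
  ∀ f h : ℝ → ℝ, MemLp f 2 volume → MemLp h 2 volume →
    (∀ p ∈ Λ, ‖stft g f p.1 p.2‖ = ‖stft g h p.1 p.2‖) →
    f =ᵐ[volume] h ∨ f =ᵐ[volume] fun t => - h t

/-- The shifted lattice `z + L ℤ²` with `L = [[a, b], [c, d]]`. -/
def shiftedLattice (z : ℝ × ℝ) (a b c d : ℝ) : Set (ℝ × ℝ) :=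
  {p | ∃ m n : ℤ, p = (z.1 + (a * m + b * n), z.2 + (c * m + d * n))}

/-- The signal `cos (2π t / α + θ) g (-t - x₀)`. -/
noncomputable def sig (g : ℝ → ℝ) (x₀ α θ : ℝ) (t : ℝ) : ℝ :=
  Real.cos (2 * Real.pi * t / α + θ) * g (-t - x₀)

lemma sig_symm (g : ℝ → ℝ) (x₀ α θ : ℝ) (hα : α ≠ 0) (k : ℤ) (t : ℝ) :
    sig g x₀ α θ (α * k - t) * g ((α * k - t) - (x₀ + α * k)) =
      sig g x₀ α (-θ) t * g (t - (x₀ + α * k)) := by
  unfold sig
  have h1 : (2 * Real.pi * (α * k - t) / α + θ) = -(2 * Real.pi * t / α + -θ) + k * (2 * Real.pi) := by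
    field_simp
    ring
  rw [h1, Real.cos_add_int_mul_two_pi, Real.cos_neg]
  have h2 : -(α * (k : ℝ) - t) - x₀ = t - (x₀ + α * k) := by ring
  have h3 : (α * (k : ℝ) - t) - (x₀ + α * k) = -t - x₀ := by ring
  rw [h2, h3]
  ring

/-- The substitution `t ↦ αk - t` turns the transform of one signal into the conjugate of the
transform of the other one. -/
lemma stft_sig (g : ℝ → ℝ) (x₀ α θ : ℝ) (hα : α ≠ 0) (k : ℤ) (ω : ℝ) :
    stft g (sig g x₀ α θ) (x₀ + α * k) ω =
      Complex.exp (-(2 * Real.pi * Complex.I * (ω : ℂ) * ((α * k : ℝ) : ℂ))) *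
        (starRingEnd ℂ) (stft g (sig g x₀ α (-θ)) (x₀ + α * k) ω) := by
  unfold stft
  rw [← integral_sub_left_eq_self _ volume (α * (k : ℝ))]
  rw [← integral_conj, ← integral_const_mul]
  refine integral_congr_ae (Filter.Eventually.of_forall fun t => ?_)
  have h1 := sig_symm g x₀ α θ hα k t
  have h1' : ((sig g x₀ α θ (α * k - t) : ℝ) : ℂ) * ((g ((α * k - t) - (x₀ + α * k)) : ℝ) : ℂ) =
      ((sig g x₀ α (-θ) t : ℝ) : ℂ) * ((g (t - (x₀ + α * k)) : ℝ) : ℂ) := by
    rw [← Complex.ofReal_mul, h1, Complex.ofReal_mul]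
  simp only [map_mul, Complex.conj_ofReal]
  rw [h1', ← Complex.exp_conj]
  rw [show ∀ A B C D : ℂ, A * (B * C * D) = B * C * (A * D) by intros; ring]
  congr 1
  rw [← Complex.exp_add]
  congr 1
  simp only [map_neg, map_mul, Complex.conj_ofReal, Complex.conj_I, map_ofNat]
  push_cast
  ring

lemma norm_stft_sig (g : ℝ → ℝ) (x₀ α θ : ℝ) (hα : α ≠ 0) (k : ℤ) (ω : ℝ) :
    ‖stft g (sig g x₀ α θ) (x₀ + α * k) ω‖ = ‖stft g (sig g x₀ α (-θ)) (x₀ + α * k) ω‖ := by
  rw [stft_sig g x₀ α θ hα k ω, norm_mul, RCLike.norm_conj]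
  have : ‖Complex.exp (-(2 * Real.pi * Complex.I * (ω : ℂ) * ((α * k : ℝ) : ℂ)))‖ = 1 := by
    rw [Complex.norm_exp]
    have : (-(2 * Real.pi * Complex.I * (ω : ℂ) * ((α * k : ℝ) : ℂ))).re = 0 := by
      have h : (-(2 * Real.pi * Complex.I * (ω : ℂ) * ((α * k : ℝ) : ℂ))) =
          ((-(2 * Real.pi * ω * (α * k)) : ℝ) : ℂ) * Complex.I := by
        push_cast; ring
      rw [h, Complex.re_ofReal_mul, Complex.I_re, mul_zero]
    rw [this, Real.exp_zero]
  rw [this, one_mul]

lemma measurePreserving_refl (x₀ : ℝ) :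
    MeasurePreserving (fun t : ℝ => -t - x₀) volume volume := by
  have h := (Measure.measurePreserving_sub_left (volume : Measure ℝ) (-x₀))
  have e : (fun t : ℝ => -t - x₀) = fun t : ℝ => -x₀ - t := by
    funext t; ring
  rw [e]; exact h

lemma memLp_sig (g : ℝ → ℝ) (hg : MemLp g 2 volume) (x₀ α θ : ℝ) :
    MemLp (sig g x₀ α θ) 2 volume := by
  have h1 : MemLp (fun t : ℝ => g (-t - x₀)) 2 volume :=
    hg.comp_measurePreserving (measurePreserving_refl x₀)
  have hc : Measurable (fun t : ℝ => Real.cos (2 * Real.pi * t / α + θ)) := by fun_prop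
  refine MemLp.of_le_mul (c := 1) h1 ?_ (Filter.Eventually.of_forall fun t => ?_)
  · exact hc.aestronglyMeasurable.mul h1.aestronglyMeasurable
  · unfold sig
    rw [norm_mul]
    have := Real.abs_cos_le_one (2 * Real.pi * t / α + θ)
    rw [← Real.norm_eq_abs] at this
    exact mul_le_mul_of_nonneg_right this (norm_nonneg _)

lemma ae_sin_ne (α : ℝ) (hα : α ≠ 0) : ∀ᵐ t : ℝ, Real.sin (2 * Real.pi * t / α) ≠ 0 := by
  have hc : Set.Countable {t : ℝ | Real.sin (2 * Real.pi * t / α) = 0} := by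
    refine Set.Countable.mono (s₂ := Set.range fun n : ℤ => (n : ℝ) * α / 2) ?_ (Set.countable_range _)
    intro t ht
    obtain ⟨n, hn⟩ := Real.sin_eq_zero_iff.1 ht
    refine ⟨n, ?_⟩
    have hpi := Real.pi_ne_zero
    have h2 : (n : ℝ) * Real.pi * α = 2 * Real.pi * t := by
      rw [hn]; field_simp
    have h3 : Real.pi * ((n : ℝ) * α - 2 * t) = 0 := by linarith
    rcases mul_eq_zero.1 h3 with h | h
    · exact absurd h hpi
    · show (n : ℝ) * α / 2 = t
      linarith
  have h0 := hc.measure_zero (volume : Measure ℝ)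
  rw [ae_iff]
  convert h0 using 2
  ext t
  simp

lemma ae_cos_ne (α : ℝ) (hα : α ≠ 0) : ∀ᵐ t : ℝ, Real.cos (2 * Real.pi * t / α) ≠ 0 := by
  have hc : Set.Countable {t : ℝ | Real.cos (2 * Real.pi * t / α) = 0} := by
    refine Set.Countable.mono (s₂ := Set.range fun n : ℤ => (2 * (n : ℝ) + 1) * α / 4) ?_
      (Set.countable_range _)
    intro t ht
    obtain ⟨n, hn⟩ := Real.cos_eq_zero_iff.1 ht
    refine ⟨n, ?_⟩
    have hpi := Real.pi_ne_zero
    have h2 : (2 * (n : ℝ) + 1) * Real.pi / 2 * α = 2 * Real.pi * t := by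
      rw [← hn]; field_simp
    have h3 : Real.pi * ((2 * (n : ℝ) + 1) * α / 4 - t) = 0 := by linarith
    rcases mul_eq_zero.1 h3 with h | h
    · exact absurd h hpi
    · show (2 * (n : ℝ) + 1) * α / 4 = t
      linarith
  have h0 := hc.measure_zero (volume : Measure ℝ)
  rw [ae_iff]
  convert h0 using 2
  ext t
  simp

lemma ae_zero_of_reflect (g : ℝ → ℝ) (x₀ : ℝ) (h : ∀ᵐ t : ℝ, g (-t - x₀) = 0) :
    ∀ᵐ t : ℝ, g t = 0 := by
  have h2 := (measurePreserving_refl x₀).quasiMeasurePreserving.ae h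
  filter_upwards [h2] with t ht
  have : -(-t - x₀) - x₀ = t := by ring
  rwa [this] at ht

/-- The signals in the construction are distinct up to sign unless the window vanishes. -/
lemma sig_distinct (g : ℝ → ℝ) (x₀ α : ℝ) (hα : α ≠ 0) (hg0 : ¬ ∀ᵐ t : ℝ, g t = 0) :
    ¬ (sig g x₀ α (Real.pi / 4) =ᵐ[volume] sig g x₀ α (-(Real.pi / 4))) ∧
    ¬ (sig g x₀ α (Real.pi / 4) =ᵐ[volume] fun t => - sig g x₀ α (-(Real.pi / 4)) t) := by
  have hs : Real.sin (Real.pi / 4) ≠ 0 := by
    rw [Real.sin_pi_div_four]; positivity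
  have hcs : Real.cos (Real.pi / 4) ≠ 0 := by
    rw [Real.cos_pi_div_four]; positivity
  constructor
  · intro h
    apply hg0
    apply ae_zero_of_reflect g x₀
    filter_upwards [h, ae_sin_ne α hα] with t ht hst
    unfold sig at ht
    rw [Real.cos_add, Real.cos_add, Real.cos_neg, Real.sin_neg] at ht
    have : (2 * (Real.sin (2 * Real.pi * t / α) * Real.sin (Real.pi / 4))) * g (-t - x₀) = 0 := by
      linarith
    rcases mul_eq_zero.1 this with h | h
    · exfalso
      rcases mul_eq_zero.1 h with h | h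
      · norm_num at h
      · rcases mul_eq_zero.1 h with h | h
        · exact hst h
        · exact hs h
    · exact h
  · intro h
    apply hg0
    apply ae_zero_of_reflect g x₀
    filter_upwards [h, ae_cos_ne α hα] with t ht hst
    unfold sig at ht
    rw [Real.cos_add, Real.cos_add, Real.cos_neg, Real.sin_neg] at ht
    have : (2 * (Real.cos (2 * Real.pi * t / α) * Real.cos (Real.pi / 4))) * g (-t - x₀) = 0 := by
      linarith
    rcases mul_eq_zero.1 this with h | h
    · exfalso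
      rcases mul_eq_zero.1 h with h | h
      · norm_num at h
      · rcases mul_eq_zero.1 h with h | h
        · exact hst h
        · exact hcs h
    · exact h

/-- **Vertical lines.** No set contained in the union of equally spaced vertical lines
`(x₀ + αℤ) × ℝ` allows sign retrieval, whatever the real window `g ∈ L²`. -/
theorem not_allows_of_lines (g : ℝ → ℝ) (hg : MemLp g 2 volume) (x₀ α : ℝ) (hα : α ≠ 0)
    (Λ : Set (ℝ × ℝ)) (hΛ : ∀ p ∈ Λ, ∃ k : ℤ, p.1 = x₀ + α * k) :
    ¬ AllowsSignRetrieval g Λ := by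
  intro H
  by_cases hg0 : ∀ᵐ t : ℝ, g t = 0
  · -- trivial window: all transforms vanish
    have hz : ∀ (f : ℝ → ℝ) (x ω : ℝ), stft g f x ω = 0 := by
      intro f x ω
      unfold stft
      have hx : ∀ᵐ t : ℝ, g (t - x) = 0 :=
        (measurePreserving_sub_right (volume : Measure ℝ) x).quasiMeasurePreserving.ae hg0
      have : (fun t : ℝ => ((f t : ℝ) : ℂ) * ((g (t - x) : ℝ) : ℂ) *
          Complex.exp (-(2 * Real.pi * Complex.I * (ω : ℂ) * (t : ℂ)))) =ᵐ[volume] 0 := by
        filter_upwards [hx] with t ht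
        simp [ht]
      rw [integral_congr_ae this]
      simp
    have h1 : MemLp (Set.indicator (Set.Icc (0:ℝ) 1) (fun _ => (1:ℝ))) 2 volume :=
      memLp_indicator_const 2 measurableSet_Icc 1 (Or.inr (by simp))
    have h0 : MemLp (fun _ : ℝ => (0:ℝ)) 2 volume := MemLp.zero'
    have hvol : volume (Set.Icc (0:ℝ) 1) = 1 := by simp
    have hne : ¬ (Set.indicator (Set.Icc (0:ℝ) 1) (fun _ => (1:ℝ)) =ᵐ[volume] fun _ => (0:ℝ)) := by
      intro h
      have h2 : ∀ᵐ t : ℝ, t ∉ Set.Icc (0:ℝ) 1 := by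
        filter_upwards [h] with t ht hmem
        rw [Set.indicator_of_mem hmem] at ht
        exact one_ne_zero ht
      rw [ae_iff] at h2
      have h3 : {a : ℝ | ¬ a ∉ Set.Icc (0:ℝ) 1} = Set.Icc (0:ℝ) 1 := by
        ext a; simp
      rw [h3, hvol] at h2
      exact one_ne_zero h2
    rcases H _ _ h1 h0 (fun p _ => by rw [hz, hz]) with h | h
    · exact hne h
    · apply hne
      simpa using h
  · obtain ⟨h1, h2⟩ := sig_distinct g x₀ α hα hg0
    rcases H _ _ (memLp_sig g hg x₀ α (Real.pi / 4)) (memLp_sig g hg x₀ α (-(Real.pi / 4)))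
      (fun p hp => by
        obtain ⟨k, hk⟩ := hΛ p hp
        rw [hk]
        exact norm_stft_sig g x₀ α (Real.pi / 4) hα k p.2) with h | h
    · exact h1 h
    · exact h2 h

/-- If `a, b` are linearly dependent over `ℚ` (equivalently over `ℤ`) then `aℤ + bℤ ⊆ αℤ` for some
`α ≠ 0`. -/
lemma exists_step (a b : ℝ) (m n : ℤ) (hmn : m ≠ 0 ∨ n ≠ 0)
    (h : m * a + n * b = 0) : ∃ α : ℝ, α ≠ 0 ∧ ∀ j k : ℤ, ∃ l : ℤ, a * j + b * k = α * l := by
  by_cases hab : a = 0 ∧ b = 0
  · exact ⟨1, one_ne_zero, fun j k => ⟨0, by simp [hab.1, hab.2]⟩⟩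
  · by_cases hn : n = 0
    · have hm : m ≠ 0 := by
        rcases hmn with h | h
        · exact h
        · exact absurd hn h
      have hm' : (m : ℝ) ≠ 0 := by exact_mod_cast hm
      have ha : a = 0 := by
        rw [hn] at h
        simp only [Int.cast_zero, zero_mul, add_zero] at h
        rcases mul_eq_zero.1 h with h | h
        · exact absurd h hm'
        · exact h
      have hb : b ≠ 0 := fun hb => hab ⟨ha, hb⟩
      exact ⟨b, hb, fun j k => ⟨k, by rw [ha]; ring⟩⟩
    · have hn' : (n : ℝ) ≠ 0 := by exact_mod_cast hn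
      have hb : b = -(m : ℝ) * (a / n) := by
        field_simp
        linarith
      have ha : a ≠ 0 := by
        intro ha
        apply hab
        refine ⟨ha, ?_⟩
        rw [hb, ha]; simp
      refine ⟨a / n, div_ne_zero ha hn', fun j k => ⟨n * j - m * k, ?_⟩⟩
      rw [hb]
      push_cast
      field_simp
      ring

/-! ### Windows with a one-sided exponential tail -/

/-- If `v g(· - x)` vanishes almost everywhere, then `u + v` and `u - v` have the same transform at
the time `x`. -/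
lemma norm_eq_of_right_zero (g u v : ℝ → ℝ) (x ω : ℝ) (h : ∀ᵐ t : ℝ, v t * g (t - x) = 0) :
    ‖stft g (fun t => u t + v t) x ω‖ = ‖stft g (fun t => u t - v t) x ω‖ := by
  congr 1
  unfold stft
  refine integral_congr_ae ?_
  filter_upwards [h] with t ht
  have h1 : ((v t : ℝ) : ℂ) * ((g (t - x) : ℝ) : ℂ) = 0 := by
    rw [← Complex.ofReal_mul, ht, Complex.ofReal_zero]
  have h2 : (((u t + v t : ℝ)) : ℂ) * ((g (t - x) : ℝ) : ℂ) =
      (((u t - v t : ℝ)) : ℂ) * ((g (t - x) : ℝ) : ℂ) := by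
    push_cast
    linear_combination 2 * h1
  show (((u t + v t : ℝ)) : ℂ) * ((g (t - x) : ℝ) : ℂ) * _ =
    (((u t - v t : ℝ)) : ℂ) * ((g (t - x) : ℝ) : ℂ) * _
  rw [h2]

/-- If `u g(· - x)` vanishes almost everywhere, then the transforms of `u + v` and `u - v` at the
time `x` are opposite. -/
lemma norm_eq_of_left_zero (g u v : ℝ → ℝ) (x ω : ℝ) (h : ∀ᵐ t : ℝ, u t * g (t - x) = 0) :
    ‖stft g (fun t => u t + v t) x ω‖ = ‖stft g (fun t => u t - v t) x ω‖ := by
  have h0 : stft g (fun t => u t + v t) x ω = - stft g (fun t => u t - v t) x ω := by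
    unfold stft
    rw [← integral_neg]
    refine integral_congr_ae ?_
    filter_upwards [h] with t ht
    have h1 : ((u t : ℝ) : ℂ) * ((g (t - x) : ℝ) : ℂ) = 0 := by
      rw [← Complex.ofReal_mul, ht, Complex.ofReal_zero]
    have h2 : (((u t + v t : ℝ)) : ℂ) * ((g (t - x) : ℝ) : ℂ) =
        -((((u t - v t : ℝ)) : ℂ) * ((g (t - x) : ℝ) : ℂ)) := by
      push_cast
      linear_combination 2 * h1
    show (((u t + v t : ℝ)) : ℂ) * ((g (t - x) : ℝ) : ℂ) * _ =
      -((((u t - v t : ℝ)) : ℂ) * ((g (t - x) : ℝ) : ℂ) * _)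
    rw [h2, neg_mul]
  rw [h0, norm_neg]

lemma not_allows_of_pair (g u v : ℝ → ℝ) (Λ : Set (ℝ × ℝ))
    (hu : MemLp u 2 volume) (hv : MemLp v 2 volume)
    (hu0 : ¬ ∀ᵐ t : ℝ, u t = 0) (hv0 : ¬ ∀ᵐ t : ℝ, v t = 0)
    (h : ∀ p ∈ Λ, ‖stft g (fun t => u t + v t) p.1 p.2‖ = ‖stft g (fun t => u t - v t) p.1 p.2‖) :
    ¬ AllowsSignRetrieval g Λ := by
  intro H
  rcases H _ _ (hu.add hv) (hu.sub hv) h with h1 | h1
  · apply hv0
    filter_upwards [h1] with t ht
    have ht' : u t + v t = u t - v t := ht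
    linarith
  · apply hu0
    filter_upwards [h1] with t ht
    have ht' : u t + v t = -(u t - v t) := ht
    linarith

lemma ae_shift {P : ℝ → Prop} (h : ∀ᵐ t : ℝ, P t) (x : ℝ) : ∀ᵐ t : ℝ, P (t - x) :=
  (measurePreserving_sub_right (volume : Measure ℝ) x).quasiMeasurePreserving.ae h

lemma not_ae_of_Ico {Q : ℝ → Prop} {c d : ℝ} (hcd : c < d) (h : ∀ t, c ≤ t → t < d → ¬ Q t) :
    ¬ ∀ᵐ t : ℝ, Q t := by
  intro hQ
  have h2 : ∀ᵐ t : ℝ, t ∉ Set.Ico c d := by
    filter_upwards [hQ] with t ht hmem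
    exact h t hmem.1 hmem.2 ht
  rw [ae_iff] at h2
  have h3 : {a : ℝ | ¬ a ∉ Set.Ico c d} = Set.Ico c d := by
    ext a; simp
  rw [h3, Real.volume_Ico] at h2
  have : (0:ℝ) < d - c := by linarith
  simp only [ENNReal.ofReal_eq_zero] at h2
  linarith

lemma memLp_ind (c d : ℝ) : MemLp (Set.indicator (Set.Ico c d) (fun _ => (1:ℝ))) 2 volume :=
  memLp_indicator_const 2 measurableSet_Ico 1 (Or.inr (by simp))

/-- **Bounded windows.** If `g` vanishes outside a bounded set, nothing allows sign retrieval. -/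
theorem not_allows_of_bounded (g : ℝ → ℝ) (R : ℝ) (hR : ∀ᵐ t : ℝ, R < |t| → g t = 0)
    (Λ : Set (ℝ × ℝ)) : ¬ AllowsSignRetrieval g Λ := by
  set T : ℝ := 2 * |R| + 2 with hT
  have hR0 : R ≤ |R| := le_abs_self R
  have hRn : 0 ≤ |R| := abs_nonneg R
  refine not_allows_of_pair g (Set.indicator (Set.Ico 0 1) (fun _ => (1:ℝ)))
    (Set.indicator (Set.Ico T (T+1)) (fun _ => (1:ℝ))) Λ (memLp_ind _ _) (memLp_ind _ _)
    (not_ae_of_Ico (c := 0) (d := 1) (by norm_num) ?_)
    (not_ae_of_Ico (c := T) (d := T + 1) (by linarith) ?_) ?_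
  · intro t h0 h1
    rw [Set.indicator_of_mem (show t ∈ Set.Ico (0:ℝ) 1 from ⟨h0, h1⟩)]
    exact one_ne_zero
  · intro t h0 h1
    rw [Set.indicator_of_mem (show t ∈ Set.Ico T (T+1) from ⟨h0, h1⟩)]
    exact one_ne_zero
  · intro p _
    have hs := ae_shift hR p.1
    by_cases hx : |p.1| ≤ |R| + 1
    · apply norm_eq_of_right_zero
      filter_upwards [hs] with t ht
      by_cases hmem : t ∈ Set.Ico T (T+1)
      · have h1 : R < |t - p.1| := by
          have h2 := (abs_le.1 hx).2
          have h3 := hmem.1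
          have h4 : |R| < t - p.1 := by linarith
          have h5 := le_abs_self (t - p.1)
          linarith
        rw [ht h1, mul_zero]
      · rw [Set.indicator_of_notMem hmem, zero_mul]
    · apply norm_eq_of_left_zero
      filter_upwards [hs] with t ht
      by_cases hmem : t ∈ Set.Ico (0:ℝ) 1
      · have h1 : R < |t - p.1| := by
          push Not at hx
          rcases lt_abs.1 hx with h | h
          · have h2 : |R| < -(t - p.1) := by linarith [hmem.2]
            have h3 := neg_le_abs (t - p.1)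
            linarith
          · have h2 : |R| < t - p.1 := by linarith [hmem.1]
            have h3 := le_abs_self (t - p.1)
            linarith
        rw [ht h1, mul_zero]
      · rw [Set.indicator_of_notMem hmem, zero_mul]

/-- The profile `1_{[c, c+h)}(t) - 2 cos θ 1_{[c, c+h)}(t - P) + 1_{[c, c+h)}(t - 2P)`. -/
noncomputable def prof (c h P θ : ℝ) (t : ℝ) : ℝ :=
  Set.indicator (Set.Ico c (c + h)) (fun _ => (1:ℝ)) t
    - 2 * Real.cos θ * Set.indicator (Set.Ico c (c + h)) (fun _ => (1:ℝ)) (t - P)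
    + Set.indicator (Set.Ico c (c + h)) (fun _ => (1:ℝ)) (t - 2 * P)

lemma prof_eq_zero_of_lt {c h P θ t : ℝ} (hP : 0 < P) (ht : t < c) : prof c h P θ t = 0 := by
  unfold prof
  rw [Set.indicator_of_notMem, Set.indicator_of_notMem, Set.indicator_of_notMem]
  · ring
  · intro hm; linarith [hm.1]
  · intro hm; linarith [hm.1]
  · intro hm; linarith [hm.1]

lemma prof_eq_one {c h P θ t : ℝ} (hP : h ≤ P) (hP0 : 0 < P) (h0 : c ≤ t) (h1 : t < c + h) :
    prof c h P θ t = 1 := by
  unfold prof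
  rw [Set.indicator_of_mem, Set.indicator_of_notMem, Set.indicator_of_notMem]
  · ring
  · intro hm; linarith [hm.1]
  · intro hm; linarith [hm.1]
  · exact ⟨h0, h1⟩

lemma prof_eq_zero_of_gt {c h P θ t : ℝ} (hP : 0 < P) (ht : c + h + 2 * P ≤ t) :
    prof c h P θ t = 0 := by
  unfold prof
  rw [Set.indicator_of_notMem, Set.indicator_of_notMem, Set.indicator_of_notMem]
  · ring
  · intro hm; linarith [hm.2]
  · intro hm; linarith [hm.2]
  · intro hm; linarith [hm.2]

lemma measurable_prof (c h P θ : ℝ) : Measurable (prof c h P θ) := by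
  unfold prof
  have h1 : Measurable (Set.indicator (Set.Ico c (c + h)) (fun _ : ℝ => (1:ℝ))) :=
    measurable_const.indicator measurableSet_Ico
  have h2 : Measurable fun t : ℝ => Set.indicator (Set.Ico c (c + h)) (fun _ : ℝ => (1:ℝ)) (t - P) :=
    h1.comp (measurable_id.sub_const P)
  have h3 : Measurable fun t : ℝ =>
      Set.indicator (Set.Ico c (c + h)) (fun _ : ℝ => (1:ℝ)) (t - 2 * P) :=
    h1.comp (measurable_id.sub_const (2 * P))
  exact (h1.sub (h2.const_mul _)).add h3

lemma abs_prof_le (c h P θ t : ℝ) : |prof c h P θ t| ≤ 4 := by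
  unfold prof
  have h01 : ∀ s : ℝ, Set.indicator (Set.Ico c (c + h)) (fun _ : ℝ => (1:ℝ)) s = 0 ∨
      Set.indicator (Set.Ico c (c + h)) (fun _ : ℝ => (1:ℝ)) s = 1 := by
    intro s
    by_cases hs : s ∈ Set.Ico c (c + h)
    · right; rw [Set.indicator_of_mem hs]
    · left; rw [Set.indicator_of_notMem hs]
  have hc1 := Real.cos_le_one θ
  have hc2 := Real.neg_one_le_cos θ
  rw [abs_le]
  rcases h01 t with h1 | h1 <;> rcases h01 (t - P) with h2 | h2 <;>
    rcases h01 (t - 2 * P) with h3 | h3 <;> rw [h1, h2, h3] <;> constructor <;> linarith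

/-- The Fourier transform of the profile vanishes at `ω` as soon as `e^{-2πiωP} = e^{-iθ}`. -/
lemma fourier_prof (c h P θ ω : ℝ)
    (hω : Complex.exp (-(2 * Real.pi * Complex.I * (ω : ℂ) * (P : ℂ))) =
      Complex.exp (-(Complex.I * θ))) :
    ∫ t : ℝ, ((prof c h P θ t : ℝ) : ℂ) *
      Complex.exp (-(2 * Real.pi * Complex.I * (ω : ℂ) * (t : ℂ))) = 0 := by
  set J : ℝ → ℂ := fun t => ((Set.indicator (Set.Ico c (c + h)) (fun _ : ℝ => (1:ℝ)) t : ℝ) : ℂ) *
      Complex.exp (-(2 * Real.pi * Complex.I * (ω : ℂ) * (t : ℂ))) with hJ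
  have hnorm : ∀ t : ℝ, ‖Complex.exp (-(2 * Real.pi * Complex.I * (ω : ℂ) * (t : ℂ)))‖ = 1 := by
    intro t
    rw [show (-(2 * Real.pi * Complex.I * (ω : ℂ) * (t : ℂ))) =
      ((-(2 * Real.pi * ω * t) : ℝ) : ℂ) * Complex.I by push_cast; ring]
    exact Complex.norm_exp_ofReal_mul_I _
  have hJi : Integrable J volume := by
    have h1 : Integrable (Set.indicator (Set.Ico c (c + h)) (fun _ : ℝ => (1:ℝ))) volume := by
      rw [integrable_indicator_iff measurableSet_Ico]
      exact integrableOn_const (by simp)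
    refine h1.ofReal.mul_bdd (c := 1) ?_ (Filter.Eventually.of_forall fun t => (hnorm t).le)
    exact (by fun_prop : Continuous fun t : ℝ =>
      Complex.exp (-(2 * Real.pi * Complex.I * (ω : ℂ) * (t : ℂ)))).aestronglyMeasurable
  set E : ℂ := Complex.exp (-(Complex.I * θ)) with hE
  have hpt : ∀ t : ℝ, ((prof c h P θ t : ℝ) : ℂ) *
      Complex.exp (-(2 * Real.pi * Complex.I * (ω : ℂ) * (t : ℂ))) =
      J t - 2 * Complex.cos θ * E * J (t - P) + E ^ 2 * J (t - 2 * P) := by
    intro t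
    have e1 : Complex.exp (-(2 * Real.pi * Complex.I * (ω : ℂ) * (t : ℂ))) =
        E * Complex.exp (-(2 * Real.pi * Complex.I * (ω : ℂ) * ((t - P : ℝ) : ℂ))) := by
      rw [← hω, ← Complex.exp_add]
      congr 1
      push_cast; ring
    have e2 : Complex.exp (-(2 * Real.pi * Complex.I * (ω : ℂ) * (t : ℂ))) =
        E ^ 2 * Complex.exp (-(2 * Real.pi * Complex.I * (ω : ℂ) * ((t - 2 * P : ℝ) : ℂ))) := by
      rw [← hω, ← Complex.exp_nat_mul, ← Complex.exp_add]
      congr 1
      push_cast; ring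
    simp only [hJ, prof]
    rw [show ∀ a b d : ℝ, ∀ X : ℂ, ((a - 2 * Real.cos θ * b + d : ℝ) : ℂ) * X =
      (a : ℂ) * X - 2 * Complex.cos θ * (b : ℂ) * X + (d : ℂ) * X by
        intros; push_cast; ring]
    congr 1
    · congr 1
      rw [e1]; ring
    · rw [e2]; ring
  have h1 : ∫ t : ℝ, J (t - P) = ∫ t : ℝ, J t := integral_sub_right_eq_self J P
  have h2 : ∫ t : ℝ, J (t - 2 * P) = ∫ t : ℝ, J t := integral_sub_right_eq_self J (2 * P)
  have hi1 : Integrable (fun t => J (t - P)) volume := hJi.comp_sub_right P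
  have hi2 : Integrable (fun t => J (t - 2 * P)) volume := hJi.comp_sub_right (2 * P)
  rw [integral_congr_ae (Filter.Eventually.of_forall hpt)]
  have hA1 : Integrable (fun t => 2 * Complex.cos θ * E * J (t - P)) volume := hi1.const_mul _
  have hA : Integrable (fun t => J t - 2 * Complex.cos θ * E * J (t - P)) volume := hJi.sub hA1
  have hB : Integrable (fun t => E ^ 2 * J (t - 2 * P)) volume := hi2.const_mul _
  rw [integral_add hA hB, integral_sub hJi hA1, integral_const_mul, integral_const_mul, h1, h2]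
  have hz : 1 - 2 * Complex.cos θ * E + E ^ 2 = 0 := by
    have h3 : 2 * Complex.cos θ = Complex.exp (θ * Complex.I) + Complex.exp (-θ * Complex.I) := by
      rw [Complex.cos]; ring
    have h4 : E = Complex.exp (-θ * Complex.I) := by rw [hE]; congr 1; ring
    have h5 : Complex.exp (θ * Complex.I) * Complex.exp (-θ * Complex.I) = 1 := by
      rw [← Complex.exp_add]; simp
    rw [h3, h4]
    linear_combination -h5
  linear_combination (∫ t : ℝ, J t) * hz

/-- **One-sided exponential tails.** Suppose `g ∈ L²` vanishes to the left of some point and equals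
`C e^{-at}` to the right of some point. Then no subset of the horizontal lines `ℝ × (ω₀ + βℤ)`
allows sign retrieval. -/
theorem not_allows_of_exp (g : ℝ → ℝ) (hg : MemLp g 2 volume) (s₀ t₀ a C : ℝ)
    (hleft : ∀ᵐ t : ℝ, t < s₀ → g t = 0) (hright : ∀ᵐ t : ℝ, t₀ < t → g t = C * Real.exp (-a * t))
    (ω₀ β : ℝ) (hβ : β ≠ 0) (Λ : Set (ℝ × ℝ)) (hΛ : ∀ p ∈ Λ, ∃ k : ℤ, p.2 = ω₀ + β * k) :
    ¬ AllowsSignRetrieval g Λ := by
  set P : ℝ := 1 / |β| with hP
  have hP0 : 0 < P := by positivity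
  set θ : ℝ := 2 * Real.pi * ω₀ * P with hθ
  set u : ℝ → ℝ := Set.indicator (Set.Ico (s₀ - 1) s₀) (fun _ => (1:ℝ)) with hu
  set v : ℝ → ℝ := fun t => Real.exp (a * t) * prof t₀ P P θ t with hv
  -- measurability and integrability of `v`
  have hvm : Measurable v := (by fun_prop : Measurable fun t : ℝ => Real.exp (a * t)).mul
    (measurable_prof _ _ _ _)
  set M : ℝ := Real.exp (|a| * (|t₀| + |t₀ + 3 * P|)) * 4 with hM
  have hvb : ∀ t, |v t| ≤ M * Set.indicator (Set.Icc t₀ (t₀ + 3 * P)) (fun _ => (1:ℝ)) t := by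
    intro t
    by_cases hmem : t ∈ Set.Icc t₀ (t₀ + 3 * P)
    · rw [Set.indicator_of_mem hmem, mul_one, hv, hM, abs_mul, Real.abs_exp]
      refine mul_le_mul ?_ (abs_prof_le _ _ _ _ _) (abs_nonneg _) (Real.exp_pos _).le
      apply Real.exp_le_exp.2
      have h1 : a * t ≤ |a| * |t| := by
        rw [← abs_mul]; exact le_abs_self _
      have h2 : |t| ≤ |t₀| + |t₀ + 3 * P| := by
        rw [abs_le]
        constructor
        · have := neg_abs_le t₀
          have := abs_nonneg (t₀ + 3 * P)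
          linarith [hmem.1]
        · have := le_abs_self (t₀ + 3 * P)
          have := abs_nonneg t₀
          linarith [hmem.2]
      exact h1.trans (mul_le_mul_of_nonneg_left h2 (abs_nonneg a))
    · rw [Set.indicator_of_notMem hmem, mul_zero]
      have : v t = 0 := by
        rw [hv]
        rcases lt_or_ge t t₀ with h | h
        · simp only [prof_eq_zero_of_lt hP0 h, mul_zero]
        · have h' : t₀ + P + 2 * P ≤ t := by
            by_contra hc
            push Not at hc
            exact hmem ⟨h, by linarith⟩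
          simp only [prof_eq_zero_of_gt hP0 h', mul_zero]
      rw [this, abs_zero]
  have hvL : MemLp v 2 volume := by
    have h1 : MemLp (Set.indicator (Set.Icc t₀ (t₀ + 3 * P)) (fun _ => (1:ℝ))) 2 volume :=
      memLp_indicator_const 2 measurableSet_Icc 1 (Or.inr measure_Icc_lt_top.ne)
    refine MemLp.of_le_mul (c := M) h1 hvm.aestronglyMeasurable
      (Filter.Eventually.of_forall fun t => ?_)
    rw [Real.norm_eq_abs, Real.norm_eq_abs]
    refine (hvb t).trans (le_of_eq ?_)
    rw [abs_of_nonneg (Set.indicator_nonneg (fun _ _ => zero_le_one) t)]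
  have huL : MemLp u 2 volume := memLp_ind _ _
  refine not_allows_of_pair g u v Λ huL hvL
    (not_ae_of_Ico (c := s₀ - 1) (d := s₀) (by linarith) ?_)
    (not_ae_of_Ico (c := t₀) (d := t₀ + P) (by linarith) ?_) ?_
  · intro t h0 h1
    rw [hu, Set.indicator_of_mem (show t ∈ Set.Ico (s₀ - 1) s₀ from ⟨h0, h1⟩)]
    exact one_ne_zero
  · intro t h0 h1
    rw [hv]
    simp only [prof_eq_one le_rfl hP0 h0 h1, mul_one]
    exact (Real.exp_pos _).ne'
  · intro p hp
    obtain ⟨k, hk⟩ := hΛ p hp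
    rcases le_or_gt 0 p.1 with hx | hx
    · -- `u` is not seen
      apply norm_eq_of_left_zero
      filter_upwards [ae_shift hleft p.1] with t ht
      by_cases hmem : t ∈ Set.Ico (s₀ - 1) s₀
      · rw [ht (by linarith [hmem.2]), mul_zero]
      · rw [hu, Set.indicator_of_notMem hmem, zero_mul]
    · -- the transform of `v` vanishes
      have hgx : MemLp (fun t => g (t - p.1)) 2 volume :=
        hg.comp_measurePreserving (measurePreserving_sub_right volume p.1)
      have hnorm : ∀ t : ℝ, ‖Complex.exp (-(2 * Real.pi * Complex.I * (p.2 : ℂ) * (t : ℂ)))‖ = 1 := by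
        intro t
        rw [show (-(2 * Real.pi * Complex.I * (p.2 : ℂ) * (t : ℂ))) =
          ((-(2 * Real.pi * p.2 * t) : ℝ) : ℂ) * Complex.I by push_cast; ring]
        exact Complex.norm_exp_ofReal_mul_I _
      have hint : ∀ f : ℝ → ℝ, MemLp f 2 volume → Integrable (fun t : ℝ => ((f t : ℝ) : ℂ) *
          ((g (t - p.1) : ℝ) : ℂ) *
          Complex.exp (-(2 * Real.pi * Complex.I * (p.2 : ℂ) * (t : ℂ)))) volume := by
        intro f hf
        have h1 : Integrable (fun t => f t * g (t - p.1)) volume := hf.integrable_mul hgx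
        have h2 : Integrable (fun t => ((f t : ℝ) : ℂ) * ((g (t - p.1) : ℝ) : ℂ)) volume := by
          refine h1.ofReal.congr (Filter.Eventually.of_forall fun t => ?_)
          simp
        refine h2.mul_bdd (c := 1) ?_ (Filter.Eventually.of_forall fun t => (hnorm t).le)
        exact (by fun_prop : Continuous fun t : ℝ =>
          Complex.exp (-(2 * Real.pi * Complex.I * (p.2 : ℂ) * (t : ℂ)))).aestronglyMeasurable
      have hexpθ : Complex.exp (-(2 * Real.pi * Complex.I * (p.2 : ℂ) * (P : ℂ))) =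
          Complex.exp (-(Complex.I * θ)) := by
        rw [hk]
        rw [Complex.exp_eq_exp_iff_exists_int]
        have hβP : β * P = 1 ∨ β * P = -1 := by
          rw [hP]
          rcases lt_or_gt_of_ne hβ with h | h
          · right; rw [abs_of_neg h]; field_simp
          · left; rw [abs_of_pos h]; field_simp
        rcases hβP with h | h
        · refine ⟨-k, ?_⟩
          have h' : (β : ℂ) * (P : ℂ) = 1 := by exact_mod_cast h
          rw [hθ]
          push_cast
          linear_combination (-(2 * (Real.pi : ℂ) * Complex.I * k)) * h'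
        · refine ⟨k, ?_⟩
          have h' : (β : ℂ) * (P : ℂ) = -1 := by exact_mod_cast h
          rw [hθ]
          push_cast
          linear_combination (-(2 * (Real.pi : ℂ) * Complex.I * k)) * h'
      have hV : stft g v p.1 p.2 = 0 := by
        unfold stft
        have h1 : (fun t : ℝ => ((v t : ℝ) : ℂ) * ((g (t - p.1) : ℝ) : ℂ) *
            Complex.exp (-(2 * Real.pi * Complex.I * (p.2 : ℂ) * (t : ℂ)))) =ᵐ[volume]
            fun t : ℝ => ((C * Real.exp (a * p.1) : ℝ) : ℂ) * (((prof t₀ P P θ t : ℝ) : ℂ) *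
            Complex.exp (-(2 * Real.pi * Complex.I * (p.2 : ℂ) * (t : ℂ)))) := by
          filter_upwards [ae_shift hright p.1] with t ht
          rcases lt_or_ge t t₀ with hlt | hge
          · have h0 := prof_eq_zero_of_lt (h := P) (θ := θ) hP0 hlt
            simp only [hv, h0]
            simp
          · have h2 : g (t - p.1) = C * Real.exp (-a * (t - p.1)) := ht (by linarith)
            have h3 : v t * g (t - p.1) = C * Real.exp (a * p.1) * prof t₀ P P θ t := by
              rw [h2]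
              simp only [hv]
              have h4 : Real.exp (a * t) * Real.exp (-a * (t - p.1)) = Real.exp (a * p.1) := by
                rw [← Real.exp_add]
                congr 1
                ring
              linear_combination (C * prof t₀ P P θ t) * h4
            rw [← mul_assoc, ← Complex.ofReal_mul, ← Complex.ofReal_mul, h3]
        rw [integral_congr_ae h1, integral_const_mul, fourier_prof _ _ _ _ _ hexpθ, mul_zero]
      have hsum : stft g (fun t => u t + v t) p.1 p.2 = stft g u p.1 p.2 + stft g v p.1 p.2 := by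
        unfold stft
        rw [← integral_add (hint u huL) (hint v hvL)]
        refine integral_congr_ae (Filter.Eventually.of_forall fun t => ?_)
        push_cast
        ring
      have hdiff : stft g (fun t => u t - v t) p.1 p.2 = stft g u p.1 p.2 - stft g v p.1 p.2 := by
        unfold stft
        rw [← integral_sub (hint u huL) (hint v hvL)]
        refine integral_congr_ae (Filter.Eventually.of_forall fun t => ?_)
        push_cast
        ring
      rw [hsum, hdiff, hV, add_zero, sub_zero]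

/-! ### The Gaussian window -/

/-- The Gaussian window `e^{-πκt²}` (`κ = 1` is the standard one). -/
noncomputable def gauss (κ t : ℝ) : ℝ := Real.exp (-Real.pi * κ * t ^ 2)

/-- The generalised Gaussian `exp (b t² + c t + d)`. -/
noncomputable def chirp (b c d : ℂ) (t : ℝ) : ℂ := Complex.exp (b * (t : ℂ) ^ 2 + c * t + d)

lemma continuous_chirp (b c d : ℂ) : Continuous (chirp b c d) := by
  unfold chirp; fun_prop

lemma memLp_chirp {b : ℂ} (hb : b.re < 0) (c d : ℂ) : MemLp (chirp b c d) 2 volume := by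
  rw [memLp_two_iff_integrable_sq_norm (continuous_chirp b c d).aestronglyMeasurable]
  have h1 : Integrable (fun t : ℝ => Complex.exp ((2 * b) * (t : ℂ) ^ 2 + (2 * c) * t + (2 * d)))
      volume := integrable_cexp_quadratic' (by simp; linarith) (2 * c) (2 * d)
  refine h1.norm.congr (Filter.Eventually.of_forall fun t => ?_)
  show ‖Complex.exp ((2 * b) * (t : ℂ) ^ 2 + (2 * c) * t + (2 * d))‖ = ‖chirp b c d t‖ ^ 2
  rw [chirp, ← norm_pow, ← Complex.exp_nat_mul]
  congr 2
  push_cast
  ring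

lemma memLp_re_chirp {b : ℂ} (hb : b.re < 0) (c d : ℂ) :
    MemLp (fun t => (chirp b c d t).re) 2 volume := (memLp_chirp hb c d).re

lemma memLp_im_chirp {b : ℂ} (hb : b.re < 0) (c d : ℂ) :
    MemLp (fun t => (chirp b c d t).im) 2 volume := (memLp_chirp hb c d).im

lemma gauss_eq (κ t : ℝ) : gauss κ t = (chirp (-((Real.pi * κ : ℝ) : ℂ)) 0 0 t).re := by
  unfold gauss chirp
  rw [show (-((Real.pi * κ : ℝ) : ℂ)) * (t : ℂ) ^ 2 + 0 * t + 0 =
    ((-Real.pi * κ * t ^ 2 : ℝ) : ℂ) by push_cast; ring]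
  rw [← Complex.ofReal_exp, Complex.ofReal_re]

lemma memLp_gauss {κ : ℝ} (hκ : 0 < κ) : MemLp (gauss κ) 2 volume := by
  have hneg : (-((Real.pi * κ : ℝ) : ℂ)).re < 0 := by
    rw [Complex.neg_re, Complex.ofReal_re]
    have := mul_pos Real.pi_pos hκ
    linarith
  have h := memLp_re_chirp hneg 0 0
  have e : gauss κ = fun t => (chirp (-((Real.pi * κ : ℝ) : ℂ)) 0 0 t).re := funext (gauss_eq κ)
  rw [e]; exact h

lemma integrable_stft {g f : ℝ → ℝ} (hg : MemLp g 2 volume) (hf : MemLp f 2 volume) (x ω : ℝ) :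
    Integrable (fun t : ℝ => ((f t : ℝ) : ℂ) * ((g (t - x) : ℝ) : ℂ) *
      Complex.exp (-(2 * Real.pi * Complex.I * (ω : ℂ) * (t : ℂ)))) volume := by
  have hgx : MemLp (fun t => g (t - x)) 2 volume :=
    hg.comp_measurePreserving (measurePreserving_sub_right volume x)
  have hnorm : ∀ t : ℝ, ‖Complex.exp (-(2 * Real.pi * Complex.I * (ω : ℂ) * (t : ℂ)))‖ = 1 := by
    intro t
    rw [show (-(2 * Real.pi * Complex.I * (ω : ℂ) * (t : ℂ))) =
      ((-(2 * Real.pi * ω * t) : ℝ) : ℂ) * Complex.I by push_cast; ring]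
    exact Complex.norm_exp_ofReal_mul_I _
  have h1 : Integrable (fun t => f t * g (t - x)) volume := hf.integrable_mul hgx
  have h2 : Integrable (fun t => ((f t : ℝ) : ℂ) * ((g (t - x) : ℝ) : ℂ)) volume := by
    refine h1.ofReal.congr (Filter.Eventually.of_forall fun t => ?_)
    simp
  refine h2.mul_bdd (c := 1) ?_ (Filter.Eventually.of_forall fun t => (hnorm t).le)
  exact (by fun_prop : Continuous fun t : ℝ =>
    Complex.exp (-(2 * Real.pi * Complex.I * (ω : ℂ) * (t : ℂ)))).aestronglyMeasurable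

lemma memLp_re' {h : ℝ → ℂ} (hh : MemLp h 2 volume) : MemLp (fun t => (h t).re) 2 volume := hh.re

lemma memLp_im' {h : ℝ → ℂ} (hh : MemLp h 2 volume) : MemLp (fun t => (h t).im) 2 volume := hh.im

/-- The transform of a complex signal with respect to a real window. -/
noncomputable def cstft (g : ℝ → ℝ) (h : ℝ → ℂ) (x ω : ℝ) : ℂ :=
  ∫ t : ℝ, h t * ((g (t - x) : ℝ) : ℂ) *
    Complex.exp (-(2 * Real.pi * Complex.I * (ω : ℂ) * (t : ℂ)))

lemma cstft_split {g : ℝ → ℝ} (hg : MemLp g 2 volume) {h : ℝ → ℂ} (hh : MemLp h 2 volume)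
    (x ω : ℝ) : cstft g h x ω = stft g (fun t => (h t).re) x ω +
      Complex.I * stft g (fun t => (h t).im) x ω := by
  unfold cstft stft
  rw [← integral_const_mul, ← integral_add (integrable_stft hg (memLp_re' hh) x ω)
    ((integrable_stft hg (memLp_im' hh) x ω).const_mul _)]
  refine integral_congr_ae (Filter.Eventually.of_forall fun t => ?_)
  show h t * ((g (t - x) : ℝ) : ℂ) * Complex.exp (-(2 * Real.pi * Complex.I * (ω : ℂ) * (t : ℂ))) =
    (((h t).re : ℝ) : ℂ) * ((g (t - x) : ℝ) : ℂ) *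
      Complex.exp (-(2 * Real.pi * Complex.I * (ω : ℂ) * (t : ℂ))) +
    Complex.I * ((((h t).im : ℝ) : ℂ) * ((g (t - x) : ℝ) : ℂ) *
      Complex.exp (-(2 * Real.pi * Complex.I * (ω : ℂ) * (t : ℂ))))
  have e := Complex.re_add_im (h t)
  linear_combination (-(((g (t - x) : ℝ) : ℂ) *
    Complex.exp (-(2 * Real.pi * Complex.I * (ω : ℂ) * (t : ℂ))))) * e

lemma stft_neg (g f : ℝ → ℝ) (x ω : ℝ) :
    stft g f x (-ω) = (starRingEnd ℂ) (stft g f x ω) := by
  unfold stft
  rw [← integral_conj]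
  refine integral_congr_ae (Filter.Eventually.of_forall fun t => ?_)
  simp only [map_mul, Complex.conj_ofReal]
  rw [← Complex.exp_conj]
  congr 2
  simp only [map_neg, map_mul, Complex.conj_ofReal, Complex.conj_I, map_ofNat]
  push_cast
  ring

/-- If `V_g h (x, ω) V_g h (x, -ω)` is real then the real signals `Re h + Im h` and `Re h - Im h`
have the same spectrogram at `(x, ω)`. -/
lemma norm_eq_of_im_zero {g : ℝ → ℝ} (hg : MemLp g 2 volume) {h : ℝ → ℂ} (hh : MemLp h 2 volume)
    (x ω : ℝ) (him : (cstft g h x ω * cstft g h x (-ω)).im = 0) :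
    ‖stft g (fun t => (h t).re + (h t).im) x ω‖ = ‖stft g (fun t => (h t).re - (h t).im) x ω‖ := by
  rw [cstft_split hg hh, cstft_split hg hh, stft_neg, stft_neg] at him
  have hadd : stft g (fun t => (h t).re + (h t).im) x ω =
      stft g (fun t => (h t).re) x ω + stft g (fun t => (h t).im) x ω := by
    unfold stft
    rw [← integral_add (integrable_stft hg (memLp_re' hh) x ω)
      (integrable_stft hg (memLp_im' hh) x ω)]
    refine integral_congr_ae (Filter.Eventually.of_forall fun t => ?_)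
    push_cast
    ring
  have hsub : stft g (fun t => (h t).re - (h t).im) x ω =
      stft g (fun t => (h t).re) x ω - stft g (fun t => (h t).im) x ω := by
    unfold stft
    rw [← integral_sub (integrable_stft hg (memLp_re' hh) x ω)
      (integrable_stft hg (memLp_im' hh) x ω)]
    refine integral_congr_ae (Filter.Eventually.of_forall fun t => ?_)
    push_cast
    ring
  rw [hadd, hsub]
  set U := stft g (fun t => (h t).re) x ω
  set V := stft g (fun t => (h t).im) x ω
  simp only [Complex.mul_im, Complex.add_re, Complex.add_im, Complex.mul_re, Complex.I_re,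
    Complex.I_im, Complex.conj_re, Complex.conj_im] at him
  have h2 : ‖U + V‖ ^ 2 = ‖U - V‖ ^ 2 := by
    rw [Complex.sq_norm, Complex.sq_norm, Complex.normSq_apply, Complex.normSq_apply]
    simp only [Complex.add_re, Complex.add_im, Complex.sub_re, Complex.sub_im]
    linarith
  exact (sq_eq_sq₀ (norm_nonneg _) (norm_nonneg _)).1 h2

lemma cstft_chirp {b : ℂ} {κ : ℝ} (hb : b.re < Real.pi * κ) (c d : ℂ) (x ω : ℝ) :
    cstft (gauss κ) (chirp b c d) x ω = (Real.pi / -(b - ((Real.pi * κ : ℝ) : ℂ))) ^ (1 / 2 : ℂ) *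
      Complex.exp ((d - Real.pi * κ * x ^ 2) -
        (c + 2 * Real.pi * κ * x - 2 * Real.pi * Complex.I * ω) ^ 2 /
          (4 * (b - ((Real.pi * κ : ℝ) : ℂ)))) := by
  have hb' : (b - ((Real.pi * κ : ℝ) : ℂ)).re < 0 := by
    rw [Complex.sub_re, Complex.ofReal_re]; linarith
  rw [← integral_cexp_quadratic hb']
  unfold cstft
  refine integral_congr_ae (Filter.Eventually.of_forall fun t => ?_)
  simp only [chirp, gauss]
  rw [Complex.ofReal_exp, ← Complex.exp_add, ← Complex.exp_add]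
  congr 1
  push_cast
  ring

lemma cos_chirp_ne (A B C : ℝ) (hAB : A ≠ 0 ∨ B ≠ 0) :
    (∃ t : ℝ, Real.cos (A * t ^ 2 + B * t + C) ≠ 0) ∧
    (∃ t : ℝ, Real.sin (A * t ^ 2 + B * t + C) ≠ 0) := by
  have hder : ∀ t : ℝ, HasDerivAt (fun t : ℝ => A * t ^ 2 + B * t + C) (A * (2 * t) + B) t := by
    intro t
    have h1 : HasDerivAt (fun t : ℝ => A * t ^ 2) (A * (2 * t)) t := by
      simpa using (hasDerivAt_pow 2 t).const_mul A
    have h2 : HasDerivAt (fun t : ℝ => B * t) B t := by
      simpa using (hasDerivAt_id t).const_mul B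
    exact (h1.add h2).add_const C
  constructor
  · by_contra hc
    push Not at hc
    have key : ∀ t : ℝ, A * (2 * t) + B = 0 := by
      intro t
      have h1 := (hder t).cos
      have h2 : (fun t : ℝ => Real.cos (A * t ^ 2 + B * t + C)) = fun _ => 0 := funext hc
      rw [h2] at h1
      have h3 := h1.unique (hasDerivAt_const t (0:ℝ))
      have h4 : Real.sin (A * t ^ 2 + B * t + C) ≠ 0 := by
        intro h5
        have := Real.sin_sq_add_cos_sq (A * t ^ 2 + B * t + C)
        rw [h5, hc t] at this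
        norm_num at this
      rcases mul_eq_zero.1 h3 with h | h
      · exact absurd (neg_eq_zero.1 h) h4
      · exact h
    have k0 := key 0
    have k1 := key 1
    rcases hAB with h | h
    · apply h; linarith
    · apply h; linarith
  · by_contra hc
    push Not at hc
    have key : ∀ t : ℝ, A * (2 * t) + B = 0 := by
      intro t
      have h1 := (hder t).sin
      have h2 : (fun t : ℝ => Real.sin (A * t ^ 2 + B * t + C)) = fun _ => 0 := funext hc
      rw [h2] at h1
      have h3 := h1.unique (hasDerivAt_const t (0:ℝ))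
      have h4 : Real.cos (A * t ^ 2 + B * t + C) ≠ 0 := by
        intro h5
        have := Real.sin_sq_add_cos_sq (A * t ^ 2 + B * t + C)
        rw [h5, hc t] at this
        norm_num at this
      rcases mul_eq_zero.1 h3 with h | h
      · exact absurd h h4
      · exact h
    have k0 := key 0
    have k1 := key 1
    rcases hAB with h | h
    · apply h; linarith
    · apply h; linarith

lemma chirp_re_im (b c d : ℂ) (t : ℝ) :
    (chirp b c d t).re = Real.exp (b.re * t ^ 2 + c.re * t + d.re) *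
      Real.cos (b.im * t ^ 2 + c.im * t + d.im) ∧
    (chirp b c d t).im = Real.exp (b.re * t ^ 2 + c.re * t + d.re) *
      Real.sin (b.im * t ^ 2 + c.im * t + d.im) := by
  have h1 : b * (t : ℂ) ^ 2 + c * t + d =
      ((b.re * t ^ 2 + c.re * t + d.re : ℝ) : ℂ) +
        ((b.im * t ^ 2 + c.im * t + d.im : ℝ) : ℂ) * Complex.I := by
    apply Complex.ext
    · simp [← Complex.ofReal_pow]
    · simp [← Complex.ofReal_pow]
  have hre : (b * (t : ℂ) ^ 2 + c * t + d).re = b.re * t ^ 2 + c.re * t + d.re := by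
    rw [h1, Complex.add_re, Complex.ofReal_re, Complex.re_ofReal_mul, Complex.I_re, mul_zero,
      add_zero]
  have him : (b * (t : ℂ) ^ 2 + c * t + d).im = b.im * t ^ 2 + c.im * t + d.im := by
    rw [h1, Complex.add_im, Complex.ofReal_im, Complex.im_ofReal_mul, Complex.I_im, mul_one,
      zero_add]
  unfold chirp
  rw [Complex.exp_re, Complex.exp_im, hre, him]
  exact ⟨rfl, rfl⟩

lemma chirp_parts_ne (b c d : ℂ) (h : b.im ≠ 0 ∨ c.im ≠ 0) :
    (¬ ∀ᵐ t : ℝ, (chirp b c d t).re = 0) ∧ (¬ ∀ᵐ t : ℝ, (chirp b c d t).im = 0) := by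
  obtain ⟨⟨t1, h1⟩, ⟨t2, h2⟩⟩ := cos_chirp_ne b.im c.im d.im h
  constructor
  · intro hz
    have hc : Continuous fun t => (chirp b c d t).re :=
      Complex.continuous_re.comp (continuous_chirp b c d)
    have := (hc.ae_eq_iff_eq volume continuous_const).1
      (show (fun t => (chirp b c d t).re) =ᵐ[volume] fun _ => (0:ℝ) from hz)
    have h3 := congrFun this t1
    simp only [(chirp_re_im b c d t1).1] at h3
    rcases mul_eq_zero.1 h3 with h4 | h4
    · exact (Real.exp_pos _).ne' h4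
    · exact h1 h4
  · intro hz
    have hc : Continuous fun t => (chirp b c d t).im :=
      Complex.continuous_im.comp (continuous_chirp b c d)
    have := (hc.ae_eq_iff_eq volume continuous_const).1
      (show (fun t => (chirp b c d t).im) =ᵐ[volume] fun _ => (0:ℝ) from hz)
    have h3 := congrFun this t2
    simp only [(chirp_re_im b c d t2).2] at h3
    rcases mul_eq_zero.1 h3 with h4 | h4
    · exact (Real.exp_pos _).ne' h4
    · exact h2 h4

/-- **Gaussian window.** Let `|p| < 1` and `(p, q) ≠ (0, 0)`. No subset of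
`{(x, ω) : p (s x² - ω² / s) + q x + r ∈ ℤ}` allows sign retrieval for the Gaussian window
`e^{-πst²}`. -/
theorem not_allows_gauss (s : ℝ) (hs : 0 < s) (p q r : ℝ) (hp : |p| < 1) (hpq : p ≠ 0 ∨ q ≠ 0)
    (Λ : Set (ℝ × ℝ))
    (hΛ : ∀ z ∈ Λ, ∃ k : ℤ, p * (s * z.1 ^ 2 - z.2 ^ 2 / s) + q * z.1 + r = k) :
    ¬ AllowsSignRetrieval (gauss s) Λ := by
  have hpi := Real.pi_pos
  have hps : 0 < Real.pi * s := mul_pos hpi hs
  have hp2 : p ^ 2 < 1 := by
    rw [← sq_abs]
    have := abs_nonneg p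
    nlinarith
  have hden : 0 < 1 + p ^ 2 := by positivity
  set ρ : ℝ := 2 * (Real.pi * s) / (1 + p ^ 2) with hρ
  have hρ1 : Real.pi * s < ρ := by
    rw [hρ, lt_div_iff₀ hden]
    nlinarith
  have hρ0 : 0 < ρ := hps.trans hρ1
  set B : ℂ := (ρ : ℂ) * (1 - p * Complex.I) with hB
  have hBre : B.re = ρ := by simp [hB]
  have hBim : B.im = -(ρ * p) := by simp [hB]
  have hBmul : B * (1 + p * Complex.I) = 2 * (Real.pi * s) := by
    have h1 : (ρ : ℂ) * (1 + (p : ℂ) ^ 2) = 2 * (Real.pi * s) := by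
      have : ρ * (1 + p ^ 2) = 2 * (Real.pi * s) := by rw [hρ]; field_simp
      exact_mod_cast this
    rw [hB, ← h1]
    have hI := Complex.I_sq
    linear_combination (-(ρ : ℂ) * (p : ℂ) ^ 2) * hI
  have hB0 : B ≠ 0 := by
    intro h
    rw [h] at hBre
    simp at hBre
    linarith
  set b : ℂ := ((Real.pi * s : ℝ) : ℂ) - B with hb
  have hbre : b.re < 0 := by
    rw [hb, Complex.sub_re, hBre, Complex.ofReal_re]; linarith
  have hbim : b.im = ρ * p := by
    rw [hb, Complex.sub_im, hBim, Complex.ofReal_im]; ring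
  set c : ℂ := Complex.I * q * B / (2 * s) with hc
  have hsc : (s : ℂ) ≠ 0 := by exact_mod_cast hs.ne'
  have hcim : c.im = q * ρ / (2 * s) := by
    have : c = ((q / (2 * s) : ℝ) : ℂ) * (Complex.I * B) := by
      rw [hc]; push_cast; field_simp
    rw [this, Complex.im_ofReal_mul, Complex.I_mul_im, hBre]; ring
  set K : ℂ := (Real.pi / -(b - ((Real.pi * s : ℝ) : ℂ))) ^ (1 / 2 : ℂ) with hK
  set κ : ℂ := K * K * Complex.exp (c ^ 2 / (2 * B)) with hκ
  set δ : ℝ := (Real.pi * r - Complex.arg κ) / 2 with hδ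
  set d : ℂ := ((δ : ℝ) : ℂ) * Complex.I with hd
  set h : ℝ → ℂ := chirp b c d with hh
  have hhL : MemLp h 2 volume := memLp_chirp hbre c d
  have hne := chirp_parts_ne b c d (by
    rcases hpq with h1 | h1
    · left; rw [hbim]; exact mul_ne_zero hρ0.ne' h1
    · right; rw [hcim]
      exact div_ne_zero (mul_ne_zero h1 hρ0.ne') (by positivity))
  refine not_allows_of_pair (gauss s) (fun t => (h t).re) (fun t => (h t).im) Λ hhL.re hhL.im
    hne.1 hne.2 ?_
  intro z hz
  obtain ⟨k, hk⟩ := hΛ z hz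
  apply norm_eq_of_im_zero (memLp_gauss hs) hhL
  have hbp : b.re < Real.pi * s := by linarith
  rw [hh, cstft_chirp hbp, cstft_chirp hbp, ← hK]
  have hbB : b - ((Real.pi * s : ℝ) : ℂ) = -B := by rw [hb]; ring
  have hexp : K * Complex.exp ((d - Real.pi * s * z.1 ^ 2) -
        (c + 2 * Real.pi * s * z.1 - 2 * Real.pi * Complex.I * z.2) ^ 2 /
          (4 * (b - ((Real.pi * s : ℝ) : ℂ)))) *
      (K * Complex.exp ((d - Real.pi * s * z.1 ^ 2) -
        (c + 2 * Real.pi * s * z.1 - 2 * Real.pi * Complex.I * ((-z.2 : ℝ) : ℂ)) ^ 2 /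
          (4 * (b - ((Real.pi * s : ℝ) : ℂ))))) =
      κ * Complex.exp (((2 * δ : ℝ) : ℂ) * Complex.I) *
        Complex.exp (((-2 * Real.pi * s * z.1 ^ 2 + Real.pi * (s * z.1 ^ 2 - z.2 ^ 2 / s) : ℝ) : ℂ)) *
        Complex.exp (((Real.pi * (p * (s * z.1 ^ 2 - z.2 ^ 2 / s) + q * z.1) : ℝ) : ℂ) *
          Complex.I) := by
    have e1 : ∀ X Y : ℂ, K * Complex.exp X * (K * Complex.exp Y) =
        K * K * Complex.exp (X + Y) := by
      intro X Y; rw [Complex.exp_add]; ring
    have e2 : ∀ X Y Z : ℂ, κ * Complex.exp X * Complex.exp Y * Complex.exp Z =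
        K * K * Complex.exp (c ^ 2 / (2 * B) + X + Y + Z) := by
      intro X Y Z
      rw [hκ, Complex.exp_add, Complex.exp_add, Complex.exp_add]; ring
    rw [e1, e2]
    congr 2
    rw [hbB, hd, hc]
    have hpic : (Real.pi : ℂ) ≠ 0 := by exact_mod_cast hpi.ne'
    have hinv : (1 : ℂ) / B = (1 + p * Complex.I) / (2 * (Real.pi * s)) := by
      have hpic2 : (2 * ((Real.pi : ℂ) * s)) ≠ 0 := by
        exact mul_ne_zero two_ne_zero (mul_ne_zero hpic hsc)
      rw [div_eq_div_iff hB0 hpic2]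
      rw [mul_comm _ B, hBmul]; ring
    have hI := Complex.I_sq
    push_cast
    have h3 : ∀ X : ℂ, X / (4 * -B) = -(X / 4) * (1 / B) := by
      intro X; field_simp
    have h4 : (Complex.I * q * B / (2 * s)) ^ 2 / (2 * B) =
        Complex.I ^ 2 * q ^ 2 * B / (8 * s ^ 2) := by
      field_simp; ring
    rw [h3, h3, h4]
    have h5 : (Complex.I * q * B / (2 * s) + 2 * Real.pi * s * z.1 -
          2 * Real.pi * Complex.I * z.2) ^ 2 +
        (Complex.I * q * B / (2 * s) + 2 * Real.pi * s * z.1 -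
          2 * Real.pi * Complex.I * -z.2) ^ 2 =
        B * (Complex.I ^ 2 * q ^ 2 * B / (2 * s ^ 2) + 4 * Real.pi * Complex.I * q * z.1) +
          8 * Real.pi ^ 2 * (s ^ 2 * z.1 ^ 2 + Complex.I ^ 2 * z.2 ^ 2) := by
      field_simp; ring
    have h6 : B * (1 / B) = 1 := by field_simp
    have h7 : 8 * (Real.pi : ℂ) ^ 2 * (1 / B) = 4 * Real.pi / s * (1 + p * Complex.I) := by
      rw [hinv]; field_simp; ring
    have h8 : Complex.I ^ 2 = -1 := hI
    have h9 : (s : ℂ) * (1 / s) = 1 := by field_simp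
    linear_combination (1 / 4 * (1 / B)) * h5 +
      (1 / 4 * (Complex.I ^ 2 * q ^ 2 * B / (2 * s ^ 2) + 4 * Real.pi * Complex.I * q * z.1)) * h6 +
      (1 / 4 * ((s : ℂ) ^ 2 * (z.1 : ℂ) ^ 2 + Complex.I ^ 2 * z.2 ^ 2)) * h7 +
      (Real.pi / s * (1 + p * Complex.I) * (z.2 : ℂ) ^ 2) * h8 +
      (Real.pi * (1 + p * Complex.I) * s * (z.1 : ℂ) ^ 2) * h9
  rw [hexp]
  have harg := Complex.norm_mul_exp_arg_mul_I κ
  have hfin : κ * Complex.exp (((2 * δ : ℝ) : ℂ) * Complex.I) *
        Complex.exp (((-2 * Real.pi * s * z.1 ^ 2 + Real.pi * (s * z.1 ^ 2 - z.2 ^ 2 / s) : ℝ) : ℂ)) *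
        Complex.exp (((Real.pi * (p * (s * z.1 ^ 2 - z.2 ^ 2 / s) + q * z.1) : ℝ) : ℂ) *
          Complex.I) =
      ((‖κ‖ * Real.exp (-2 * Real.pi * s * z.1 ^ 2 + Real.pi * (s * z.1 ^ 2 - z.2 ^ 2 / s)) : ℝ) :
        ℂ) * Complex.exp (((k * Real.pi : ℝ) : ℂ) * Complex.I) := by
    have hR : ((‖κ‖ * Real.exp (-2 * Real.pi * s * z.1 ^ 2 +
          Real.pi * (s * z.1 ^ 2 - z.2 ^ 2 / s)) : ℝ) : ℂ) =
        (‖κ‖ : ℂ) * Complex.exp
          (((-2 * Real.pi * s * z.1 ^ 2 + Real.pi * (s * z.1 ^ 2 - z.2 ^ 2 / s) : ℝ) : ℂ)) := by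
      rw [Complex.ofReal_mul, Complex.ofReal_exp]
    rw [hR]
    conv_lhs => rw [← harg]
    have e3 : ((k * Real.pi : ℝ) : ℂ) * Complex.I = (Complex.arg κ : ℂ) * Complex.I +
        ((2 * δ : ℝ) : ℂ) * Complex.I +
        ((Real.pi * (p * (s * z.1 ^ 2 - z.2 ^ 2 / s) + q * z.1) : ℝ) : ℂ) * Complex.I := by
      have : k * Real.pi = Complex.arg κ + 2 * δ +
          Real.pi * (p * (s * z.1 ^ 2 - z.2 ^ 2 / s) + q * z.1) := by
        rw [hδ, ← hk]; ring
      rw [this]; push_cast; ring
    rw [e3, Complex.exp_add, Complex.exp_add]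
    ring
  rw [hfin, Complex.im_ofReal_mul, Complex.exp_ofReal_mul_I_im, Real.sin_int_mul_pi, mul_zero]

/-- Lattices whose Lorentz form `s x² - ω² / s` takes its values in `ρℤ`, `ρ > 1`. -/
theorem not_allows_gauss_lattice (s : ℝ) (hs : 0 < s) (a b c d ρ : ℝ) (hρ : 1 < ρ) (i j k : ℤ)
    (h1 : s * a ^ 2 - c ^ 2 / s = ρ * i) (h2 : s * b ^ 2 - d ^ 2 / s = ρ * j)
    (h3 : 2 * (s * a * b - c * d / s) = ρ * k) :
    ¬ AllowsSignRetrieval (gauss s) (shiftedLattice (0, 0) a b c d) := by
  have hρ0 : 0 < ρ := by linarith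
  refine not_allows_gauss s hs (1 / ρ) 0 0 ?_ (Or.inl (by positivity)) _ ?_
  · rw [abs_of_pos (by positivity), div_lt_one hρ0]; exact hρ
  · rintro z ⟨m, n, rfl⟩
    refine ⟨i * m ^ 2 + k * m * n + j * n ^ 2, ?_⟩
    push_cast
    simp only [zero_add]
    rw [div_mul_eq_mul_div, zero_mul, add_zero, add_zero, one_mul, div_eq_iff hρ0.ne']
    linear_combination (m : ℝ) ^ 2 * h1 + (n : ℝ) ^ 2 * h2 + (m * n : ℝ) * h3

lemma int_of_dependent {a b : ℝ} (h : ¬ LinearIndependent ℚ ![a, b]) :
    ∃ m n : ℤ, (m ≠ 0 ∨ n ≠ 0) ∧ (m : ℝ) * a + n * b = 0 := by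
  rw [LinearIndependent.pair_iff] at h
  push Not at h
  obtain ⟨s, t, hst, hne⟩ := h
  refine ⟨s.num * t.den, t.num * s.den, ?_, ?_⟩
  · by_cases hs : s = 0
    · right
      have ht : t ≠ 0 := hne hs
      exact mul_ne_zero (Rat.num_ne_zero.2 ht) (by exact_mod_cast s.den_nz)
    · left
      exact mul_ne_zero (Rat.num_ne_zero.2 hs) (by exact_mod_cast t.den_nz)
  · have hsd : (s.den : ℝ) ≠ 0 := by exact_mod_cast s.den_nz
    have htd : (t.den : ℝ) ≠ 0 := by exact_mod_cast t.den_nz
    have hs : (s.num : ℝ) = s * s.den := by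
      have := Rat.num_div_den s
      have h2 : ((s.num : ℚ) : ℝ) / ((s.den : ℚ) : ℝ) = (s : ℝ) := by
        rw [← Rat.cast_div, this]
      push_cast at h2
      rw [div_eq_iff hsd] at h2
      exact h2
    have ht : (t.num : ℝ) = t * t.den := by
      have := Rat.num_div_den t
      have h2 : ((t.num : ℚ) : ℝ) / ((t.den : ℚ) : ℝ) = (t : ℝ) := by
        rw [← Rat.cast_div, this]
      push_cast at h2
      rw [div_eq_iff htd] at h2
      exact h2
    have h3 : (s : ℝ) * a + (t : ℝ) * b = 0 := by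
      simpa [Rat.smul_def] using hst
    push_cast
    rw [hs, ht]
    linear_combination ((s.den : ℝ) * t.den) * h3

/-- The lattice generated by `(σ/2, -sσ/2)` and `(τ/2, sτ/2)`: both rows are linearly independent
over `ℚ` as soon as `τ/σ` is irrational. -/
lemma rows_independent (s σ τ : ℝ) (hs : 0 < s) (hσ : 0 < σ) (hirr : Irrational (τ / σ)) :
    LinearIndependent ℚ ![σ / 2, τ / 2] ∧ LinearIndependent ℚ ![-(s * σ / 2), s * τ / 2] := by
  have key : ∀ m n : ℚ, (m : ℝ) * σ + (n : ℝ) * τ = 0 → m = 0 ∧ n = 0 := by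
    intro m n h
    by_cases hn : n = 0
    · refine ⟨?_, hn⟩
      rw [hn] at h
      simp only [Rat.cast_zero, zero_mul, add_zero] at h
      rcases mul_eq_zero.1 h with h | h
      · exact_mod_cast h
      · exact absurd h hσ.ne'
    · exfalso
      have hn' : (n : ℝ) ≠ 0 := by exact_mod_cast hn
      apply hirr
      refine ⟨-m / n, ?_⟩
      push_cast
      rw [div_eq_div_iff hn' hσ.ne']
      linarith
  constructor
  · rw [LinearIndependent.pair_iff]
    intro m n h
    apply key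
    have h' : (m : ℝ) * (σ / 2) + (n : ℝ) * (τ / 2) = 0 := by simpa [Rat.smul_def] using h
    linarith
  · rw [LinearIndependent.pair_iff]
    intro m n h
    have h' : (m : ℝ) * (-(s * σ / 2)) + (n : ℝ) * (s * τ / 2) = 0 := by
      simpa [Rat.smul_def] using h
    have h2 : s * (((-m : ℚ) : ℝ) * σ + (n : ℝ) * τ) = 0 := by
      push_cast
      linear_combination 2 * h'
    have h3 : ((-m : ℚ) : ℝ) * σ + (n : ℝ) * τ = 0 := by
      rcases mul_eq_zero.1 h2 with h | h
      · exact absurd h hs.ne'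
      · exact h
    obtain ⟨h4, h5⟩ := key _ _ h3
    exact ⟨neg_eq_zero.1 h4, h5⟩

end Pool.Agent.H37.SignRetrieval
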