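import Mathlib

open Metric Set InnerProductSpace Filter Topology
open scoped ENNReal

namespace Pool.Agent.H37.ThreeBalls

abbrev E (n : ℕ) := EuclideanSpace ℝ (Fin n)

lemma iteratedFDeriv_line {V : Type*} [NormedAddCommGroup V] [NormedSpace ℝ V]
    {F : Type*} [NormedAddCommGroup F] [NormedSpace ℝ F]
    (f : V → F) {U : Set V} (hU : IsOpen U)
    (hf : ContDiffOn ℝ 2 f U) {x : V} (hx : x ∈ U) (v : V) :
    iteratedFDeriv ℝ 2 f x ![v, v] = iteratedDeriv 2 (fun t : ℝ => f (x + t • v)) 0 := by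
  set g : ℝ →L[ℝ] V := ContinuousLinearMap.toSpanSingleton ℝ v with hg
  set h : V → F := fun y => f (x + y) with hh
  set s : Set V := (fun y => x + y) ⁻¹' U with hs
  have hso : IsOpen s := hU.preimage (continuous_const.add continuous_id)
  have hhc : ContDiffOn ℝ 2 h s := by
    refine hf.comp (by fun_prop : ContDiff ℝ 2 fun y : V => x + y).contDiffOn ?_
    intro y hy; exact hy
  have h0s : g 0 ∈ s := by
    simp [hs, hx]
  have hgs : IsOpen (g ⁻¹' s) := hso.preimage g.continuous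
  have h1 := ContinuousLinearMap.iteratedFDerivWithin_comp_right (i := 2) g hhc hso.uniqueDiffOn
    hgs.uniqueDiffOn h0s le_rfl
  rw [iteratedFDerivWithin_of_isOpen 2 hgs h0s, iteratedFDerivWithin_of_isOpen 2 hso h0s] at h1
  have h2 : (fun t : ℝ => f (x + t • v)) = h ∘ g := by
    funext t; simp [hh, hg, ContinuousLinearMap.toSpanSingleton_apply]
  rw [h2, iteratedDeriv_eq_iteratedFDeriv, h1]
  simp only [ContinuousMultilinearMap.compContinuousLinearMap_apply]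
  have h3 : iteratedFDeriv ℝ 2 h (g 0) = iteratedFDeriv ℝ 2 f x := by
    rw [hh, iteratedFDeriv_comp_add_left]
    simp
  rw [h3]
  congr 1
  ext i
  fin_cases i <;> simp [hg, ContinuousLinearMap.toSpanSingleton_apply]

lemma laplacian_eq_sum {n : ℕ} (f : E n → ℂ) {U : Set (E n)} (hU : IsOpen U)
    (hf : ContDiffOn ℝ 2 f U) {x : E n} (hx : x ∈ U) :
    Laplacian.laplacian f x = ∑ i, iteratedDeriv 2 (fun t : ℝ => f (x + t • EuclideanSpace.single i (1:ℝ))) 0 := by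
  rw [laplacian_eq_iteratedFDeriv_orthonormalBasis f (EuclideanSpace.basisFun (Fin n) ℝ)]
  refine Finset.sum_congr rfl fun i _ => ?_
  rw [← iteratedFDeriv_line f hU hf hx]
  simp

/-- One dimensional computation for the Poisson kernel. -/
lemma second_deriv_poisson (β xi q wi s : ℝ) (hq : 0 < q) :
    iteratedDeriv 2 (fun t : ℝ => (((β - 2 * xi * t - t ^ 2) * (q + 2 * wi * t + t ^ 2) ^ s : ℝ) : ℂ)) 0 =
      ((-2 * q ^ s - 8 * s * xi * wi * q ^ (s - 1) +
        β * (4 * s * (s - 1) * wi ^ 2 * q ^ (s - 2) + 2 * s * q ^ (s - 1)) : ℝ) : ℂ) := by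
  have hA : ∀ t : ℝ, HasDerivAt (fun t : ℝ => q + 2 * wi * t + t ^ 2) (2 * wi + 2 * t) t := by
    intro t
    have h1 : HasDerivAt (fun t : ℝ => 2 * wi * t) (2 * wi) t := by
      simpa using (hasDerivAt_id t).const_mul (2 * wi)
    have h2 : HasDerivAt (fun t : ℝ => t ^ 2) (2 * t) t := by
      simpa using hasDerivAt_pow 2 t
    exact (h1.const_add q).add h2
  have hB : ∀ t : ℝ, HasDerivAt (fun t : ℝ => β - 2 * xi * t - t ^ 2) (-(2 * xi) - 2 * t) t := by
    intro t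
    have h1 : HasDerivAt (fun t : ℝ => 2 * xi * t) (2 * xi) t := by
      simpa using (hasDerivAt_id t).const_mul (2 * xi)
    have h2 : HasDerivAt (fun t : ℝ => t ^ 2) (2 * t) t := by
      simpa using hasDerivAt_pow 2 t
    exact (h1.const_sub β).sub h2
  have hpos : ∀ᶠ t : ℝ in 𝓝 0, 0 < q + 2 * wi * t + t ^ 2 := by
    have hc : ContinuousAt (fun t : ℝ => q + 2 * wi * t + t ^ 2) 0 := (hA 0).continuousAt
    exact hc.eventually (lt_mem_nhds (by simpa using hq))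
  have hd1 : ∀ t : ℝ, 0 < q + 2 * wi * t + t ^ 2 →
      HasDerivAt (fun t : ℝ => (β - 2 * xi * t - t ^ 2) * (q + 2 * wi * t + t ^ 2) ^ s)
        ((-(2 * xi) - 2 * t) * (q + 2 * wi * t + t ^ 2) ^ s +
          (β - 2 * xi * t - t ^ 2) * ((2 * wi + 2 * t) * s * (q + 2 * wi * t + t ^ 2) ^ (s - 1))) t := by
    intro t ht
    exact (hB t).mul ((hA t).rpow_const (Or.inl ht.ne'))
  have hd1c : ∀ᶠ t : ℝ in 𝓝 0,
      deriv (fun t : ℝ => (((β - 2 * xi * t - t ^ 2) * (q + 2 * wi * t + t ^ 2) ^ s : ℝ) : ℂ)) t =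
        (((-(2 * xi) - 2 * t) * (q + 2 * wi * t + t ^ 2) ^ s +
          (β - 2 * xi * t - t ^ 2) * ((2 * wi + 2 * t) * s * (q + 2 * wi * t + t ^ 2) ^ (s - 1)) : ℝ) : ℂ) := by
    filter_upwards [hpos] with t ht
    exact (hd1 t ht).ofReal_comp.deriv
  have hlin1 : HasDerivAt (fun t : ℝ => -(2 * xi) - 2 * t) (-2) 0 := by
    have h1 : HasDerivAt (fun t : ℝ => 2 * t) 2 (0:ℝ) := by
      simpa using (hasDerivAt_id (0:ℝ)).const_mul 2
    exact h1.const_sub _
  have hlin2 : HasDerivAt (fun t : ℝ => (2 * wi + 2 * t) * s) (2 * s) 0 := by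
    have h1 : HasDerivAt (fun t : ℝ => 2 * t) 2 (0:ℝ) := by
      simpa using (hasDerivAt_id (0:ℝ)).const_mul 2
    exact (h1.const_add _).mul_const s
  have hq' : (fun t : ℝ => q + 2 * wi * t + t ^ 2) 0 ≠ 0 := by simpa using hq.ne'
  have hd2 : HasDerivAt (fun t : ℝ => (-(2 * xi) - 2 * t) * (q + 2 * wi * t + t ^ 2) ^ s +
          (β - 2 * xi * t - t ^ 2) * ((2 * wi + 2 * t) * s * (q + 2 * wi * t + t ^ 2) ^ (s - 1)))
      (-2 * q ^ s - 8 * s * xi * wi * q ^ (s - 1) +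
        β * (4 * s * (s - 1) * wi ^ 2 * q ^ (s - 2) + 2 * s * q ^ (s - 1))) 0 := by
    have e1 := hlin1.mul ((hA 0).rpow_const (p := s) (Or.inl hq'))
    have e2 := (hB 0).mul (hlin2.mul ((hA 0).rpow_const (p := s - 1) (Or.inl hq')))
    have e3 := e1.add e2
    refine HasDerivAt.congr_deriv e3 ?_
    have e4 : q + 2 * wi * 0 + (0:ℝ) ^ 2 = q := by ring
    simp only [Pi.mul_apply, e4]
    rw [show s - 1 - 1 = s - 2 by ring]
    ring
  rw [iteratedDeriv_succ, iteratedDeriv_one]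
  have h2 := hd2.ofReal_comp
  rw [Filter.EventuallyEq.deriv_eq hd1c]
  exact h2.deriv

/-- The Poisson kernel of the ball of radius `‖y‖` with pole `y`. -/
noncomputable def pois {n : ℕ} (y x : E n) : ℝ :=
  (‖y‖ ^ 2 - ‖x‖ ^ 2) * (‖x - y‖ ^ 2) ^ (-(n : ℝ) / 2)

lemma contDiffOn_pois {n : ℕ} (y : E n) :
    ContDiffOn ℝ 2 (fun x : E n => ((pois y x : ℝ) : ℂ)) {y}ᶜ := by
  intro x hx
  have hxy : ‖x - y‖ ^ 2 ≠ 0 := by
    have : x - y ≠ 0 := sub_ne_zero.2 hx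
    positivity
  apply ContDiffAt.contDiffWithinAt
  have h1 : ContDiffAt ℝ 2 (fun x : E n => ‖y‖ ^ 2 - ‖x‖ ^ 2) x :=
    contDiffAt_const.sub (contDiff_norm_sq ℝ).contDiffAt
  have h2 : ContDiffAt ℝ 2 (fun x : E n => ‖x - y‖ ^ 2) x :=
    ((contDiff_norm_sq ℝ).comp (contDiff_id.sub contDiff_const)).contDiffAt
  have h3 : ContDiffAt ℝ 2 (fun x : E n => (‖x - y‖ ^ 2) ^ (-(n : ℝ) / 2)) x :=
    h2.rpow_const_of_ne hxy
  exact Complex.ofRealCLM.contDiff.contDiffAt.comp x (h1.mul h3)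

lemma harmonic_pois {n : ℕ} (y : E n) :
    HarmonicOnNhd (fun x : E n => ((pois y x : ℝ) : ℂ)) {y}ᶜ := by
  have hU : IsOpen ({y}ᶜ : Set (E n)) := isOpen_compl_singleton
  intro x hx
  refine ⟨(contDiffOn_pois y).contDiffAt (hU.mem_nhds hx), ?_⟩
  filter_upwards [hU.mem_nhds hx] with x hx
  rw [laplacian_eq_sum _ hU (contDiffOn_pois y) hx]
  have hw : x - y ≠ 0 := sub_ne_zero.2 hx
  have hq : 0 < ‖x - y‖ ^ 2 := by positivity
  have hline : ∀ i : Fin n, (fun t : ℝ => ((pois y (x + t • EuclideanSpace.single i (1:ℝ)) : ℝ) : ℂ)) =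
      fun t : ℝ => ((((‖y‖ ^ 2 - ‖x‖ ^ 2) - 2 * x i * t - t ^ 2) *
        (‖x - y‖ ^ 2 + 2 * (x - y) i * t + t ^ 2) ^ (-(n : ℝ) / 2) : ℝ) : ℂ) := by
    intro i
    funext t
    unfold pois
    have e1 : ‖x + t • EuclideanSpace.single i (1:ℝ)‖ ^ 2 = ‖x‖ ^ 2 + 2 * x i * t + t ^ 2 := by
      rw [norm_add_sq_real, norm_smul]
      simp [inner_smul_right, EuclideanSpace.inner_single_right]
      ring
    have e2 : ‖x + t • EuclideanSpace.single i (1:ℝ) - y‖ ^ 2 =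
        ‖x - y‖ ^ 2 + 2 * (x - y) i * t + t ^ 2 := by
      rw [show x + t • EuclideanSpace.single i (1:ℝ) - y =
        (x - y) + t • EuclideanSpace.single i (1:ℝ) by abel]
      rw [norm_add_sq_real, norm_smul]
      simp [inner_smul_right, EuclideanSpace.inner_single_right]
      ring
    rw [e1, e2]
    congr 2
    ring
  have hsum : ∑ i, iteratedDeriv 2 (fun t : ℝ =>
      ((pois y (x + t • EuclideanSpace.single i (1:ℝ)) : ℝ) : ℂ)) 0 = 0 := by
    have : ∀ i : Fin n, iteratedDeriv 2 (fun t : ℝ =>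
      ((pois y (x + t • EuclideanSpace.single i (1:ℝ)) : ℝ) : ℂ)) 0 = _ := fun i => by
        rw [hline i, second_deriv_poisson _ _ _ _ _ hq]
    rw [Finset.sum_congr rfl fun i _ => this i, ← Complex.ofReal_sum]
    rw [← Complex.ofReal_zero]
    congr 1
    set q := ‖x - y‖ ^ 2 with hqdef
    set s : ℝ := -(n : ℝ) / 2 with hs
    have hq1 : q ^ s = q ^ (s - 1) * q := by
      rw [← Real.rpow_add_one hq.ne']; congr 1; ring
    have hq2 : q ^ (s - 1) = q ^ (s - 2) * q := by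
      rw [← Real.rpow_add_one hq.ne']; congr 1; ring
    have hsw : ∑ i, (x - y) i ^ 2 = q := by
      rw [hqdef, EuclideanSpace.norm_sq_eq]
      simp
    have hxw : ∑ i, x i * (x - y) i = ‖x‖ ^ 2 - inner ℝ x y := by
      have e1 : inner ℝ x (x - y) = ∑ i, x i * (x - y) i := by
        rw [PiLp.inner_apply]
        refine Finset.sum_congr rfl fun i _ => ?_
        simp [mul_comm]
      rw [← e1, inner_sub_right, real_inner_self_eq_norm_sq]
    have hqe : q = ‖x‖ ^ 2 - 2 * inner ℝ x y + ‖y‖ ^ 2 := by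
      rw [hqdef, norm_sub_sq_real]
    have hn : (n : ℝ) = -2 * s := by rw [hs]; ring
    have key : ∑ i, (-2 * q ^ s - 8 * s * x i * (x - y) i * q ^ (s - 1) +
        (‖y‖ ^ 2 - ‖x‖ ^ 2) * (4 * s * (s - 1) * (x - y) i ^ 2 * q ^ (s - 2) + 2 * s * q ^ (s - 1))) =
        -2 * n * q ^ s - 8 * s * (∑ i, x i * (x - y) i) * q ^ (s - 1) +
        (‖y‖ ^ 2 - ‖x‖ ^ 2) * (4 * s * (s - 1) * (∑ i, (x - y) i ^ 2) * q ^ (s - 2) +
          2 * s * n * q ^ (s - 1)) := by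
      have hterm : ∀ i : Fin n, (-2 * q ^ s - 8 * s * x i * (x - y) i * q ^ (s - 1) +
          (‖y‖ ^ 2 - ‖x‖ ^ 2) * (4 * s * (s - 1) * (x - y) i ^ 2 * q ^ (s - 2) +
            2 * s * q ^ (s - 1))) =
          (-2 * q ^ s + (‖y‖ ^ 2 - ‖x‖ ^ 2) * (2 * s * q ^ (s - 1))) +
          (-8 * s * q ^ (s - 1)) * (x i * (x - y) i) +
          ((‖y‖ ^ 2 - ‖x‖ ^ 2) * (4 * s * (s - 1) * q ^ (s - 2))) * ((x - y) i ^ 2) := by
        intro i; ring
      rw [Finset.sum_congr rfl fun i _ => hterm i, Finset.sum_add_distrib, Finset.sum_add_distrib,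
        ← Finset.mul_sum, ← Finset.mul_sum, Finset.sum_const, Finset.card_univ, Fintype.card_fin,
        nsmul_eq_mul]
      ring
    rw [key, hsw, hxw, hn, hq1, hq2]
    have hqe' : inner ℝ x y = (‖x‖ ^ 2 + ‖y‖ ^ 2 - q) / 2 := by linarith
    rw [hqe']
    ring
  exact hsum

end Pool.Agent.H37.ThreeBalls
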