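import Pool.Agent.H37.TB1

open Metric Set InnerProductSpace Filter Topology
open scoped ENNReal

namespace Pool.Agent.H37.ThreeBalls

/-- `‖u‖_s`, the supremum of `|u|` over the open ball `B(0, s)`, in `[0, ∞]`. -/
noncomputable def supNorm {n : ℕ} (u : E n → ℂ) (s : ℝ) : ℝ≥0∞ :=
  ⨆ x ∈ ball (0 : E n) s, ‖u x‖ₑ

/-- `α` is an admissible exponent for `(ρ, r, R, n)`. -/
def Admissible (n : ℕ) (ρ r R α : ℝ) : Prop :=
  0 < α ∧ α < 1 ∧ ∀ u : E n → ℂ, HarmonicOnNhd u (ball 0 R) → supNorm u R ≠ ⊤ →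
    supNorm u r ≤ supNorm u ρ ^ α * supNorm u R ^ (1 - α)

lemma bound_of_admissible {n : ℕ} {ρ r R α A B : ℝ} (h : Admissible n ρ r R α) {v : E n → ℝ}
    (hv : HarmonicOnNhd (fun x => ((v x : ℝ) : ℂ)) (ball 0 R)) (hA : 0 ≤ A) (hB : 0 ≤ B)
    (hρ : ∀ x ∈ ball (0 : E n) ρ, |v x| ≤ A) (hR : ∀ x ∈ ball (0 : E n) R, |v x| ≤ B)
    {y : E n} (hy : y ∈ ball (0 : E n) r) : |v y| ≤ A ^ α * B ^ (1 - α) := by
  obtain ⟨hα0, hα1, hall⟩ := h
  have hen : ∀ x : E n, ‖((v x : ℝ) : ℂ)‖ₑ = ENNReal.ofReal |v x| := by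
    intro x
    rw [← ofReal_norm, Complex.norm_real, Real.norm_eq_abs]
  have h1 : supNorm (fun x => ((v x : ℝ) : ℂ)) ρ ≤ ENNReal.ofReal A :=
    iSup₂_le fun x hx => by rw [hen]; exact ENNReal.ofReal_le_ofReal (hρ x hx)
  have h2 : supNorm (fun x => ((v x : ℝ) : ℂ)) R ≤ ENNReal.ofReal B :=
    iSup₂_le fun x hx => by rw [hen]; exact ENNReal.ofReal_le_ofReal (hR x hx)
  have h3 : ENNReal.ofReal |v y| ≤ supNorm (fun x => ((v x : ℝ) : ℂ)) r := by
    rw [← hen]
    exact le_iSup₂ (f := fun x (_ : x ∈ ball (0 : E n) r) => ‖((v x : ℝ) : ℂ)‖ₑ) y hy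
  have h4 := hall _ hv (ne_top_of_le_ne_top ENNReal.ofReal_ne_top h2)
  have h5 : ENNReal.ofReal |v y| ≤ ENNReal.ofReal (A ^ α * B ^ (1 - α)) := by
    refine (h3.trans h4).trans ?_
    rw [ENNReal.ofReal_mul (Real.rpow_nonneg hA _), ← ENNReal.ofReal_rpow_of_nonneg hA hα0.le,
      ← ENNReal.ofReal_rpow_of_nonneg hB (by linarith)]
    exact mul_le_mul' (ENNReal.rpow_le_rpow h1 hα0.le) (ENNReal.rpow_le_rpow h2 (by linarith))
  exact (ENNReal.ofReal_le_ofReal_iff (mul_nonneg (Real.rpow_nonneg hA _)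
    (Real.rpow_nonneg hB _))).1 h5

/-- The minimum of the Poisson kernel of the ball of radius `S` on the sphere of radius `t`. -/
noncomputable def pm (n : ℕ) (S t : ℝ) : ℝ := (S ^ 2 - t ^ 2) / (S + t) ^ n

lemma rpow_sq_half {n : ℕ} {x : ℝ} (hx : 0 < x) : (x ^ 2) ^ (-(n : ℝ) / 2) = (x ^ n)⁻¹ := by
  rw [← Real.rpow_natCast x 2, ← Real.rpow_mul hx.le, ← Real.rpow_natCast x n, ← Real.rpow_neg hx.le]
  congr 1
  push_cast
  ring

lemma poisson_ineq {m : ℕ} {ρ r R α : ℝ} (hρ : 0 < ρ) (hρr : ρ < r) (hrR : r < R)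
    (h : Admissible (m + 2) ρ r R α) {S t : ℝ} (hS : R < S) (ht0 : 0 ≤ t) (ht : t < r) :
    α * pm (m + 2) S ρ + (1 - α) * pm (m + 2) S R ≤ pm (m + 2) S t := by
  have hR0 : 0 < R := by linarith
  have hS0 : 0 < S := by linarith
  obtain ⟨hα0, hα1, -⟩ := id h
  set y : E (m + 2) := EuclideanSpace.single 0 S with hy
  have hyn : ‖y‖ = S := by
    rw [hy, PiLp.norm_single, Real.norm_eq_abs, abs_of_pos hS0]
  -- lower bound of the Poisson kernel
  have hlow : ∀ s : ℝ, 0 < s → s < S → ∀ x ∈ ball (0 : E (m + 2)) s, pm (m + 2) S s ≤ pois y x := by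
    intro s hs0 hsS x hx
    rw [mem_ball_zero_iff] at hx
    have hxn := norm_nonneg x
    have hxy : 0 < ‖x - y‖ := by
      rw [norm_pos_iff, sub_ne_zero]
      intro h; rw [h, hyn] at hx; linarith
    have h1 : ‖x - y‖ ≤ S + s := by
      calc ‖x - y‖ ≤ ‖x‖ + ‖y‖ := norm_sub_le _ _
        _ ≤ S + s := by rw [hyn]; linarith
    unfold pm pois
    rw [hyn, rpow_sq_half hxy, div_eq_mul_inv]
    have h2 : ‖x‖ ^ 2 ≤ s ^ 2 := by nlinarith
    have h3 : 0 ≤ S ^ 2 - s ^ 2 := by nlinarith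
    refine mul_le_mul (by linarith) ?_ (by positivity) (by nlinarith)
    exact inv_anti₀ (by positivity) (pow_le_pow_left₀ hxy.le h1 _)
  have hnonneg : ∀ x ∈ ball (0 : E (m + 2)) R, 0 ≤ pois y x := by
    intro x hx
    rw [mem_ball_zero_iff] at hx
    unfold pois
    have hxn := norm_nonneg x
    rw [hyn]
    exact mul_nonneg (by nlinarith) (Real.rpow_nonneg (by positivity) _)
  -- upper bound of the Poisson kernel
  set K : ℝ := S ^ 2 * ((S - R) ^ (m + 2))⁻¹ with hK
  have hSR : 0 < S - R := by linarith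
  have hK0 : 0 < K := by positivity
  have hup : ∀ x ∈ ball (0 : E (m + 2)) R, pois y x ≤ K := by
    intro x hx
    rw [mem_ball_zero_iff] at hx
    have hxn := norm_nonneg x
    have h1 : S - R ≤ ‖x - y‖ := by
      have := norm_sub_norm_le y x
      rw [hyn, norm_sub_rev] at this
      linarith
    have hxy : 0 < ‖x - y‖ := by linarith
    unfold pois
    rw [hyn, rpow_sq_half hxy]
    refine mul_le_mul (by nlinarith) ?_ (by positivity) (by positivity)
    exact inv_anti₀ (by positivity) (pow_le_pow_left₀ hSR.le h1 _)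
  set δ : ℝ := 1 / K with hδ
  have hδ0 : 0 < δ := by positivity
  have hδK : δ * K = 1 := by rw [hδ]; field_simp
  set v : E (m + 2) → ℝ := fun x => 1 - δ * pois y x with hv
  have hharm : HarmonicOnNhd (fun x => ((v x : ℝ) : ℂ)) (ball 0 R) := by
    have h1 : HarmonicOnNhd (fun x : E (m + 2) => ((pois y x : ℝ) : ℂ)) (ball 0 R) := by
      refine (harmonic_pois y).mono ?_
      intro x hx hxy
      rw [mem_singleton_iff] at hxy
      rw [mem_ball_zero_iff, hxy, hyn] at hx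
      linarith
    have h2 : HarmonicOnNhd ((fun _ : E (m + 2) => (1 : ℂ)) -
        (δ • fun x : E (m + 2) => ((pois y x : ℝ) : ℂ))) (ball 0 R) :=
      (harmonicOnNhd_const (1 : ℂ)).sub (h1.const_smul)
    convert h2 using 1
    funext x
    simp [hv]
  have hv01 : ∀ x ∈ ball (0 : E (m + 2)) R, 0 ≤ v x := by
    intro x hx
    have := mul_le_mul_of_nonneg_left (hup x hx) hδ0.le
    simp only [hv]
    linarith
  have hvb : ∀ s : ℝ, 0 < s → s ≤ R → ∀ x ∈ ball (0 : E (m + 2)) s,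
      |v x| ≤ 1 - δ * pm (m + 2) S s := by
    intro s hs0 hsR x hx
    have hx' : x ∈ ball (0 : E (m + 2)) R := ball_subset_ball hsR hx
    rw [abs_of_nonneg (hv01 x hx')]
    have := mul_le_mul_of_nonneg_left (hlow s hs0 (by linarith) x hx) hδ0.le
    simp only [hv]
    linarith
  have hA : 0 ≤ 1 - δ * pm (m + 2) S ρ := by
    have := hvb ρ hρ (by linarith) 0 (by simp [hρ])
    exact (abs_nonneg _).trans this
  have hB : 0 ≤ 1 - δ * pm (m + 2) S R := by
    have := hvb R hR0 le_rfl 0 (by simp [hR0])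
    exact (abs_nonneg _).trans this
  -- the point `-t e₀`
  set z : E (m + 2) := EuclideanSpace.single 0 (-t) with hz
  have hzn : ‖z‖ = t := by
    rw [hz, PiLp.norm_single, Real.norm_eq_abs, abs_neg, abs_of_nonneg ht0]
  have hzy : ‖z - y‖ = S + t := by
    have : z - y = EuclideanSpace.single 0 (-(S + t)) := by
      ext i
      by_cases hi : i = 0
      · subst hi
        simp [hz, hy]
        ring
      · simp [hz, hy, hi]
    rw [this, PiLp.norm_single, Real.norm_eq_abs, abs_neg, abs_of_pos (by linarith)]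
  have hzv : v z = 1 - δ * pm (m + 2) S t := by
    simp only [hv, pois, pm]
    rw [hyn, hzn, hzy, rpow_sq_half (by linarith), div_eq_mul_inv]
  have key := bound_of_admissible h hharm hA hB (hvb ρ hρ (by linarith)) (hvb R hR0 le_rfl)
    (y := z) (by rw [mem_ball_zero_iff, hzn]; exact ht)
  rw [hzv] at key
  have hgm := Real.geom_mean_le_arith_mean2_weighted hα0.le (by linarith : (0:ℝ) ≤ 1 - α) hA hB
    (by ring)
  have h9 := (le_abs_self _).trans (key.trans hgm)
  have h10 : δ * (α * pm (m + 2) S ρ + (1 - α) * pm (m + 2) S R) ≤ δ * pm (m + 2) S t := by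
    linarith
  exact le_of_mul_le_mul_left h10 hδ0

lemma continuousAt_pm_right (n : ℕ) {S t : ℝ} (h : 0 < S + t) :
    ContinuousAt (fun t => pm n S t) t := by
  unfold pm
  exact ContinuousAt.div (by fun_prop) (by fun_prop) (by positivity)

lemma continuousAt_pm_left (n : ℕ) {S t : ℝ} (h : 0 < S + t) :
    ContinuousAt (fun S => pm n S t) S := by
  unfold pm
  exact ContinuousAt.div (by fun_prop) (by fun_prop) (by positivity)

/-- The Harnack type upper bound. -/
theorem harnack_bound {m : ℕ} {ρ r R α : ℝ} (hρ : 0 < ρ) (hρr : ρ < r) (hrR : r < R)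
    (h : Admissible (m + 2) ρ r R α) :
    α ≤ (R - r) / (R - ρ) * ((R + ρ) / (R + r)) ^ (m + 1) := by
  have hr0 : 0 < r := by linarith
  have hR0 : 0 < R := by linarith
  -- let `t → r`
  have h1 : ∀ S : ℝ, R < S → α * pm (m + 2) S ρ + (1 - α) * pm (m + 2) S R ≤ pm (m + 2) S r := by
    intro S hS
    have hc : Tendsto (fun t => pm (m + 2) S t) (𝓝[<] r) (𝓝 (pm (m + 2) S r)) :=
      (continuousAt_pm_right (m + 2) (by linarith : 0 < S + r)).tendsto.mono_left
        nhdsWithin_le_nhds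
    refine ge_of_tendsto hc ?_
    filter_upwards [Ioo_mem_nhdsLT hr0] with t ht
    exact poisson_ineq hρ hρr hrR h hS ht.1.le ht.2
  -- let `S → R`
  have h2 : α * pm (m + 2) R ρ + (1 - α) * pm (m + 2) R R ≤ pm (m + 2) R r := by
    have c1 : Tendsto (fun S => α * pm (m + 2) S ρ + (1 - α) * pm (m + 2) S R) (𝓝[>] R)
        (𝓝 (α * pm (m + 2) R ρ + (1 - α) * pm (m + 2) R R)) := by
      refine Tendsto.mono_left ?_ nhdsWithin_le_nhds
      exact ((continuousAt_pm_left (m + 2) (by linarith : 0 < R + ρ)).tendsto.const_mul α).add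
        ((continuousAt_pm_left (m + 2) (by linarith : 0 < R + R)).tendsto.const_mul (1 - α))
    have c2 : Tendsto (fun S => pm (m + 2) S r) (𝓝[>] R) (𝓝 (pm (m + 2) R r)) :=
      (continuousAt_pm_left (m + 2) (by linarith : 0 < R + r)).tendsto.mono_left
        nhdsWithin_le_nhds
    refine le_of_tendsto_of_tendsto c1 c2 ?_
    filter_upwards [self_mem_nhdsWithin] with S hS
    exact h1 S hS
  have h3 : pm (m + 2) R R = 0 := by unfold pm; simp
  rw [h3, mul_zero, add_zero] at h2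
  have hpos : 0 < pm (m + 2) R ρ := by
    unfold pm
    have : 0 < R ^ 2 - ρ ^ 2 := by nlinarith
    positivity
  have h4 : α ≤ pm (m + 2) R r / pm (m + 2) R ρ := by
    rw [le_div_iff₀ hpos]; exact h2
  refine h4.trans (le_of_eq ?_)
  unfold pm
  have e1 : R ^ 2 - r ^ 2 = (R - r) * (R + r) := by ring
  have e2 : R ^ 2 - ρ ^ 2 = (R - ρ) * (R + ρ) := by ring
  have e3 : R - ρ ≠ 0 := by linarith
  have e4 : R + ρ ≠ 0 := by linarith
  have e5 : R + r ≠ 0 := by linarith
  rw [e1, e2, div_pow]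
  field_simp
  ring

end Pool.Agent.H37.ThreeBalls
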