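import Pool.Agent.H37.TB2

open Metric Set InnerProductSpace Filter Topology
open scoped ENNReal

namespace Pool.Agent.H37.ThreeBalls

/-- `x ↦ (x₀ + i x₁) / R`. -/
noncomputable def LR (m : ℕ) (R : ℝ) : E (m + 2) →L[ℝ] ℂ :=
  R⁻¹ • (Complex.equivRealProdCLM.symm.toContinuousLinearMap.comp
    ((EuclideanSpace.proj (0 : Fin (m + 2))).prod (EuclideanSpace.proj (1 : Fin (m + 2)))))

lemma LR_apply (m : ℕ) (R : ℝ) (x : E (m + 2)) :
    LR m R x = ((R⁻¹ * x 0 : ℝ) : ℂ) + ((R⁻¹ * x 1 : ℝ) : ℂ) * Complex.I := by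
  simp [LR, Complex.equivRealProdCLM_symm_apply]
  ring

lemma normSq_LR (m : ℕ) (R : ℝ) (x : E (m + 2)) :
    ‖LR m R x‖ ^ 2 = R⁻¹ ^ 2 * (x 0 ^ 2 + x 1 ^ 2) := by
  rw [LR_apply, Complex.sq_norm, Complex.normSq_add_mul_I]
  ring

lemma norm_LR_le (m : ℕ) {R : ℝ} (hR : 0 < R) (x : E (m + 2)) : ‖LR m R x‖ ≤ ‖x‖ / R := by
  have h1 : ‖LR m R x‖ ^ 2 ≤ (‖x‖ / R) ^ 2 := by
    rw [normSq_LR, div_pow, EuclideanSpace.norm_sq_eq, Fin.sum_univ_succ, Fin.sum_univ_succ]
    have h2 : 0 ≤ ∑ i : Fin m, ‖x (Fin.succ (Fin.succ i))‖ ^ 2 :=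
      Finset.sum_nonneg fun i _ => by positivity
    simp only [Real.norm_eq_abs, sq_abs] at h2 ⊢
    have h3 : x (Fin.succ 0) = x 1 := rfl
    rw [h3]
    rw [inv_pow, inv_mul_eq_div]
    apply div_le_div_of_nonneg_right _ (by positivity)
    linarith
  exact (sq_le_sq₀ (norm_nonneg _) (by positivity)).1 h1

lemma harmonic_comp_LR (m : ℕ) (R : ℝ) (f : ℂ → ℂ) {V : Set ℂ} (hV : IsOpen V)
    (hf : HarmonicOnNhd f V) : HarmonicOnNhd (fun x : E (m + 2) => f (LR m R x)) (LR m R ⁻¹' V) := by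
  have hU : IsOpen (LR m R ⁻¹' V) := hV.preimage (LR m R).continuous
  have hfc : ContDiffOn ℝ 2 f V := hf.contDiffOn
  have hc : ContDiffOn ℝ 2 (fun x : E (m + 2) => f (LR m R x)) (LR m R ⁻¹' V) :=
    hfc.comp (LR m R).contDiff.contDiffOn (fun x hx => hx)
  intro x hx
  refine ⟨hc.contDiffAt (hU.mem_nhds hx), ?_⟩
  filter_upwards [hU.mem_nhds hx] with x hx
  rw [laplacian_eq_sum _ hU hc hx]
  have hterm : ∀ i : Fin (m + 2),
      iteratedDeriv 2 (fun t : ℝ => f (LR m R (x + t • EuclideanSpace.single i (1:ℝ)))) 0 =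
        iteratedFDeriv ℝ 2 f (LR m R x) ![LR m R (EuclideanSpace.single i (1:ℝ)),
          LR m R (EuclideanSpace.single i (1:ℝ))] := by
    intro i
    rw [iteratedFDeriv_line f hV hfc hx]
    congr 1
    funext t
    rw [map_add, map_smul]
  rw [Finset.sum_congr rfl fun i _ => hterm i, Fin.sum_univ_succ, Fin.sum_univ_succ]
  have h0 : LR m R (EuclideanSpace.single (0 : Fin (m + 2)) (1:ℝ)) = R⁻¹ • (1 : ℂ) := by
    rw [LR_apply]; simp
  have h1 : LR m R (EuclideanSpace.single (Fin.succ (0 : Fin (m + 1))) (1:ℝ)) =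
      R⁻¹ • Complex.I := by
    rw [LR_apply]; simp
  have h2 : ∀ i : Fin m, LR m R (EuclideanSpace.single (Fin.succ (Fin.succ i)) (1:ℝ)) = 0 := by
    intro i
    rw [LR_apply]
    have e0 : (EuclideanSpace.single (Fin.succ (Fin.succ i)) (1:ℝ) : E (m + 2)) 0 = 0 := by
      rw [PiLp.single_apply, if_neg]
      exact (Fin.succ_ne_zero _).symm
    have e1 : (EuclideanSpace.single (Fin.succ (Fin.succ i)) (1:ℝ) : E (m + 2)) 1 = 0 := by
      rw [PiLp.single_apply, if_neg]
      intro h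
      have h3 : (1 : Fin (m + 2)) = Fin.succ 0 := rfl
      rw [h3] at h
      exact Fin.succ_ne_zero _ (Fin.succ_injective _ h).symm
    rw [e0, e1]; simp
  rw [h0, h1]
  have hs : ∀ w : ℂ, iteratedFDeriv ℝ 2 f (LR m R x) ![R⁻¹ • w, R⁻¹ • w] =
      (R⁻¹ * R⁻¹) • iteratedFDeriv ℝ 2 f (LR m R x) ![w, w] := by
    intro w
    have := (iteratedFDeriv ℝ 2 f (LR m R x)).map_smul_univ (fun _ => R⁻¹) ![w, w]
    simp only [Fin.prod_univ_two] at this
    rw [← this]
    congr 1
    ext i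
    fin_cases i <;> rfl
  have hz : ∀ i : Fin m, iteratedFDeriv ℝ 2 f (LR m R x)
      ![LR m R (EuclideanSpace.single (Fin.succ (Fin.succ i)) (1:ℝ)),
        LR m R (EuclideanSpace.single (Fin.succ (Fin.succ i)) (1:ℝ))] = 0 := by
    intro i
    rw [h2 i]
    exact (iteratedFDeriv ℝ 2 f (LR m R x)).map_coord_zero 0 rfl
  rw [Finset.sum_congr rfl fun i _ => hz i, Finset.sum_const_zero, add_zero, hs, hs, ← smul_add]
  have hlap : Laplacian.laplacian f (LR m R x) = 0 := (hf _ hx).2.self_of_nhds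
  rw [laplacian_eq_iteratedFDeriv_complexPlane] at hlap
  simp only at hlap
  rw [hlap, smul_zero]
  rfl

/-- The planar function `(2/π) (arg (1 + iz) - arg (1 - iz)) = (4/π) Re arctan z`. -/
noncomputable def ff (z : ℂ) : ℝ :=
  2 / Real.pi * (Complex.log (1 + Complex.I * z) - Complex.log (1 - Complex.I * z)).im

lemma harmonic_ff : HarmonicOnNhd (fun z : ℂ => ((ff z : ℝ) : ℂ)) (ball 0 1) := by
  intro z hz
  rw [mem_ball_zero_iff] at hz
  have hI : ‖Complex.I * z‖ < 1 := by simpa using hz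
  have hre : |(Complex.I * z).re| < 1 := (Complex.abs_re_le_norm _).trans_lt hI
  rw [abs_lt] at hre
  have hs1 : 1 + Complex.I * z ∈ Complex.slitPlane := by
    left; rw [Complex.add_re, Complex.one_re]; linarith
  have hs2 : 1 - Complex.I * z ∈ Complex.slitPlane := by
    left; rw [Complex.sub_re, Complex.one_re]; linarith
  have ha : AnalyticAt ℂ (fun z : ℂ => Complex.log (1 + Complex.I * z) -
      Complex.log (1 - Complex.I * z)) z := by
    refine AnalyticAt.sub ?_ ?_
    · exact AnalyticAt.clog (by fun_prop) hs1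
    · exact AnalyticAt.clog (by fun_prop) hs2
  have h1 := ha.harmonicAt_im
  have h2 : HarmonicAt ((2 / Real.pi) • fun z : ℂ => (Complex.log (1 + Complex.I * z) -
      Complex.log (1 - Complex.I * z)).im) z := h1.const_smul
  have h3 := h2.comp_CLM Complex.ofRealCLM
  exact h3

lemma arg_eq_arctan {z : ℂ} (hz : 0 < z.re) : z.arg = Real.arctan (z.im / z.re) := by
  have h1 : |z.arg| < Real.pi / 2 := Complex.abs_arg_lt_pi_div_two_iff.2 (Or.inl hz)
  rw [abs_lt] at h1
  rw [← Complex.tan_arg, Real.arctan_tan h1.1 h1.2]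

lemma ff_eq {z : ℂ} (hz : ‖z‖ < 1) : ff z = 2 / Real.pi * Real.arctan (2 * z.re / (1 - ‖z‖ ^ 2)) := by
  have him : |z.im| < 1 := (Complex.abs_im_le_norm _).trans_lt hz
  rw [abs_lt] at him
  have hn : ‖z‖ ^ 2 = z.re ^ 2 + z.im ^ 2 := by
    rw [Complex.sq_norm, Complex.normSq_apply]; ring
  have hn1 : ‖z‖ ^ 2 < 1 := by
    have := norm_nonneg z
    nlinarith
  have h1 : (1 + Complex.I * z).re = 1 - z.im := by simp; ring
  have h2 : (1 + Complex.I * z).im = z.re := by simp
  have h3 : (1 - Complex.I * z).re = 1 + z.im := by simp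
  have h4 : (1 - Complex.I * z).im = -z.re := by simp
  unfold ff
  rw [Complex.sub_im, Complex.log_im, Complex.log_im, arg_eq_arctan (by rw [h1]; linarith),
    arg_eq_arctan (by rw [h3]; linarith), h1, h2, h3, h4, neg_div, Real.arctan_neg, sub_neg_eq_add]
  have hp1 : 0 < 1 - z.im := by linarith
  have hp2 : 0 < 1 + z.im := by linarith
  rw [Real.arctan_add]
  · congr 2
    have e : 1 - z.re / (1 - z.im) * (z.re / (1 + z.im)) =
        (1 - ‖z‖ ^ 2) / ((1 - z.im) * (1 + z.im)) := by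
      rw [hn]; field_simp; ring
    rw [e]
    have e2 : (1 - ‖z‖ ^ 2) ≠ 0 := by linarith
    field_simp
    ring
  · rw [div_mul_div_comm, div_lt_one (by positivity)]
    nlinarith

lemma ff_bound {z : ℂ} {s : ℝ} (hs : 0 ≤ s) (hs1 : s < 1) (hz : ‖z‖ ≤ s) :
    |ff z| ≤ 4 / Real.pi * Real.arctan s := by
  have hpi := Real.pi_pos
  have hz1 : ‖z‖ < 1 := lt_of_le_of_lt hz hs1
  rw [ff_eq hz1, abs_mul, abs_of_pos (by positivity : 0 < 2 / Real.pi)]
  have h2 : 4 / Real.pi * Real.arctan s = 2 / Real.pi * Real.arctan (2 * s / (1 - s ^ 2)) := by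
    rw [← Real.two_mul_arctan (by linarith) hs1]; ring
  rw [h2]
  have hn := norm_nonneg z
  have hd1 : 0 < 1 - ‖z‖ ^ 2 := by nlinarith
  have hd2 : 0 < 1 - s ^ 2 := by nlinarith
  have hre := Complex.abs_re_le_norm z
  have hle : |2 * z.re / (1 - ‖z‖ ^ 2)| ≤ 2 * s / (1 - s ^ 2) := by
    rw [abs_div, abs_of_pos hd1, abs_mul, abs_two]
    exact div_le_div₀ (by positivity) (by linarith) hd2 (by nlinarith)
  apply mul_le_mul_of_nonneg_left _ (by positivity)
  rw [abs_le] at hle ⊢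
  constructor
  · rw [← Real.arctan_neg]
    exact Real.arctan_mono hle.1
  · exact Real.arctan_mono hle.2

lemma ff_le_one {z : ℂ} (hz : ‖z‖ < 1) : |ff z| ≤ 1 := by
  have hpi := Real.pi_pos
  have h := ff_bound (norm_nonneg z) hz le_rfl
  refine h.trans ?_
  have h2 : Real.arctan ‖z‖ ≤ Real.pi / 4 := by
    rw [← Real.arctan_one]; exact Real.arctan_mono hz.le
  calc 4 / Real.pi * Real.arctan ‖z‖ ≤ 4 / Real.pi * (Real.pi / 4) :=
        mul_le_mul_of_nonneg_left h2 (by positivity)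
    _ = 1 := by field_simp

lemma ff_real {t : ℝ} (ht : 0 ≤ t) (ht1 : t < 1) : ff (t : ℂ) = 4 / Real.pi * Real.arctan t := by
  have h1 : ‖(t : ℂ)‖ = t := by rw [Complex.norm_real, Real.norm_eq_abs, abs_of_nonneg ht]
  rw [ff_eq (by rw [h1]; exact ht1), h1, Complex.ofReal_re, ← Real.two_mul_arctan (by linarith) ht1]
  ring

/-- The bound by the planar function. -/
theorem arctan_bound {m : ℕ} {ρ r R α : ℝ} (hρ : 0 < ρ) (hρr : ρ < r) (hrR : r < R)
    (h : Admissible (m + 2) ρ r R α) :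
    α ≤ Real.log (4 / Real.pi * Real.arctan (r / R)) / Real.log (4 / Real.pi * Real.arctan (ρ / R)) := by
  have hpi := Real.pi_pos
  have hR0 : 0 < R := by linarith
  have hr0 : 0 < r := by linarith
  obtain ⟨hα0, hα1, -⟩ := id h
  set v : E (m + 2) → ℝ := fun x => ff (LR m R x) with hv
  have hharm : HarmonicOnNhd (fun x => ((v x : ℝ) : ℂ)) (ball 0 R) := by
    refine (harmonic_comp_LR m R (fun z : ℂ => ((ff z : ℝ) : ℂ)) isOpen_ball harmonic_ff).mono ?_
    intro x hx
    rw [mem_ball_zero_iff] at hx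
    rw [mem_preimage, mem_ball_zero_iff]
    exact (norm_LR_le m hR0 x).trans_lt ((div_lt_one hR0).2 hx)
  have hA0 : 0 < 4 / Real.pi * Real.arctan (ρ / R) := by
    have : 0 < Real.arctan (ρ / R) := Real.arctan_pos.2 (by positivity)
    positivity
  have hvρ : ∀ x ∈ ball (0 : E (m + 2)) ρ, |v x| ≤ 4 / Real.pi * Real.arctan (ρ / R) := by
    intro x hx
    rw [mem_ball_zero_iff] at hx
    refine ff_bound (by positivity) ((div_lt_one hR0).2 (by linarith)) ?_
    exact (norm_LR_le m hR0 x).trans (div_le_div_of_nonneg_right hx.le hR0.le)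
  have hvR : ∀ x ∈ ball (0 : E (m + 2)) R, |v x| ≤ 1 := by
    intro x hx
    rw [mem_ball_zero_iff] at hx
    exact ff_le_one ((norm_LR_le m hR0 x).trans_lt ((div_lt_one hR0).2 hx))
  have hpt : ∀ t : ℝ, 0 ≤ t → t < r →
      4 / Real.pi * Real.arctan (t / R) ≤ (4 / Real.pi * Real.arctan (ρ / R)) ^ α := by
    intro t ht0 ht
    have hzn : ‖(EuclideanSpace.single 0 t : E (m + 2))‖ = t := by
      rw [PiLp.norm_single, Real.norm_eq_abs, abs_of_nonneg ht0]
    have key := bound_of_admissible h hharm hA0.le zero_le_one hvρ hvR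
      (y := EuclideanSpace.single 0 t) (by rw [mem_ball_zero_iff, hzn]; exact ht)
    rw [Real.one_rpow, mul_one] at key
    have hval : v (EuclideanSpace.single 0 t) = 4 / Real.pi * Real.arctan (t / R) := by
      simp only [hv]
      rw [← ff_real (t := t / R) (by positivity) ((div_lt_one hR0).2 (by linarith))]
      congr 1
      rw [LR_apply]
      simp
      ring
    rw [hval] at key
    exact (le_abs_self _).trans key
  have hlim : 4 / Real.pi * Real.arctan (r / R) ≤ (4 / Real.pi * Real.arctan (ρ / R)) ^ α := by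
    have hc : Tendsto (fun t : ℝ => 4 / Real.pi * Real.arctan (t / R)) (𝓝[<] r)
        (𝓝 (4 / Real.pi * Real.arctan (r / R))) := by
      refine Tendsto.mono_left ?_ nhdsWithin_le_nhds
      exact (((Real.continuous_arctan.comp (continuous_id.div_const R)).const_mul
        (4 / Real.pi)).tendsto r)
    refine le_of_tendsto hc ?_
    filter_upwards [Ioo_mem_nhdsLT hr0] with t ht
    exact hpt t ht.1.le ht.2
  have hA1 : 4 / Real.pi * Real.arctan (ρ / R) < 1 := by
    have h2 : Real.arctan (ρ / R) < Real.pi / 4 := by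
      rw [← Real.arctan_one]
      exact Real.arctan_strictMono ((div_lt_one hR0).2 (by linarith))
    calc 4 / Real.pi * Real.arctan (ρ / R) < 4 / Real.pi * (Real.pi / 4) :=
          mul_lt_mul_of_pos_left h2 (by positivity)
      _ = 1 := by field_simp
  have hB0 : 0 < 4 / Real.pi * Real.arctan (r / R) := by
    have : 0 < Real.arctan (r / R) := Real.arctan_pos.2 (by positivity)
    positivity
  have hlog := Real.log_le_log hB0 hlim
  rw [Real.log_rpow hA0] at hlog
  have hneg := Real.log_neg hA0 hA1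
  rw [le_div_iff_of_neg hneg]
  exact hlog

end Pool.Agent.H37.ThreeBalls
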